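import Pool.Agent.PFI.Defs

/-!
# The linear bound: weighted norms (MP_b906c2_al)
-/

set_option autoImplicit false

namespace Pool.Agent.PFL

open Pool.Agent.PDF Pool.Agent.PFI

/-- the weighted norm: `ρ₀ = 1`, `ρ_{N+1}(y) = ρ_N(y₁,…,y_N)² + y₀²`
(`y_i` has weight `2^(N-1-i)` and `ρ_N` has weight `2^N`) -/
noncomputable def rho : (N : ℕ) → (Fin N → ℝ) → ℝ
  | 0, _ => 1
  | N + 1, y => rho N (fun i => y i.succ) ^ 2 + y 0 ^ 2

/-- the same as a polynomial -/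
noncomputable def rhoP : (N : ℕ) → RP N
  | 0 => 1
  | N + 1 => (MvPolynomial.rename Fin.succ (rhoP N)) ^ 2 + (MvPolynomial.X 0) ^ 2

theorem rho_zero (y : Fin 0 → ℝ) : rho 0 y = 1 := rfl

theorem rho_succ (N : ℕ) (y : Fin (N + 1) → ℝ) :
    rho (N + 1) y = rho N (fun i => y i.succ) ^ 2 + y 0 ^ 2 := rfl

theorem rhoP_succ (N : ℕ) :
    rhoP (N + 1) = (MvPolynomial.rename Fin.succ (rhoP N)) ^ 2 + (MvPolynomial.X 0) ^ 2 := rfl

theorem eval_rhoP (N : ℕ) (y : Fin N → ℝ) : MvPolynomial.eval y (rhoP N) = rho N y := by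
  induction N with
  | zero => simp [rhoP, rho]
  | succ N ih =>
    rw [rhoP_succ, rho_succ, map_add, map_pow, map_pow, MvPolynomial.eval_X,
      MvPolynomial.eval_rename]
    have h := ih (fun i => y i.succ)
    have h2 : (y ∘ Fin.succ) = fun i => y i.succ := rfl
    rw [h2, h]

theorem one_le_rho (N : ℕ) (y : Fin N → ℝ) : 1 ≤ rho N y := by
  induction N with
  | zero => rw [rho_zero]
  | succ N ih =>
    rw [rho_succ]
    have h := ih (fun i => y i.succ)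
    nlinarith [sq_nonneg (y 0)]

theorem rho_pos (N : ℕ) (y : Fin N → ℝ) : 0 < rho N y := lt_of_lt_of_le one_pos (one_le_rho N y)

/-- `G` has exact order of growth `ρ_N ^ M` -/
def W (N : ℕ) (G : RP N) : Prop :=
  ∃ (c₁ c₂ : ℝ) (M : ℕ), 0 < c₁ ∧ ∀ y : Fin N → ℝ,
    c₁ * rho N y ^ M ≤ MvPolynomial.eval y G ∧ MvPolynomial.eval y G ≤ c₂ * rho N y ^ M

end Pool.Agent.PFL
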