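import Pool.Agent.PFL.Defs
import Pool.Agent.PFI.LV
import Pool.Agent.PFS.INT

/-!
# The heart for units, one colour (MP_b906c2_al, project PFL)
-/

set_option autoImplicit false

namespace Pool.Agent.PFL

open Polynomial Pool.Agent.PDF Pool.Agent.PFI Pool.Agent.PFS

namespace EUaux

/-- the integral closure of the polynomial ring in the algebraic closure -/
abbrev OO (n : ℕ) : Type := integralClosure (RP n) (Om (kk n))

/-- the homogenised polynomial `ρ^K a(X/ρ)` -/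
noncomputable def hom {R : Type} [CommRing R] (f : ℝ →+* R) (ρ : R) (a : ℝ[X]) : R[X] :=
  ∑ j ∈ Finset.range (a.natDegree + 1), C (f (a.coeff j) * ρ ^ (a.natDegree - j)) * X ^ j

theorem eval₂_hm {R S : Type} [CommRing R] [CommRing S] (f : ℝ →+* R) (ρ : R) (a : ℝ[X])
    (g : R →+* S) (z : S) : (hom f ρ a).eval₂ g z =
      ∑ j ∈ Finset.range (a.natDegree + 1), g (f (a.coeff j)) * g ρ ^ (a.natDegree - j) * z ^ j := by
  unfold hom
  rw [eval₂_finsetSum]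
  refine Finset.sum_congr rfl fun j _ => ?_
  rw [eval₂_mul, eval₂_C, eval₂_X_pow, map_mul, map_pow]

theorem hom_val (a : ℝ[X]) (r : ℝ) (hr : r ≠ 0) (ζ : ℂ) :
    ∑ j ∈ Finset.range (a.natDegree + 1), (a.coeff j : ℂ) * (r : ℂ) ^ (a.natDegree - j) * ζ ^ j =
      (r : ℂ) ^ a.natDegree * aeval (ζ / r) a := by
  have hr' : (r : ℂ) ≠ 0 := by exact_mod_cast hr
  rw [aeval_eq_sum_range, Finset.mul_sum]
  refine Finset.sum_congr rfl fun j hj => ?_
  have hj' : j ≤ a.natDegree := Nat.lt_succ_iff.1 (Finset.mem_range.1 hj)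
  have h1 : (r : ℂ) ^ a.natDegree = (r : ℂ) ^ (a.natDegree - j) * (r : ℂ) ^ j := by
    rw [← pow_add, Nat.sub_add_cancel hj']
  rw [h1, div_pow, Algebra.smul_def, Complex.coe_algebraMap]
  field_simp

end EUaux

open EUaux in
theorem EU_of (n : ℕ)
    -- APX / RUN
    (hRUN : ∀ (R δ ε : ℝ), 0 < δ → 0 < ε → ∃ a : ℝ[X], ∀ ζ : ℂ, ‖ζ‖ ≤ R → δ ≤ |ζ.im| →
      ‖(aeval ζ a) ^ 2 + 1‖ ≤ ε)
    (F : (RP n)[X]) (hF : F.Monic) (R δ : ℝ) (hδ : 0 < δ)
    (hloc : ∀ (y : Fin n → ℝ) (ζ : ℂ),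
        F.eval₂ ((algebraMap ℝ ℂ).comp (MvPolynomial.eval y)) ζ = 0 →
        ‖ζ‖ ≤ R * rho n y ∧ δ * rho n y ≤ |ζ.im|)
    (H : (kk n)[X]) (hH : H.Monic) (hHs : Squarefree H) (hHd : 0 < H.natDegree)
    (hdvd : H ∣ F.map (algebraMap (RP n) (kk n)))
    -- INA
    (hINA : ∀ (ξ : Om (kk n) → Om (kk n)), (∀ z ∈ Zs H, ξ z ≠ 0) → ∀ η : ℝ, 0 < η →
      ∃ (τ : (kk n)[X]) (k : ℕ), (∀ z ∈ Zs H, IsIntegral (RP n) (aeval z τ)) ∧
        (∀ (y : Fin n → ℝ) (χ : integralClosure (RP n) (Om (kk n)) →+* ℂ), Spec y χ →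
          ∀ z ∈ Zs H, ∀ h : IsIntegral (RP n) (aeval z τ),
            ‖χ ⟨aeval z τ, h⟩ - (rho n y : ℂ) ^ k‖ ≤ η * rho n y ^ k) ∧
        ∀ S ⊆ Zs H, ∀ S' ⊆ Zs H, TT H ξ τ S = TT H ξ τ S' → S = S')
    -- SIA
    (hSIA : ∃ ε : ℝ, 0 < ε ∧ ∀ (ξ : Om (kk n) → Om (kk n)) (τ P : (kk n)[X]) (K : ℕ),
      (∀ S ⊆ Zs H, ∀ S' ⊆ Zs H, TT H ξ τ S = TT H ξ τ S' → S = S') →
      P.map (algebraMap (kk n) (Om (kk n))) =
        ∏ S ∈ (Zs H).powerset, (X - C (TT H ξ τ S)) →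
      (∀ z ∈ Zs H, IsIntegral (RP n) (aeval z τ * ξ z)) →
      (∀ (y : Fin n → ℝ) (χ : integralClosure (RP n) (Om (kk n)) →+* ℂ), Spec y χ →
        ∀ z ∈ Zs H, ∀ h : IsIntegral (RP n) (aeval z τ * ξ z),
          ‖χ ⟨aeval z τ * ξ z, h⟩ ^ 2 - (rho n y : ℂ) ^ (2 * K)‖ ≤ ε * rho n y ^ (2 * K)) →
      ∃ (c : kk n) (G' : RP n), P.eval c = -algebraMap (RP n) (kk n) G' ∧ W n G') :
    ∃ (P : (kk n)[X]) (Ξ U V : (kk n)[X][X]) (a : Fin 1 → (kk n)[X]) (c : kk n) (G' : RP n),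
      P.Monic ∧ P.eval c = -algebraMap (RP n) (kk n) G' ∧ W n G' ∧
      IsCoprime (∑ i, a i ^ 2) H ∧
      Ξ ^ 2 + (∑ i, a i ^ 2).map C = C P * U + H.map C * V := by
  classical
  have hchar : CharZero (Om (kk n)) :=
    charZero_of_injective_algebraMap (algebraMap (kk n) (Om (kk n))).injective
  obtain ⟨ε, hε, hSI⟩ := hSIA
  set η : ℝ := min (1 / 2) (ε / 7) with hη
  have hη0 : 0 < η := lt_min (by norm_num) (by positivity)
  have hη1 : η ≤ 1 / 2 := min_le_left _ _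
  have hη2 : 7 * η ≤ ε := by
    have := min_le_right (1 / 2) (ε / 7)
    linarith
  obtain ⟨a0, ha0⟩ := hRUN R δ η hδ hη0
  set K0 := a0.natDegree with hK0
  -- the real polynomial homogenised
  let A : (RP n)[X] := hom (MvPolynomial.C : ℝ →+* RP n) (rhoP n) a0
  let Ak : (kk n)[X] := A.map (algebraMap (RP n) (kk n))
  let ν : (kk n)[X] := -Ak ^ 2
  have hνz : ∀ z : Om (kk n), aeval z ν = -(aeval z Ak) ^ 2 := by
    intro z
    simp only [ν, map_neg, map_pow]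
  have hAz : ∀ z : Om (kk n), aeval z Ak = A.eval₂ (algebraMap (RP n) (Om (kk n))) z := by
    intro z
    rw [aeval_def, eval₂_map, ← IsScalarTower.algebraMap_eq]
  -- roots
  have hroot : ∀ z ∈ Zs H, F.eval₂ (algebraMap (RP n) (Om (kk n))) z = 0 := by
    intro z hz
    have h1 := (INTaux.mem_Zs' hH.ne_zero).1 hz
    obtain ⟨Q, hQ⟩ := hdvd
    have h2 : aeval z (F.map (algebraMap (RP n) (kk n))) = 0 := by
      rw [hQ, map_mul, h1, zero_mul]
    rw [aeval_def, eval₂_map, ← IsScalarTower.algebraMap_eq] at h2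
    exact h2
  have hint : ∀ z ∈ Zs H, IsIntegral (RP n) z := fun z hz => ⟨F, hF, hroot z hz⟩
  have hintA : ∀ z ∈ Zs H, IsIntegral (RP n) (aeval z Ak) := by
    intro z hz
    rw [hAz, eval₂_eq_sum_range]
    refine IsIntegral.sum _ fun i _ => ?_
    exact isIntegral_algebraMap.mul ((hint z hz).pow i)
  -- values
  have hval : ∀ (y : Fin n → ℝ) (χ : integralClosure (RP n) (Om (kk n)) →+* ℂ), Spec y χ →
      ∀ z (hz : z ∈ Zs H), ‖χ (-(⟨aeval z Ak, hintA z hz⟩ ^ 2)) -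
        (rho n y : ℂ) ^ (2 * K0)‖ ≤ η * rho n y ^ (2 * K0) := by
    intro y χ hχ z hz
    have hρ := rho_pos n y
    let zO : OO n := ⟨z, hint z hz⟩
    have hcomp : χ.comp (algebraMap (RP n) (OO n)) = (algebraMap ℝ ℂ).comp (MvPolynomial.eval y) := by
      refine RingHom.ext fun p => ?_
      exact hχ p
    have hF0 : F.eval₂ (algebraMap (RP n) (OO n)) zO = 0 := by
      apply Subtype.ext
      have h1 := hroot z hz
      have h2 : ((F.eval₂ (algebraMap (RP n) (OO n)) zO : OO n) : Om (kk n)) =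
          F.eval₂ (algebraMap (RP n) (Om (kk n))) z := by
        have h3 := hom_eval₂ F (algebraMap (RP n) (OO n)) (algebraMap (OO n) (Om (kk n))) zO
        rw [← IsScalarTower.algebraMap_eq] at h3
        exact h3
      rw [h2, h1]
      rfl
    have hζ : F.eval₂ ((algebraMap ℝ ℂ).comp (MvPolynomial.eval y)) (χ zO) = 0 := by
      have h3 := hom_eval₂ F (algebraMap (RP n) (OO n)) χ zO
      rw [hF0, map_zero, hcomp] at h3
      exact h3.symm
    obtain ⟨h4, h5⟩ := hloc y (χ zO) hζ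
    have hAO : (⟨aeval z Ak, hintA z hz⟩ : OO n) = A.eval₂ (algebraMap (RP n) (OO n)) zO := by
      apply Subtype.ext
      have h3 := hom_eval₂ A (algebraMap (RP n) (OO n)) (algebraMap (OO n) (Om (kk n))) zO
      rw [← IsScalarTower.algebraMap_eq] at h3
      show aeval z Ak = _
      rw [hAz]
      exact h3.symm
    have hχA : χ (⟨aeval z Ak, hintA z hz⟩ : OO n) =
        (rho n y : ℂ) ^ K0 * aeval (χ zO / rho n y) a0 := by
      rw [hAO, hom_eval₂, hcomp, eval₂_hm, ← hom_val a0 (rho n y) hρ.ne']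
      refine Finset.sum_congr rfl fun j _ => ?_
      simp only [RingHom.comp_apply, MvPolynomial.eval_C, eval_rhoP]
      rfl
    have h6 := ha0 (χ zO / rho n y) (by
      rw [norm_div, Complex.norm_real, Real.norm_of_nonneg hρ.le, div_le_iff₀ hρ]
      exact h4) (by
      have : (χ zO / rho n y).im = (χ zO).im / rho n y := by
        rw [Complex.div_ofReal_im]
      rw [this, abs_div, abs_of_pos hρ, le_div_iff₀ hρ]
      exact h5)
    rw [map_neg, map_pow, hχA]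
    have h7 : -((rho n y : ℂ) ^ K0 * aeval (χ zO / rho n y) a0) ^ 2 - (rho n y : ℂ) ^ (2 * K0) =
        -((rho n y : ℂ) ^ (2 * K0) * ((aeval (χ zO / rho n y) a0) ^ 2 + 1)) := by
      ring
    rw [h7, norm_neg, norm_mul, norm_pow, Complex.norm_real, Real.norm_of_nonneg hρ.le, mul_comm η]
    exact mul_le_mul_of_nonneg_left h6 (pow_nonneg hρ.le _)
  -- square roots
  have hsq : ∀ z : Om (kk n), ∃ x : Om (kk n), x ^ 2 = aeval z ν := fun z =>
    IsAlgClosed.exists_pow_nat_eq _ (by norm_num)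
  choose ξ hξ using hsq
  have hintξ : ∀ z ∈ Zs H, IsIntegral (RP n) (ξ z) := by
    intro z hz
    apply IsIntegral.of_pow (n := 2) two_pos
    rw [hξ, hνz]
    exact ((hintA z hz).pow 2).neg
  have hξν : ∀ z (hz : z ∈ Zs H), (⟨ξ z, hintξ z hz⟩ : integralClosure (RP n) (Om (kk n))) ^ 2 =
      -(⟨aeval z Ak, hintA z hz⟩ ^ 2) := by
    intro z hz
    apply Subtype.ext
    show ξ z ^ 2 = -(aeval z Ak) ^ 2
    rw [hξ, hνz]
  obtain ⟨χ₀, hχ₀⟩ := EX (Ω := Om (kk n)) (N := n) 0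
  have hξ0 : ∀ z ∈ Zs H, ξ z ≠ 0 := by
    intro z hz h0
    have h := hval 0 χ₀ hχ₀ z hz
    have h1 : (⟨ξ z, hintξ z hz⟩ : integralClosure (RP n) (Om (kk n))) = 0 := Subtype.ext h0
    rw [← hξν z hz, h1, zero_pow two_ne_zero, map_zero, zero_sub, norm_neg, norm_pow,
      Complex.norm_real, Real.norm_of_nonneg (rho_pos n 0).le] at h
    have h2 : 0 < rho n 0 ^ (2 * K0) := pow_pos (rho_pos n 0) _
    nlinarith
  obtain ⟨τ, k, hτ1, hτ2, hinj⟩ := hINA ξ hξ0 η hη0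
  obtain ⟨P, Ξ, U, V, hP, hPp, hid⟩ := INT H hH hHs hHd ν τ ξ (fun z _ => hξ z) hξ0 hinj
  obtain ⟨c, G', hc, hG'⟩ := hSI ξ τ P (k + K0) hinj hPp (fun z hz => (hτ1 z hz).mul (hintξ z hz))
    (by
      intro y χ hχ z hz h
      have h1 : (⟨aeval z τ * ξ z, h⟩ : integralClosure (RP n) (Om (kk n))) =
          ⟨aeval z τ, hτ1 z hz⟩ * ⟨ξ z, hintξ z hz⟩ := rfl
      obtain ⟨α, hα, hα'⟩ := LVaux.rel (rho n y) (rho_pos n y) k η _
        (hτ2 y χ hχ z hz (hτ1 z hz))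
      obtain ⟨β, hβ, hβ'⟩ := LVaux.rel (rho n y) (rho_pos n y) (2 * K0) η _
        (hval y χ hχ z hz)
      rw [h1, map_mul, mul_pow, ← map_pow χ ⟨ξ z, hintξ z hz⟩, hξν z hz, hα', hβ']
      have h3 : ((rho n y : ℂ) ^ k * (1 + α)) ^ 2 * ((rho n y : ℂ) ^ (2 * K0) * (1 + β)) -
          (rho n y : ℂ) ^ (2 * (k + K0)) =
          (rho n y : ℂ) ^ (2 * (k + K0)) * ((1 + α) ^ 2 * (1 + β) - 1) := by
        ring
      rw [h3, norm_mul, norm_pow, Complex.norm_real, Real.norm_of_nonneg (rho_pos n y).le,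
        mul_comm ε]
      exact mul_le_mul_of_nonneg_left
        (LVaux.est η ε hη0.le (by linarith) hη2 α β hα hβ)
        (pow_nonneg (rho_pos n y).le _))
  refine ⟨P, Ξ, U, V, fun _ => Ak, c, G', hP, hc, hG', ?_, ?_⟩
  · refine (Polynomial.isCoprime_iff_aeval_ne_zero_of_isAlgClosed (kk n) (Om (kk n)) _ _).2
      fun z => ?_
    by_cases hz : z ∈ Zs H
    · left
      intro h
      apply hξ0 z hz
      have h1 := hξ z
      rw [hνz] at h1
      simp only [Finset.univ_unique, Finset.sum_const, Finset.card_singleton, one_smul,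
        map_pow] at h
      rw [h, neg_zero] at h1
      exact pow_eq_zero_iff two_ne_zero |>.1 h1
    · right
      intro h
      apply hz
      exact (INTaux.mem_Zs' hH.ne_zero).2 h
  · rw [← hid]
    simp only [ν, Polynomial.map_neg, sub_neg_eq_add, Finset.univ_unique, Finset.sum_const,
      Finset.card_singleton, one_smul]

end Pool.Agent.PFL
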