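import Pool.Agent.PFL.Defs
import Pool.Agent.PFS.ENG2

/-!
# Linear bound, last step: from the units and the base to sums of squares (MP_b906c2_al)
-/

set_option autoImplicit false

namespace Pool.Agent.PFL

open Pool.Agent.PDF Pool.Agent.PFI

theorem W.ne_zero {N : ℕ} {G : RP N} (hG : W N G) : G ≠ 0 := by
  rintro rfl
  obtain ⟨c₁, c₂, M, hc, h⟩ := hG
  have h1 := (h 0).1
  rw [map_zero] at h1
  have h2 : 0 < rho N 0 ^ M := pow_pos (rho_pos N 0) M
  nlinarith [mul_pos hc h2]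

/-- the last step -/
theorem final_of (N q : ℕ)
    (units : ∀ G : RP N, W N G → SS q (algebraMap (RP N) (kk N) G))
    (m : ℕ)
    (base : ∀ (F : kk N), IsSumSq F → F ≠ 0 → ∀ (L : Type) [Field L] (ψ : kk N →+* L) (e : L),
      e ^ 2 = - ψ F → (∀ z : L, ∃ a b : kk N, z = ψ a + e * ψ b) →
      ∃ (θ : kk N →+* kk N) (G : RP N), W N G ∧
        SS (2 ^ m) (-(ψ (θ (algebraMap (RP N) (kk N) G)))))
    (b : ℕ) (hb : q ≤ b * 2 ^ m) (x : kk N) (hx : IsSumSq x) :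
    SS ((b + 1) * 2 ^ m - 1) x := by
  by_cases h0 : x = 0
  · rw [h0]; exact SS_zero_val _
  obtain ⟨L, _, ψ, e, he, hs⟩ := E0 x
  obtain ⟨θ, G, hG, hL⟩ := base x hx h0 L ψ e he hs
  refine Pool.Agent.PFS.ENG2aux.E2b (FR_kk N) ψ x e he hs m b
    (θ (algebraMap (RP N) (kk N) G)) ?_ ?_ ?_
  · rw [Ne, map_eq_zero]
    intro h
    exact hG.ne_zero ((IsFractionRing.injective (RP N) (kk N)) (by rw [h, map_zero]))
  · exact SS_map θ (Pool.Agent.PFS.ENG2aux.SS_mono hb (units G hG))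
  · rw [map_neg]
    exact hL

end Pool.Agent.PFL
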