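import Pool.Agent.PFI.IN

/-!
# Growth of integral elements at the real points, general weight polynomial (MP_b906c2_al)
-/

set_option autoImplicit false

namespace Pool.Agent.PFL

open Polynomial Pool.Agent.PDF Pool.Agent.PFI

namespace GRaux

/-- a polynomial is bounded by a power of the weight -/
theorem growth_poly {N : ℕ} (g : RP N) (hg1 : ∀ y : Fin N → ℝ, 1 ≤ MvPolynomial.eval y g)
    (hgy : ∀ (y : Fin N → ℝ) (i : Fin N), |y i| ≤ MvPolynomial.eval y g) (p : RP N) :
    ∃ (C : ℝ) (d : ℕ), 0 ≤ C ∧ ∀ y : Fin N → ℝ,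
      |MvPolynomial.eval y p| ≤ C * (MvPolynomial.eval y g) ^ d := by
  induction p using MvPolynomial.induction_on with
  | C a => exact ⟨|a|, 0, abs_nonneg _, fun y => by simp⟩
  | add p q hp hq =>
    obtain ⟨C, d, hC, h⟩ := hp
    obtain ⟨C', d', hC', h'⟩ := hq
    refine ⟨C + C', d + d', by positivity, fun y => ?_⟩
    have h1 := hg1 y
    rw [map_add]
    refine (abs_add_le _ _).trans ?_
    rw [add_mul]
    refine add_le_add ((h y).trans ?_) ((h' y).trans ?_)
    · exact mul_le_mul_of_nonneg_left (pow_le_pow_right₀ h1 (Nat.le_add_right _ _)) hC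
    · exact mul_le_mul_of_nonneg_left (pow_le_pow_right₀ h1 (Nat.le_add_left _ _)) hC'
  | mul_X p i hp =>
    obtain ⟨C, d, hC, h⟩ := hp
    refine ⟨C, d + 1, hC, fun y => ?_⟩
    have h1 := hg1 y
    rw [map_mul, MvPolynomial.eval_X, abs_mul, pow_succ, ← mul_assoc]
    exact mul_le_mul (h y) (hgy y i) (abs_nonneg _) (by positivity)

/-- growth bound at all real specialisations -/
def Bdg {N : ℕ} (g : RP N) {L : Type} [Field L] [Algebra (RP N) L]
    (x : integralClosure (RP N) L) : Prop :=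
  ∃ (C : ℝ) (d : ℕ), ∀ (y : Fin N → ℝ) (χ : integralClosure (RP N) L →+* ℂ), Spec y χ →
    ‖χ x‖ ≤ C * (MvPolynomial.eval y g) ^ d

/-- every integral element is bounded by a power of the weight -/
theorem growth_int {N : ℕ} (g : RP N) (hg1 : ∀ y : Fin N → ℝ, 1 ≤ MvPolynomial.eval y g)
    (hgy : ∀ (y : Fin N → ℝ) (i : Fin N), |y i| ≤ MvPolynomial.eval y g) {L : Type} [Field L]
    [Algebra (RP N) L] (x : integralClosure (RP N) L) : Bdg g x := by
  classical
  obtain ⟨p, hp, hpx⟩ := x.2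
  set e := p.natDegree with he
  choose C d hC hCd using fun k : ℕ => growth_poly g hg1 hgy (p.coeff k)
  set A : ℝ := ∑ k ∈ Finset.range e, C k with hAdef
  have hA : 0 ≤ A := Finset.sum_nonneg fun k _ => hC k
  set d' : ℕ := ∑ k ∈ Finset.range e, d k with hd'
  refine ⟨1 + e * A, d', fun y χ hχ => ?_⟩
  have h1 := hg1 y
  set R : ℝ := (MvPolynomial.eval y g) ^ d' with hR
  have hR1 : 1 ≤ R := one_le_pow₀ h1
  have hx : x ^ e + ∑ k : Fin e, algebraMap (RP N) (integralClosure (RP N) L) (p.coeff k) *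
      x ^ (k : ℕ) = 0 := by
    apply Subtype.ext
    push_cast
    have h2 : eval₂ (algebraMap (RP N) L) (x : L) p = 0 := hpx
    rw [hp.as_sum, eval₂_add, eval₂_finsetSum] at h2
    simp only [eval₂_pow, eval₂_X, eval₂_mul, eval₂_C] at h2
    rw [← h2]
    congr 1
    exact Fin.sum_univ_eq_sum_range (fun k => algebraMap (RP N) L (p.coeff k) * (x : L) ^ k) e
  have hz : (χ x) ^ e + ∑ k : Fin e, ((MvPolynomial.eval y (p.coeff k) : ℝ) : ℂ) *
      (χ x) ^ (k : ℕ) = 0 := by
    have h3 := congrArg χ hx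
    rw [map_add, map_pow, map_sum, map_zero] at h3
    rw [← h3]
    congr 1
    refine Finset.sum_congr rfl fun k _ => ?_
    rw [map_mul, map_pow, hχ]
  refine INaux.root_bound e (fun k => ((MvPolynomial.eval y (p.coeff k) : ℝ) : ℂ)) A R hA
    (by linarith) (χ x) hz (fun k => ?_)
  rw [Complex.norm_real, Real.norm_eq_abs]
  have hk : (k : ℕ) ∈ Finset.range e := Finset.mem_range.2 k.2
  refine (hCd k y).trans ?_
  refine mul_le_mul (Finset.single_le_sum (f := C) (fun k _ => hC k) hk) ?_ (by positivity) hA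
  have h4 : (MvPolynomial.eval y g) ^ d k ≤ R :=
    pow_le_pow_right₀ h1 (Finset.single_le_sum (f := d) (fun _ _ => Nat.zero_le _) hk)
  refine h4.trans ?_
  have h5 : 1 ≤ e - (k : ℕ) := by have := k.2; omega
  calc R = R ^ 1 := (pow_one R).symm
    _ ≤ R ^ (e - (k : ℕ)) := pow_le_pow_right₀ hR1 h5

/-- a common bound for a finite family -/
theorem commong {N : ℕ} (g : RP N) (hg1 : ∀ y : Fin N → ℝ, 1 ≤ MvPolynomial.eval y g)
    {L : Type} [Field L] [Algebra (RP N) L] {n : ℕ}
    (m : Fin n → integralClosure (RP N) L) (hm : ∀ j, Bdg g (m j)) :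
    ∃ (k : ℕ) (A : ℝ), 0 ≤ A ∧ ∀ (y : Fin N → ℝ) (χ : integralClosure (RP N) L →+* ℂ), Spec y χ →
      ∑ j, ‖χ (m j)‖ ≤ A * (MvPolynomial.eval y g) ^ k := by
  choose c d hcd using hm
  refine ⟨∑ j, d j, ∑ j, |c j|, Finset.sum_nonneg fun j _ => abs_nonneg _, fun y χ hχ => ?_⟩
  rw [Finset.sum_mul]
  refine Finset.sum_le_sum fun j _ => (hcd j y χ hχ).trans ?_
  have hn := hg1 y
  have h1 : (MvPolynomial.eval y g) ^ d j ≤ (MvPolynomial.eval y g) ^ ∑ j, d j :=
    pow_le_pow_right₀ hn (Finset.single_le_sum (fun _ _ => Nat.zero_le _) (Finset.mem_univ j))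
  calc c j * (MvPolynomial.eval y g) ^ d j ≤ |c j| * (MvPolynomial.eval y g) ^ d j :=
        mul_le_mul_of_nonneg_right (le_abs_self _) (by positivity)
    _ ≤ |c j| * (MvPolynomial.eval y g) ^ ∑ j, d j := mul_le_mul_of_nonneg_left h1 (abs_nonneg _)

/-- a spanning family of integral elements -/
theorem familyg {N : ℕ} {L : Type} [Field L] [Algebra (kk N) L] [Algebra (RP N) L]
    [IsScalarTower (RP N) (kk N) L] [FiniteDimensional (kk N) L] :
    ∃ (n : ℕ) (m : Fin n → integralClosure (RP N) L),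
      Submodule.span (kk N) (Set.range fun j => (m j : L)) = ⊤ := by
  classical
  have hinj : Function.Injective (algebraMap (RP N) (kk N)) := IsFractionRing.injective _ _
  let b := Module.finBasis (kk N) L
  have halg : Algebra.IsAlgebraic (RP N) L := by
    have h1 : Algebra.IsAlgebraic (RP N) (kk N) :=
      IsLocalization.isAlgebraic _ (nonZeroDivisors _)
    have h2 : Algebra.IsAlgebraic (kk N) L := Algebra.IsAlgebraic.of_finite _ _
    exact Algebra.IsAlgebraic.trans (RP N) (kk N) L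
  obtain ⟨r, hr, hint⟩ := Algebra.IsAlgebraic.exists_integral_multiples (RP N)
    (Finset.univ.image b)
  refine ⟨_, fun j => ⟨r • b j, hint _ (Finset.mem_image_of_mem _ (Finset.mem_univ j))⟩, ?_⟩
  rw [eq_top_iff, ← b.span_eq, Submodule.span_le]
  rintro _ ⟨j, rfl⟩
  have h1 : r • b j ∈ Submodule.span (kk N) (Set.range fun j => r • b j) :=
    Submodule.subset_span ⟨j, rfl⟩
  have h2 : b j = (algebraMap (RP N) (kk N) r)⁻¹ • (r • b j) := by
    rw [← IsScalarTower.algebraMap_smul (kk N) r (b j), smul_smul, inv_mul_cancel₀, one_smul]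
    intro h0
    exact hr (hinj (by rw [h0, map_zero]))
  rw [SetLike.mem_coe, h2]
  exact Submodule.smul_mem _ _ h1

end GRaux

end Pool.Agent.PFL
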