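import Pool.Agent.PFL.GR
import Pool.Agent.PFS.Defs

/-!
# Row INA: generic weights over the roots of a polynomial, real points (MP_b906c2_al)
-/

set_option autoImplicit false

namespace Pool.Agent.PFL

open Polynomial Pool.Agent.PDF Pool.Agent.PFI Pool.Agent.PFS

namespace INAaux

/-- the weights -/
noncomputable def tg {n : ℕ} (g : RP n) (k D : ℕ) (t : ℝ) : (kk n)[X] :=
  C (algebraMap (RP n) (kk n) (g ^ k)) +
    ∑ j ∈ Finset.range D, C (algebraMap (RP n) (kk n) (MvPolynomial.C (t ^ (j + 1)))) * X ^ j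

theorem aeval_tg {n : ℕ} (g : RP n) (k D : ℕ) (t : ℝ) (z : Om (kk n)) :
    aeval z (tg g k D t) = algebraMap (RP n) (Om (kk n)) (g ^ k) +
      ∑ j ∈ Finset.range D, algebraMap (RP n) (Om (kk n)) (MvPolynomial.C (t ^ (j + 1))) *
        z ^ j := by
  unfold tg
  rw [map_add, map_sum, aeval_C, ← IsScalarTower.algebraMap_apply (RP n) (kk n) (Om (kk n))]
  congr 1
  refine Finset.sum_congr rfl fun j _ => ?_
  rw [map_mul, aeval_C, aeval_X_pow,
    ← IsScalarTower.algebraMap_apply (RP n) (kk n) (Om (kk n))]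

open Classical in
/-- the difference of two signed sums as a polynomial in the parameter -/
noncomputable def Qg {n : ℕ} (g : RP n) (k : ℕ) (F : (kk n)[X]) (ξ : Om (kk n) → Om (kk n))
    (S S' : Finset (Om (kk n))) : (Om (kk n))[X] :=
  C (∑ z ∈ Zs F, ((if z ∈ S then 1 else -1) - (if z ∈ S' then 1 else -1)) * ξ z *
      algebraMap (RP n) (Om (kk n)) (g ^ k)) +
    ∑ j ∈ Finset.range F.natDegree, C (∑ z ∈ Zs F,
      ((if z ∈ S then 1 else -1) - (if z ∈ S' then 1 else -1)) * ξ z * z ^ j) * X ^ (j + 1)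

theorem Qg_eval {n : ℕ} (g : RP n) (k : ℕ) (F : (kk n)[X]) (ξ : Om (kk n) → Om (kk n))
    (S S' : Finset (Om (kk n))) (t : ℝ) :
    (Qg g k F ξ S S').eval (algebraMap (RP n) (Om (kk n)) (MvPolynomial.C t)) =
      TT F ξ (tg g k F.natDegree t) S - TT F ξ (tg g k F.natDegree t) S' := by
  classical
  unfold Qg TT
  rw [eval_add, eval_C, eval_finsetSum, ← Finset.sum_sub_distrib]
  simp only [eval_mul, eval_C, eval_pow, eval_X, Finset.sum_mul]
  rw [Finset.sum_comm, ← Finset.sum_add_distrib]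
  refine Finset.sum_congr rfl fun z _ => ?_
  rw [aeval_tg, add_mul, mul_add, mul_add, Finset.sum_mul, Finset.mul_sum, Finset.mul_sum]
  have h : ∀ j : ℕ, algebraMap (RP n) (Om (kk n)) (MvPolynomial.C (t ^ (j + 1))) =
      algebraMap (RP n) (Om (kk n)) (MvPolynomial.C t) ^ (j + 1) := by
    intro j
    rw [← map_pow, ← map_pow]
  rw [add_sub_add_comm, ← Finset.sum_sub_distrib]
  congr 1
  · ring
  · refine Finset.sum_congr rfl fun j _ => ?_
    rw [h j]
    ring

theorem Qg_ne {n : ℕ} (g : RP n) (k : ℕ) (F : (kk n)[X]) (ξ : Om (kk n) → Om (kk n))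
    (hξ : ∀ z ∈ Zs F, ξ z ≠ 0) (S S' : Finset (Om (kk n))) (hS : S ⊆ Zs F) (hS' : S' ⊆ Zs F)
    (hne : S ≠ S') : Qg g k F ξ S S' ≠ 0 := by
  classical
  intro h0
  apply hne
  set e : Om (kk n) → Om (kk n) := fun z =>
    ((if z ∈ S then 1 else -1) - (if z ∈ S' then 1 else -1)) * ξ z with he
  have h1 : ∀ a < F.natDegree, ∑ z ∈ Zs F, e z * z ^ a = 0 := by
    intro a ha
    have h2 : (Qg g k F ξ S S').coeff (a + 1) = 0 := by rw [h0, coeff_zero]
    unfold Qg at h2
    rw [coeff_add, coeff_C_succ, zero_add, finsetSum_coeff] at h2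
    simp only [coeff_C_mul, coeff_X_pow] at h2
    rw [Finset.sum_eq_single a] at h2
    · rw [if_pos rfl, mul_one] at h2
      exact h2
    · intro b _ hb
      rw [if_neg (by omega), mul_zero]
    · intro ha'
      exact absurd (Finset.mem_range.2 ha) ha'
  have hcard : (Zs F).card ≤ F.natDegree := by
    unfold Zs
    refine (Multiset.toFinset_card_le _).trans ?_
    refine (card_roots' _).trans ?_
    exact natDegree_map_le
  have h2 : ∀ R : (Om (kk n))[X], R.natDegree < F.natDegree →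
      ∑ z ∈ Zs F, e z * R.eval z = 0 := by
    intro R hR
    have h3 : ∀ z, R.eval z = ∑ a ∈ Finset.range F.natDegree, R.coeff a * z ^ a :=
      fun z => eval_eq_sum_range' hR _
    simp only [h3, Finset.mul_sum]
    rw [Finset.sum_comm]
    refine Finset.sum_eq_zero fun a ha => ?_
    have h4 := h1 a (Finset.mem_range.1 ha)
    calc ∑ z ∈ Zs F, e z * (R.coeff a * z ^ a)
        = R.coeff a * ∑ z ∈ Zs F, e z * z ^ a := by
          rw [Finset.mul_sum]
          exact Finset.sum_congr rfl fun z _ => by ring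
      _ = 0 := by rw [h4, mul_zero]
  have h3 : ∀ z₀ ∈ Zs F, e z₀ = 0 := by
    intro z₀ hz₀
    set R : (Om (kk n))[X] := ∏ y ∈ (Zs F).erase z₀, (X - C y) with hR
    have h4 : R.natDegree < F.natDegree := by
      rw [hR, natDegree_finsetProd_X_sub_C_eq_card]
      exact lt_of_lt_of_le (Finset.card_erase_lt_of_mem hz₀) hcard
    have h5 := h2 R h4
    rw [Finset.sum_eq_single_of_mem z₀ hz₀] at h5
    · rcases mul_eq_zero.1 h5 with h | h
      · exact h
      · exfalso
        rw [hR, eval_prod, Finset.prod_eq_zero_iff] at h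
        obtain ⟨y, hy, hy0⟩ := h
        rw [eval_sub, eval_X, eval_C, sub_eq_zero] at hy0
        exact (Finset.ne_of_mem_erase hy) hy0.symm
    · intro z hz hzz
      have : R.eval z = 0 := by
        rw [hR, eval_prod]
        refine Finset.prod_eq_zero (Finset.mem_erase.2 ⟨hzz, hz⟩) ?_
        rw [eval_sub, eval_X, eval_C, sub_self]
      rw [this, mul_zero]
  have hchar : CharZero (Om (kk n)) :=
    charZero_of_injective_algebraMap (algebraMap (kk n) (Om (kk n))).injective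
  have h4 : ∀ z ∈ Zs F, (z ∈ S ↔ z ∈ S') := by
    intro z hz
    have h5 := h3 z hz
    rw [he] at h5
    rcases mul_eq_zero.1 h5 with h | h
    · by_cases a1 : z ∈ S <;> by_cases a2 : z ∈ S'
      · simp [a1, a2]
      · rw [if_pos a1, if_neg a2] at h
        norm_num at h
      · rw [if_neg a1, if_pos a2] at h
        norm_num at h
      · simp [a1, a2]
    · exact absurd h (hξ z hz)
  ext z
  constructor
  · intro h
    exact (h4 z (hS h)).1 h
  · intro h
    exact (h4 z (hS' h)).2 h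

end INAaux

open INAaux GRaux in
theorem INA {n : ℕ} (g : RP n) (hg1 : ∀ y : Fin n → ℝ, 1 ≤ MvPolynomial.eval y g)
    (hgy : ∀ (y : Fin n → ℝ) (i : Fin n), |y i| ≤ MvPolynomial.eval y g) (F : (kk n)[X])
    (hz : ∀ z ∈ Zs F, IsIntegral (RP n) z)
    (ξ : Om (kk n) → Om (kk n)) (hξ : ∀ z ∈ Zs F, ξ z ≠ 0) (η : ℝ) (hη : 0 < η) :
    ∃ (τ : (kk n)[X]) (k : ℕ), (∀ z ∈ Zs F, IsIntegral (RP n) (aeval z τ)) ∧
      (∀ (y : Fin n → ℝ) (χ : integralClosure (RP n) (Om (kk n)) →+* ℂ), Spec y χ →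
        ∀ z ∈ Zs F, ∀ h : IsIntegral (RP n) (aeval z τ),
          ‖χ ⟨aeval z τ, h⟩ - ((MvPolynomial.eval y g : ℝ) : ℂ) ^ k‖ ≤
            η * (MvPolynomial.eval y g) ^ k) ∧
      ∀ S ⊆ Zs F, ∀ S' ⊆ Zs F, TT F ξ τ S = TT F ξ τ S' → S = S' := by
  classical
  set D := F.natDegree with hD
  -- the family of the powers of the roots
  let en := (Zs F).attach.equivFin
  have hpw : ∀ (z : Om (kk n)), z ∈ Zs F → ∀ j : ℕ, IsIntegral (RP n) (z ^ j) :=
    fun z h j => (hz z h).pow j
  have hfam : ∀ j : ℕ, ∃ (k : ℕ) (A : ℝ), 0 ≤ A ∧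
      ∀ (y : Fin n → ℝ) (χ : integralClosure (RP n) (Om (kk n)) →+* ℂ), Spec y χ →
      ∀ (z : Om (kk n)) (h : z ∈ Zs F), ‖χ ⟨z ^ j, hpw z h j⟩‖ ≤ A * (MvPolynomial.eval y g) ^ k := by
    intro j
    obtain ⟨k, A, hA, h⟩ := commong g hg1
      (fun i : Fin _ => (⟨((en.symm i).1 : Om (kk n)) ^ j, hpw _ (en.symm i).1.2 j⟩ :
        integralClosure (RP n) (Om (kk n)))) fun i => growth_int g hg1 hgy _
    refine ⟨k, A, hA, fun y χ hχ z hzz => ?_⟩
    refine le_trans ?_ (h y χ hχ)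
    have h1 := Finset.single_le_sum (f := fun i : Fin _ =>
      ‖χ (⟨((en.symm i).1 : Om (kk n)) ^ j, hpw _ (en.symm i).1.2 j⟩ :
        integralClosure (RP n) (Om (kk n)))‖) (fun i _ => norm_nonneg _)
      (Finset.mem_univ (en ⟨⟨z, hzz⟩, Finset.mem_attach _ _⟩))
    refine le_trans (le_of_eq ?_) h1
    congr 2
    simp
  choose k' A' hA' hfam using hfam
  set k : ℕ := ∑ j ∈ Finset.range D, k' j with hk
  set A : ℝ := ∑ j ∈ Finset.range D, A' j with hAdef
  have hA : 0 ≤ A := Finset.sum_nonneg fun j _ => hA' j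
  have hbd : ∀ (y : Fin n → ℝ) (χ : integralClosure (RP n) (Om (kk n)) →+* ℂ), Spec y χ →
      ∀ (z : Om (kk n)) (h : z ∈ Zs F), ∑ j ∈ Finset.range D, ‖χ ⟨z ^ j, hpw z h j⟩‖ ≤
        A * (MvPolynomial.eval y g) ^ k := by
    intro y χ hχ z hzz
    rw [hAdef, Finset.sum_mul]
    refine Finset.sum_le_sum fun j hj => (hfam j y χ hχ z hzz).trans ?_
    refine mul_le_mul_of_nonneg_left ?_ (hA' j)
    exact pow_le_pow_right₀ (hg1 y)
      (Finset.single_le_sum (f := k') (fun _ _ => Nat.zero_le _) hj)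
  -- the choice of the parameter
  set δ : ℝ := min 1 (η / (A + 1)) with hδdef
  have hδ0 : 0 < δ := by positivity
  have hδ1 : δ ≤ 1 := min_le_left _ _
  have hδ : δ * A ≤ η := by
    calc min 1 (η / (A + 1)) * A ≤ η / (A + 1) * A :=
          mul_le_mul_of_nonneg_right (min_le_right _ _) hA
      _ ≤ η := by
          rw [div_mul_eq_mul_div, div_le_iff₀ (by positivity)]
          nlinarith
  set prs : Finset (Finset (Om (kk n)) × Finset (Om (kk n))) :=
    ((Zs F).powerset ×ˢ (Zs F).powerset).filter (fun q => q.1 ≠ q.2) with hprs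
  set G : (Om (kk n))[X] := ∏ q ∈ prs, Qg g k F ξ q.1 q.2 with hG
  have hG0 : G ≠ 0 := by
    rw [hG, Finset.prod_ne_zero_iff]
    intro q hq
    rw [hprs, Finset.mem_filter, Finset.mem_product, Finset.mem_powerset,
      Finset.mem_powerset] at hq
    exact Qg_ne g k F ξ hξ q.1 q.2 hq.1.1 hq.1.2 hq.2
  have hinjR : Function.Injective (fun t : ℝ =>
      algebraMap (RP n) (Om (kk n)) (MvPolynomial.C t)) := by
    have h1 : Function.Injective (algebraMap (RP n) (Om (kk n))) := by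
      rw [IsScalarTower.algebraMap_eq (RP n) (kk n) (Om (kk n))]
      exact (algebraMap (kk n) (Om (kk n))).injective.comp (IsFractionRing.injective (RP n) (kk n))
    exact h1.comp (MvPolynomial.C_injective _ _)
  obtain ⟨t, ht, ht'⟩ : ∃ t ∈ Set.Ioo (0 : ℝ) δ,
      G.eval (algebraMap (RP n) (Om (kk n)) (MvPolynomial.C t)) ≠ 0 := by
    by_contra hcon
    push Not at hcon
    apply hG0
    apply eq_zero_of_infinite_isRoot
    have h1 : ((fun t : ℝ => algebraMap (RP n) (Om (kk n)) (MvPolynomial.C t)) ''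
        Set.Ioo (0 : ℝ) δ).Infinite := (Set.Ioo_infinite hδ0).image hinjR.injOn
    refine h1.mono ?_
    rintro _ ⟨t, ht, rfl⟩
    exact hcon t ht
  refine ⟨tg g k D t, k, ?_, ?_, ?_⟩
  · intro z hzz
    rw [aeval_tg]
    refine isIntegral_algebraMap.add (IsIntegral.sum _ fun j _ => ?_)
    exact isIntegral_algebraMap.mul (hpw z hzz j)
  · intro y χ hχ z hzz h
    have h1 : (⟨aeval z (tg g k D t), h⟩ : integralClosure (RP n) (Om (kk n))) =
        algebraMap (RP n) (integralClosure (RP n) (Om (kk n))) (g ^ k) +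
          ∑ j ∈ Finset.range D, algebraMap (RP n) (integralClosure (RP n) (Om (kk n)))
            (MvPolynomial.C (t ^ (j + 1))) * ⟨z ^ j, hpw z hzz j⟩ := by
      apply Subtype.ext
      push_cast
      rw [← map_pow]
      exact aeval_tg g k D t z
    rw [h1, map_add, hχ, map_pow, Complex.ofReal_pow, add_sub_cancel_left, map_sum]
    calc ‖∑ j ∈ Finset.range D, χ (algebraMap (RP n) (integralClosure (RP n) (Om (kk n)))
            (MvPolynomial.C (t ^ (j + 1))) * ⟨z ^ j, hpw z hzz j⟩)‖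
        ≤ ∑ j ∈ Finset.range D, ‖χ (algebraMap (RP n) (integralClosure (RP n) (Om (kk n)))
            (MvPolynomial.C (t ^ (j + 1))) * ⟨z ^ j, hpw z hzz j⟩)‖ := norm_sum_le _ _
      _ ≤ ∑ j ∈ Finset.range D, δ * ‖χ ⟨z ^ j, hpw z hzz j⟩‖ := by
          refine Finset.sum_le_sum fun j _ => ?_
          rw [map_mul, hχ, MvPolynomial.eval_C, norm_mul, Complex.norm_real, Real.norm_eq_abs,
            abs_of_nonneg (by have := ht.1; positivity)]
          refine mul_le_mul_of_nonneg_right ?_ (norm_nonneg _)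
          calc t ^ (j + 1) = t ^ j * t := pow_succ _ _
            _ ≤ 1 * t := mul_le_mul_of_nonneg_right
                (pow_le_one₀ ht.1.le (ht.2.le.trans hδ1)) ht.1.le
            _ ≤ δ := by rw [one_mul]; exact ht.2.le
      _ = δ * ∑ j ∈ Finset.range D, ‖χ ⟨z ^ j, hpw z hzz j⟩‖ := by rw [Finset.mul_sum]
      _ ≤ δ * (A * (MvPolynomial.eval y g) ^ k) :=
          mul_le_mul_of_nonneg_left (hbd y χ hχ z hzz) hδ0.le
      _ = (δ * A) * (MvPolynomial.eval y g) ^ k := by ring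
      _ ≤ η * (MvPolynomial.eval y g) ^ k := by
          have h2 := hg1 y
          exact mul_le_mul_of_nonneg_right hδ (by positivity)
  · intro S hS S' hS' hTT
    by_contra hne
    apply ht'
    rw [hG, eval_prod]
    refine Finset.prod_eq_zero (i := (S, S')) ?_ ?_
    · rw [hprs, Finset.mem_filter, Finset.mem_product, Finset.mem_powerset, Finset.mem_powerset]
      exact ⟨⟨hS, hS'⟩, hne⟩
    · rw [Qg_eval]
      show TT F ξ (tg g k D t) S - TT F ξ (tg g k D t) S' = 0
      rw [hTT, sub_self]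

end Pool.Agent.PFL
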