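import Pool.Agent.PFL.GR

/-!
# Row INg: the row `IN` with a general weight polynomial (MP_b906c2_al)
-/

set_option autoImplicit false

namespace Pool.Agent.PFL

open Polynomial Pool.Agent.PDF Pool.Agent.PFI

open GRaux in
theorem INg {N : ℕ} {L Ω : Type} [Field L] [Algebra (kk N) L] [Algebra (RP N) L]
    [IsScalarTower (RP N) (kk N) L] [FiniteDimensional (kk N) L] [Field Ω] [Algebra (kk N) Ω]
    [IsAlgClosure (kk N) Ω] [Fintype (L →ₐ[kk N] Ω)] (g : RP N)
    (hg1 : ∀ y : Fin N → ℝ, 1 ≤ MvPolynomial.eval y g)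
    (hgy : ∀ (y : Fin N → ℝ) (i : Fin N), |y i| ≤ MvPolynomial.eval y g) (a : L) (η : ℝ)
    (hη : 0 < η) :
    ∃ (μ : integralClosure (RP N) L) (k : ℕ),
      (∀ (y : Fin N → ℝ) (χ : integralClosure (RP N) L →+* ℂ), Spec y χ →
        ‖χ μ - ((MvPolynomial.eval y g : ℝ) : ℂ) ^ k‖ ≤ η * (MvPolynomial.eval y g) ^ k) ∧
      ∀ b b' : (L →ₐ[kk N] Ω) → Ω, (∀ σ, b σ ^ 2 = σ ((μ : L) ^ 2 * a)) →
        (∀ σ, b' σ ^ 2 = σ ((μ : L) ^ 2 * a)) → ∑ σ, b σ = ∑ σ, b' σ → b = b' := by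
  classical
  obtain ⟨n, m, hspan⟩ := familyg (N := N) (L := L)
  obtain ⟨k, A, hA, hbd⟩ := commong g hg1 m fun j => growth_int g hg1 hgy (m j)
  have : IsAlgClosed Ω := IsAlgClosure.isAlgClosed (kk N)
  have hroot : ∀ σ : L →ₐ[kk N] Ω, ∃ ρ : Ω, ρ ^ 2 = σ a := fun σ => by
    obtain ⟨z, hz⟩ := IsAlgClosed.exists_pow_nat_eq (σ a) (n := 2) (by norm_num)
    exact ⟨z, hz⟩
  choose ρ hρ using hroot
  -- sign patterns
  let cc : (((L →ₐ[kk N] Ω) → ℤˣ) × ((L →ₐ[kk N] Ω) → ℤˣ)) → (L →ₐ[kk N] Ω) → Ω :=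
    fun s σ => (((s.1 σ : ℤ) : Ω) - ((s.2 σ : ℤ) : Ω)) * ρ σ
  let r0 : L := algebraMap (RP N) L g ^ k
  let pp : (((L →ₐ[kk N] Ω) → ℤˣ) × ((L →ₐ[kk N] Ω) → ℤˣ)) → Polynomial Ω := fun s =>
    Polynomial.C (∑ σ, cc s σ * σ r0) +
      ∑ j : Fin n, Polynomial.C (∑ σ, cc s σ * σ (m j : L)) * X ^ ((j : ℕ) + 1)
  have hpp : ∀ s, cc s ≠ 0 → pp s ≠ 0 := by
    intro s hs h0
    apply hs
    refine INaux.dedekind (fun j => (m j : L)) hspan (cc s) fun j => ?_
    have := congrArg (fun q => Polynomial.coeff q ((j : ℕ) + 1)) h0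
    simp only [pp, coeff_add, coeff_C_succ, finsetSum_coeff, coeff_C_mul, coeff_X_pow,
      coeff_zero, zero_add] at this
    rw [Finset.sum_eq_single j] at this
    · simpa using this
    · intro j' _ hj'
      have : (j : ℕ) + 1 ≠ (j' : ℕ) + 1 := fun h => hj' (Fin.ext (by omega))
      rw [if_neg this, mul_zero]
    · simp
  let P : Polynomial Ω := ∏ s ∈ Finset.univ.filter (fun s => cc s ≠ 0), pp s
  have hP : P ≠ 0 := Finset.prod_ne_zero_iff.mpr fun s hs => hpp s (Finset.mem_filter.mp hs).2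
  let rho : ℝ →+* Ω := (algebraMap (kk N) Ω).comp (algebraMap ℝ (kk N))
  obtain ⟨δ, hδ0, hδ1, hδ⟩ : ∃ δ : ℝ, 0 < δ ∧ δ ≤ 1 ∧ δ * A ≤ η := by
    refine ⟨min 1 (η / (A + 1)), by positivity, min_le_left _ _, ?_⟩
    calc min 1 (η / (A + 1)) * A ≤ η / (A + 1) * A :=
          mul_le_mul_of_nonneg_right (min_le_right _ _) hA
      _ ≤ η := by
          rw [div_mul_eq_mul_div, div_le_iff₀ (by positivity)]
          nlinarith
  obtain ⟨t, ht, htP⟩ : ∃ t ∈ Set.Ioo (0 : ℝ) δ, P.eval (rho t) ≠ 0 := by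
    by_contra hcon
    push Not at hcon
    have hinf : (rho '' Set.Ioo (0 : ℝ) δ).Infinite :=
      (Set.Ioo_infinite hδ0).image rho.injective.injOn
    apply hP
    refine Polynomial.eq_zero_of_infinite_isRoot P (hinf.mono ?_)
    rintro _ ⟨t, ht, rfl⟩
    exact hcon t ht
  let lam : Fin n → integralClosure (RP N) L := fun j =>
    algebraMap (RP N) (integralClosure (RP N) L) (MvPolynomial.C (t ^ ((j : ℕ) + 1)))
  let μ : integralClosure (RP N) L :=
    algebraMap (RP N) (integralClosure (RP N) L) g ^ k + ∑ j, lam j * m j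
  have hμL : (μ : L) = r0 + ∑ j : Fin n, algebraMap (RP N) L (MvPolynomial.C (t ^ ((j : ℕ) + 1))) *
      (m j : L) := by
    simp only [μ, lam, r0]
    push_cast
    rfl
  refine ⟨μ, k, fun y χ hχ => ?_, fun b b' hb hb' hsum => ?_⟩
  · have h1 : χ μ - ((MvPolynomial.eval y g : ℝ) : ℂ) ^ k =
        ∑ j : Fin n, ((t ^ ((j : ℕ) + 1) : ℝ) : ℂ) * χ (m j) := by
      simp only [μ, lam]
      rw [map_add, map_pow, hχ, add_sub_cancel_left, map_sum]
      refine Finset.sum_congr rfl fun j _ => ?_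
      rw [map_mul, hχ, MvPolynomial.eval_C]
    rw [h1]
    have hgy1 := hg1 y
    calc ‖∑ j : Fin n, ((t ^ ((j : ℕ) + 1) : ℝ) : ℂ) * χ (m j)‖
        ≤ ∑ j : Fin n, ‖((t ^ ((j : ℕ) + 1) : ℝ) : ℂ) * χ (m j)‖ := norm_sum_le _ _
      _ ≤ ∑ j, δ * ‖χ (m j)‖ := by
          refine Finset.sum_le_sum fun j _ => ?_
          rw [norm_mul, Complex.norm_real, Real.norm_eq_abs, abs_of_nonneg (by have := ht.1; positivity)]
          refine mul_le_mul_of_nonneg_right ?_ (norm_nonneg _)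
          calc t ^ ((j : ℕ) + 1) = t ^ (j : ℕ) * t := pow_succ _ _
            _ ≤ 1 * t := mul_le_mul_of_nonneg_right
                (pow_le_one₀ ht.1.le (ht.2.le.trans hδ1)) ht.1.le
            _ ≤ δ := by rw [one_mul]; exact ht.2.le
      _ = δ * ∑ j, ‖χ (m j)‖ := by rw [Finset.mul_sum]
      _ ≤ δ * (A * (MvPolynomial.eval y g) ^ k) := mul_le_mul_of_nonneg_left (hbd y χ hχ) hδ0.le
      _ = (δ * A) * (MvPolynomial.eval y g) ^ k := by ring
      _ ≤ η * (MvPolynomial.eval y g) ^ k := mul_le_mul_of_nonneg_right hδ (by positivity)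
  · have hsign : ∀ (b : (L →ₐ[kk N] Ω) → Ω), (∀ σ, b σ ^ 2 = σ ((μ : L) ^ 2 * a)) →
        ∃ s : (L →ₐ[kk N] Ω) → ℤˣ, ∀ σ, b σ = ((s σ : ℤ) : Ω) * ρ σ * σ (μ : L) := by
      intro b hb
      have : ∀ σ, ∃ s : ℤˣ, b σ = ((s : ℤ) : Ω) * ρ σ * σ (μ : L) := by
        intro σ
        have h2 : b σ ^ 2 = (ρ σ * σ (μ : L)) ^ 2 := by
          rw [hb σ, mul_pow, hρ, map_mul, map_pow]; ring
        rcases sq_eq_sq_iff_eq_or_eq_neg.mp h2 with h | h
        · exact ⟨1, by rw [h]; simp⟩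
        · exact ⟨-1, by rw [h]; simp⟩
      choose s hs using this
      exact ⟨s, hs⟩
    obtain ⟨s, hs⟩ := hsign b hb
    obtain ⟨s', hs'⟩ := hsign b' hb'
    have hdiff : ∀ σ, b σ - b' σ = cc (s, s') σ * σ (μ : L) := fun σ => by
      rw [hs, hs']; simp only [cc]; ring
    have hzero : ∑ σ, cc (s, s') σ * σ (μ : L) = 0 := by
      simp_rw [← hdiff]
      rw [Finset.sum_sub_distrib, hsum, sub_self]
    by_cases hc0 : cc (s, s') = 0
    · funext σ
      have := hdiff σ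
      rw [hc0] at this
      simp only [Pi.zero_apply, zero_mul] at this
      exact sub_eq_zero.mp this
    · exfalso
      have hne : (pp (s, s')).eval (rho t) ≠ 0 := by
        have h3 := htP
        simp only [P, eval_prod] at h3
        rw [Finset.prod_ne_zero_iff] at h3
        exact h3 _ (Finset.mem_filter.mpr ⟨Finset.mem_univ _, hc0⟩)
      apply hne
      rw [← hzero]
      have hreal : ∀ (σ : L →ₐ[kk N] Ω) (u : ℝ),
          σ (algebraMap (RP N) L (MvPolynomial.C u)) = rho u := by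
        intro σ u
        rw [IsScalarTower.algebraMap_apply (RP N) (kk N) L, AlgHom.commutes]
        simp only [rho, RingHom.comp_apply]
        congr 1
      simp only [pp, eval_add, eval_C, eval_finsetSum, eval_mul, eval_pow, eval_X]
      simp_rw [hμL, map_add, map_sum, map_mul, hreal, map_pow, mul_add, Finset.sum_add_distrib,
        Finset.mul_sum]
      congr 1
      rw [Finset.sum_comm]
      refine Finset.sum_congr rfl fun σ _ => ?_
      rw [Finset.sum_mul]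
      refine Finset.sum_congr rfl fun j _ => ?_
      ring

end Pool.Agent.PFL
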