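import Pool.Agent.PFL.SIc
import Pool.Agent.PFS.Defs

/-!
# Row SIA: sign and size of `P(c)` for the signed sums over the roots of `F` (MP_b906c2_al)
-/

set_option autoImplicit false

namespace Pool.Agent.PFL

open Polynomial Pool.Agent.PDF Pool.Agent.PFI Pool.Agent.PFS

theorem SIA {n : ℕ} (F : (kk n)[X]) (hne : (Zs F).Nonempty) :
    ∃ ε : ℝ, 0 < ε ∧ ∀ (g : RP n), (∀ y : Fin n → ℝ, 1 ≤ MvPolynomial.eval y g) → ∀ (K : ℕ)
      (τ : (kk n)[X]) (ξ : Om (kk n) → Om (kk n)) (P : (kk n)[X]),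
      (hint : ∀ z ∈ Zs F, IsIntegral (RP n) (aeval z τ * ξ z)) →
      P.map (algebraMap (kk n) (Om (kk n))) = ∏ S ∈ (Zs F).powerset, (X - C (TT F ξ τ S)) →
      (∀ (y : Fin n → ℝ) (χ : integralClosure (RP n) (Om (kk n)) →+* ℂ), Spec y χ →
        ∀ (z : Om (kk n)) (hz : z ∈ Zs F),
        ‖χ ⟨aeval z τ * ξ z, hint z hz⟩ ^ 2 - ((MvPolynomial.eval y g : ℝ) : ℂ) ^ (2 * K)‖ ≤
          ε * (MvPolynomial.eval y g) ^ (2 * K)) →
      ∃ (c : kk n) (H : RP n) (c₁ c₂ : ℝ) (M : ℕ),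
        P.eval c = - algebraMap (RP n) (kk n) H ∧ 0 < c₁ ∧
        ∀ y : Fin n → ℝ, c₁ * (MvPolynomial.eval y g) ^ M ≤ MvPolynomial.eval y H ∧
          MvPolynomial.eval y H ≤ c₂ * (MvPolynomial.eval y g) ^ M := by
  classical
  have hneG : Nonempty {z // z ∈ Zs F} := hne.to_subtype
  obtain ⟨ε, hε, hcore⟩ := SIcore n {z // z ∈ Zs F}
  refine ⟨ε, hε, ?_⟩
  intro g hg1 K τ ξ P hint hP happ
  let β : Finset (Om (kk n)) → {z // z ∈ Zs F} → Om (kk n) := fun S z =>
    (if z.1 ∈ S then 1 else -1) * (aeval z.1 τ * ξ z.1)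
  have hsum : ∀ S : Finset (Om (kk n)), ∑ z, β S z = TT F ξ τ S := by
    intro S
    unfold TT
    rw [← Finset.sum_coe_sort (Zs F)
      (fun z => (if z ∈ S then (1 : Om (kk n)) else -1) * (aeval z τ * ξ z))]
  have hβint : ∀ S ∈ (Zs F).powerset, ∀ σ, IsIntegral (RP n) (β S σ) := by
    intro S _ σ
    simp only [β]
    split_ifs
    · rw [one_mul]
      exact hint σ.1 σ.2
    · rw [neg_one_mul]
      exact (hint σ.1 σ.2).neg
  refine hcore g hg1 K (Finset (Om (kk n))) (Zs F).powerset β P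
    ⟨∅, Finset.empty_mem_powerset _⟩ hβint ?_ ?_ ?_ ?_
  · rw [hP]
    refine Finset.prod_congr rfl fun S _ => ?_
    rw [hsum]
  · intro S hS S' hS' hne'
    obtain ⟨z, hz⟩ : ∃ z, ¬ (z ∈ S ↔ z ∈ S') := by
      by_contra hcon
      push Not at hcon
      apply hne'
      ext z
      exact hcon z
    have hzF : z ∈ Zs F := by
      by_cases h : z ∈ S
      · exact (Finset.mem_powerset.1 hS) h
      · have : z ∈ S' := by
          by_contra h'
          exact hz ⟨fun a => absurd a h, fun a => absurd a h'⟩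
        exact (Finset.mem_powerset.1 hS') this
    refine ⟨⟨z, hzF⟩, ?_⟩
    simp only [β]
    by_cases h : z ∈ S <;> by_cases h' : z ∈ S'
    · exact absurd ⟨fun _ => h', fun _ => h⟩ hz
    · rw [if_pos h, if_neg h']
      ring
    · rw [if_neg h, if_pos h']
      ring
    · exact absurd ⟨fun a => absurd a h, fun a => absurd a h'⟩ hz
  · intro S hS s hs
    refine ⟨(Zs F).filter (fun z => ∃ h : z ∈ Zs F, (z ∈ S ∧ s ⟨z, h⟩ = 1) ∨
      (z ∉ S ∧ s ⟨z, h⟩ = -1)), Finset.mem_powerset.2 (Finset.filter_subset _ _), ?_⟩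
    intro σ
    simp only [β]
    have hmem : (σ.1 ∈ (Zs F).filter (fun z => ∃ h : z ∈ Zs F, (z ∈ S ∧ s ⟨z, h⟩ = 1) ∨
        (z ∉ S ∧ s ⟨z, h⟩ = -1))) ↔ (σ.1 ∈ S ∧ s σ = 1) ∨ (σ.1 ∉ S ∧ s σ = -1) := by
      rw [Finset.mem_filter]
      constructor
      · rintro ⟨_, _, h⟩
        exact h
      · intro h
        exact ⟨σ.2, σ.2, h⟩
    by_cases h : σ.1 ∈ S
    · rcases hs σ with h1 | h1
      · rw [if_pos (hmem.2 (Or.inl ⟨h, h1⟩)), if_pos h, h1]
        push_cast
        ring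
      · rw [if_neg (fun h2 => by
          rcases hmem.1 h2 with h3 | h3
          · rw [h1] at h3
            exact absurd h3.2 (by norm_num)
          · exact h3.1 h), if_pos h, h1]
        push_cast
        ring
    · rcases hs σ with h1 | h1
      · rw [if_neg (fun h2 => by
          rcases hmem.1 h2 with h3 | h3
          · exact h h3.1
          · rw [h1] at h3
            exact absurd h3.2 (by norm_num)), if_neg h, h1]
        push_cast
        ring
      · rw [if_pos (hmem.2 (Or.inr ⟨h, h1⟩)), if_neg h, h1]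
        push_cast
        ring
  · intro y χ hχ S hS σ
    have h1 : (⟨β S σ, hβint S hS σ⟩ : integralClosure (RP n) (Om (kk n))) ^ 2 =
        ⟨aeval σ.1 τ * ξ σ.1, hint σ.1 σ.2⟩ ^ 2 := by
      apply Subtype.ext
      push_cast
      simp only [β]
      split_ifs <;> ring
    rw [← map_pow, h1, map_pow]
    exact happ y χ hχ σ.1 σ.2

end Pool.Agent.PFL
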