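import Pool.Agent.PFL.SIc

/-!
# Row SIg: the row `SI` with a general weight polynomial (MP_b906c2_al)
-/

set_option autoImplicit false

namespace Pool.Agent.PFL

open Polynomial Pool.Agent.PDF Pool.Agent.PFI

theorem SIg (N : ℕ) {L : Type} [Field L] [Algebra (kk N) L] [Algebra (RP N) L]
    [IsScalarTower (RP N) (kk N) L] [FiniteDimensional (kk N) L]
    [Fintype (L →ₐ[kk N] AlgebraicClosure (kk N))] :
    ∃ ε : ℝ, 0 < ε ∧ ∀ (g : RP N), (∀ y : Fin N → ℝ, 1 ≤ MvPolynomial.eval y g) →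
      ∀ (a : integralClosure (RP N) L) (K : ℕ),
      (∀ b b' : (L →ₐ[kk N] AlgebraicClosure (kk N)) → AlgebraicClosure (kk N),
        (∀ σ, b σ ^ 2 = σ a) → (∀ σ, b' σ ^ 2 = σ a) → ∑ σ, b σ = ∑ σ, b' σ → b = b') →
      (∀ (y : Fin N → ℝ) (χ : integralClosure (RP N) L →+* ℂ), Spec y χ →
        ‖χ a - ((MvPolynomial.eval y g : ℝ) : ℂ) ^ (2 * K)‖ ≤
          ε * (MvPolynomial.eval y g) ^ (2 * K)) →
      ∃ (P : (kk N)[X]) (B : L[X]) (c : kk N) (G : RP N) (c₁ c₂ : ℝ) (M : ℕ), P.Monic ∧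
        P.map (algebraMap (kk N) L) ∣ B ^ 2 - C (a : L) ∧
        P.eval c = - algebraMap (RP N) (kk N) G ∧ 0 < c₁ ∧
        ∀ y : Fin N → ℝ, c₁ * (MvPolynomial.eval y g) ^ M ≤ MvPolynomial.eval y G ∧
          MvPolynomial.eval y G ≤ c₂ * (MvPolynomial.eval y g) ^ M := by
  classical
  set Ω := AlgebraicClosure (kk N) with hΩ
  have hfin : Algebra.IsAlgebraic (kk N) L := Algebra.IsAlgebraic.of_finite (kk N) L
  have hne : Nonempty (L →ₐ[kk N] Ω) := ⟨IsAlgClosed.lift⟩
  obtain ⟨ε, hε, hcore⟩ := SIcore N (L →ₐ[kk N] Ω)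
  refine ⟨ε, hε, ?_⟩
  intro g hg1 a K hinj happ
  obtain ⟨P, B, S, hS, hPm, hPmap, hdvd⟩ := SQ (a : L) hinj
  have hint : ∀ b ∈ S, ∀ σ : L →ₐ[kk N] Ω, IsIntegral (RP N) (b σ) := by
    intro b hb σ
    apply IsIntegral.of_pow (n := 2) two_pos
    rw [(hS b).1 hb σ]
    exact IsIntegral.map (σ.restrictScalars (RP N)) a.2
  have hSne : S.Nonempty := by
    have h1 : ∀ σ : L →ₐ[kk N] Ω, ∃ z : Ω, z ^ 2 = σ a := fun σ =>
      IsAlgClosed.exists_pow_nat_eq _ two_pos
    choose b hb using h1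
    exact ⟨b, (hS b).2 hb⟩
  obtain ⟨c, H, c₁, c₂, M, h1, h2, h3⟩ := hcore g hg1 K _ S (fun b => b) P hSne hint hPmap
    (by
      intro b hb b' hb' hne'
      by_contra hcon
      push Not at hcon
      apply hne'
      funext σ
      have h1 : b σ ^ 2 = b' σ ^ 2 := by rw [(hS b).1 hb σ, (hS b').1 hb' σ]
      rcases sq_eq_sq_iff_eq_or_eq_neg.1 h1 with h2 | h2
      · exact h2
      · exact absurd h2 (hcon σ))
    (by
      intro b hb s hs
      have hmem : (fun σ => (s σ : Ω) * b σ) ∈ S := by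
        rw [hS]
        intro σ
        rw [mul_pow, (hS b).1 hb σ]
        rcases hs σ with h | h <;> simp [h]
      exact ⟨_, hmem, fun σ => rfl⟩)
    (by
      intro y χ hχ b hb σ
      have h4 : (⟨b σ, hint b hb σ⟩ : integralClosure (RP N) Ω) ^ 2 =
          (σ.restrictScalars (RP N)).mapIntegralClosure a := by
        apply Subtype.ext
        rw [SubmonoidClass.coe_pow]
        exact (hS b).1 hb σ
      rw [← map_pow, h4]
      exact happ y (χ.comp ((σ.restrictScalars (RP N)).mapIntegralClosure :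
        integralClosure (RP N) L →+* integralClosure (RP N) Ω)) (by
          intro p
          rw [← hχ p]
          rw [RingHom.comp_apply]
          congr 1
          exact ((σ.restrictScalars (RP N)).mapIntegralClosure).commutes p))
  exact ⟨P, B, c, H, c₁, c₂, M, hPm, hdvd, h1, h2, h3⟩

end Pool.Agent.PFL
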