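import Pool.Agent.PFL.Defs
import Pool.Agent.PFL.INA
import Pool.Agent.PFL.SIA
import Pool.Agent.PFL.INg
import Pool.Agent.PFL.SIg

/-!
# The rows INA, SIA, INg, SIg for the weight polynomial `rhoP` (MP_b906c2_al, project PFL)
-/

set_option autoImplicit false

namespace Pool.Agent.PFL

open Polynomial Pool.Agent.PDF Pool.Agent.PFI Pool.Agent.PFS

theorem abs_le_rho (N : ℕ) (y : Fin N → ℝ) (i : Fin N) : |y i| ≤ rho N y := by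
  induction N with
  | zero => exact i.elim0
  | succ N ih =>
    have h1 := one_le_rho N (fun i => y i.succ)
    rw [rho_succ]
    revert i
    refine Fin.cases ?_ fun j => ?_
    · have h2 : |y 0| ^ 2 = y 0 ^ 2 := sq_abs _
      nlinarith [sq_nonneg (|y 0| - 1), abs_nonneg (y 0)]
    · have h2 := ih (fun i => y i.succ) j
      have h3 : (0 : ℝ) ≤ y 0 ^ 2 := sq_nonneg _
      nlinarith

theorem one_le_eval_rhoP (N : ℕ) (y : Fin N → ℝ) : 1 ≤ MvPolynomial.eval y (rhoP N) := by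
  rw [eval_rhoP]
  exact one_le_rho N y

theorem abs_le_eval_rhoP (N : ℕ) (y : Fin N → ℝ) (i : Fin N) :
    |y i| ≤ MvPolynomial.eval y (rhoP N) := by
  rw [eval_rhoP]
  exact abs_le_rho N y i

/-- `INA` for `rhoP` -/
theorem INAr {n : ℕ} (H : (kk n)[X]) (hz : ∀ z ∈ Zs H, IsIntegral (RP n) z)
    (ξ : Om (kk n) → Om (kk n)) (hξ : ∀ z ∈ Zs H, ξ z ≠ 0) (η : ℝ) (hη : 0 < η) :
    ∃ (τ : (kk n)[X]) (k : ℕ), (∀ z ∈ Zs H, IsIntegral (RP n) (aeval z τ)) ∧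
      (∀ (y : Fin n → ℝ) (χ : integralClosure (RP n) (Om (kk n)) →+* ℂ), Spec y χ →
        ∀ z ∈ Zs H, ∀ h : IsIntegral (RP n) (aeval z τ),
          ‖χ ⟨aeval z τ, h⟩ - (rho n y : ℂ) ^ k‖ ≤ η * rho n y ^ k) ∧
      ∀ S ⊆ Zs H, ∀ S' ⊆ Zs H, TT H ξ τ S = TT H ξ τ S' → S = S' := by
  obtain ⟨τ, k, h1, h2, h3⟩ := INA (rhoP n) (one_le_eval_rhoP n) (abs_le_eval_rhoP n) H hz ξ hξ η hη
  refine ⟨τ, k, h1, fun y χ hχ z hzz h => ?_, h3⟩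
  have h4 := h2 y χ hχ z hzz h
  rwa [eval_rhoP] at h4

/-- `SIA` for `rhoP` -/
theorem SIAr {n : ℕ} (H : (kk n)[X]) (hne : (Zs H).Nonempty) :
    ∃ ε : ℝ, 0 < ε ∧ ∀ (ξ : Om (kk n) → Om (kk n)) (τ P : (kk n)[X]) (K : ℕ),
      (∀ S ⊆ Zs H, ∀ S' ⊆ Zs H, TT H ξ τ S = TT H ξ τ S' → S = S') →
      P.map (algebraMap (kk n) (Om (kk n))) =
        ∏ S ∈ (Zs H).powerset, (X - C (TT H ξ τ S)) →
      (∀ z ∈ Zs H, IsIntegral (RP n) (aeval z τ * ξ z)) →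
      (∀ (y : Fin n → ℝ) (χ : integralClosure (RP n) (Om (kk n)) →+* ℂ), Spec y χ →
        ∀ z ∈ Zs H, ∀ h : IsIntegral (RP n) (aeval z τ * ξ z),
          ‖χ ⟨aeval z τ * ξ z, h⟩ ^ 2 - (rho n y : ℂ) ^ (2 * K)‖ ≤ ε * rho n y ^ (2 * K)) →
      ∃ (c : kk n) (G' : RP n), P.eval c = -algebraMap (RP n) (kk n) G' ∧ W n G' := by
  obtain ⟨ε, hε, h⟩ := SIA H hne
  refine ⟨ε, hε, fun ξ τ P K _ hP hint happ => ?_⟩
  obtain ⟨c, G', c₁, c₂, M, h1, h2, h3⟩ := h (rhoP n) (one_le_eval_rhoP n) K τ ξ P hint hP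
    (fun y χ hχ z hzz => by
      have h4 := happ y χ hχ z hzz (hint z hzz)
      rw [eval_rhoP]
      exact h4)
  refine ⟨c, G', h1, c₁, c₂, M, h2, fun y => ?_⟩
  have h4 := h3 y
  rwa [eval_rhoP] at h4

/-- `INg` for `rhoP` -/
theorem INr {N : ℕ} {L Ω : Type} [Field L] [Algebra (kk N) L] [Algebra (RP N) L]
    [IsScalarTower (RP N) (kk N) L] [FiniteDimensional (kk N) L] [Field Ω] [Algebra (kk N) Ω]
    [IsAlgClosure (kk N) Ω] [Fintype (L →ₐ[kk N] Ω)] (a : L) (η : ℝ) (hη : 0 < η) :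
    ∃ (μ : integralClosure (RP N) L) (k : ℕ),
      (∀ (y : Fin N → ℝ) (χ : integralClosure (RP N) L →+* ℂ), Spec y χ →
        ‖χ μ - (rho N y : ℂ) ^ k‖ ≤ η * rho N y ^ k) ∧
      ∀ b b' : (L →ₐ[kk N] Ω) → Ω, (∀ σ, b σ ^ 2 = σ ((μ : L) ^ 2 * a)) →
        (∀ σ, b' σ ^ 2 = σ ((μ : L) ^ 2 * a)) → ∑ σ, b σ = ∑ σ, b' σ → b = b' := by
  obtain ⟨μ, k, h1, h2⟩ := INg (Ω := Ω) (rhoP N) (one_le_eval_rhoP N) (abs_le_eval_rhoP N) a η hη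
  refine ⟨μ, k, fun y χ hχ => ?_, h2⟩
  have h4 := h1 y χ hχ
  rwa [eval_rhoP] at h4

/-- `SIg` for `rhoP` -/
theorem SIr (N : ℕ) {L : Type} [Field L] [Algebra (kk N) L] [Algebra (RP N) L]
    [IsScalarTower (RP N) (kk N) L] [FiniteDimensional (kk N) L]
    [Fintype (L →ₐ[kk N] AlgebraicClosure (kk N))] :
    ∃ ε : ℝ, 0 < ε ∧ ∀ (a : integralClosure (RP N) L) (K : ℕ),
      (∀ b b' : (L →ₐ[kk N] AlgebraicClosure (kk N)) → AlgebraicClosure (kk N),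
        (∀ σ, b σ ^ 2 = σ a) → (∀ σ, b' σ ^ 2 = σ a) → ∑ σ, b σ = ∑ σ, b' σ → b = b') →
      (∀ (y : Fin N → ℝ) (χ : integralClosure (RP N) L →+* ℂ), Spec y χ →
        ‖χ a - (rho N y : ℂ) ^ (2 * K)‖ ≤ ε * rho N y ^ (2 * K)) →
      ∃ (P : (kk N)[X]) (B : L[X]) (c : kk N) (G : RP N), P.Monic ∧
        P.map (algebraMap (kk N) L) ∣ B ^ 2 - C (a : L) ∧
        P.eval c = - algebraMap (RP N) (kk N) G ∧ W N G := by
  obtain ⟨ε, hε, h⟩ := SIg N (L := L)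
  refine ⟨ε, hε, fun a K hinj happ => ?_⟩
  obtain ⟨P, B, c, G, c₁, c₂, M, h1, h2, h3, h4, h5⟩ := h (rhoP N) (one_le_eval_rhoP N) a K hinj
    (fun y χ hχ => by
      rw [eval_rhoP]
      exact happ y χ hχ)
  refine ⟨P, B, c, G, h1, h2, h3, c₁, c₂, M, h4, fun y => ?_⟩
  have h6 := h5 y
  rwa [eval_rhoP] at h6

end Pool.Agent.PFL
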