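import Pool.Agent.PFL.ISR
import Pool.Agent.PFI.LV

/-!
# The value `-G` in the nonreal field `L` (row LVW, MP_b906c2_al, project PFL)
-/

set_option autoImplicit false

namespace Pool.Agent.PFL

open Polynomial Pool.Agent.PDF Pool.Agent.PFI

theorem LVW (N m : ℕ) (hm : N + 2 ≤ 2 ^ m) {L : Type} [Field L] [Algebra (kk N) L]
    [Algebra (RP N) L] [IsScalarTower (RP N) (kk N) L] [FiniteDimensional (kk N) L]
    (hAB : ∀ ε : ℝ, 0 < ε → ∃ (t : Fin (N + 1) → integralClosure (RP N) L) (K : ℕ),
      ∀ (y : Fin N → ℝ) (χ : integralClosure (RP N) L →+* ℂ), Spec y χ →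
        ‖χ (-∑ i, t i ^ 2) - (rho N y : ℂ) ^ (2 * K)‖ ≤ ε * rho N y ^ (2 * K)) :
    ∃ G : RP N, W N G ∧
      SS (2 ^ m) (-(algebraMap (kk N) L (algebraMap (RP N) (kk N) G))) := by
  classical
  haveI : CharZero (kk N) := charZero_of_injective_algebraMap (algebraMap ℝ (kk N)).injective
  haveI : CharZero L := charZero_of_injective_algebraMap (algebraMap (kk N) L).injective
  letI : Fintype (L →ₐ[kk N] AlgebraicClosure (kk N)) := Fintype.ofFinite _
  have h2 : (2 : L) ≠ 0 := two_ne_zero
  obtain ⟨ε, hε, hSI⟩ := SIr N (L := L)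
  set δ : ℝ := min (1 / 2) (ε / 7) with hδ
  have hδ0 : 0 < δ := lt_min (by norm_num) (by positivity)
  have hδ1 : δ ≤ 1 / 2 := min_le_left _ _
  have hδ2 : 7 * δ ≤ ε := by
    have := min_le_right (1 / 2) (ε / 7)
    linarith
  obtain ⟨t, K, ht⟩ := hAB δ hδ0
  set a₀ : integralClosure (RP N) L := -∑ i, t i ^ 2 with ha₀
  obtain ⟨μ, k, hμ, hinj⟩ := INr (N := N) (Ω := AlgebraicClosure (kk N)) (a₀ : L) δ hδ0
  obtain ⟨P, B, c, G, hPm, hPd, hPc, hG⟩ := hSI (μ ^ 2 * a₀) (k + K)
    (by
      intro b b' hb hb' hbb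
      refine hinj b b' (fun σ => ?_) (fun σ => ?_) hbb
      · rw [hb σ]; rfl
      · rw [hb' σ]; rfl)
    (by
      intro y χ hχ
      obtain ⟨α, hα, hα'⟩ := LVaux.rel (rho N y) (rho_pos N y) k δ _ (hμ y χ hχ)
      obtain ⟨β, hβ, hβ'⟩ := LVaux.rel (rho N y) (rho_pos N y) (2 * K) δ _ (ht y χ hχ)
      rw [map_mul, map_pow, hα', hβ']
      have h3 : ((rho N y : ℂ) ^ k * (1 + α)) ^ 2 * ((rho N y : ℂ) ^ (2 * K) * (1 + β)) -
          (rho N y : ℂ) ^ (2 * (k + K)) =
          (rho N y : ℂ) ^ (2 * (k + K)) * ((1 + α) ^ 2 * (1 + β) - 1) := by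
        ring
      rw [h3, norm_mul, norm_pow, Complex.norm_real, Real.norm_of_nonneg (rho_pos N y).le,
        mul_comm ε]
      exact mul_le_mul_of_nonneg_left
        (LVaux.est δ ε hδ0.le (by linarith) hδ2 α β hα hβ)
        (pow_nonneg (rho_pos N y).le _))
  -- nonvanishing
  obtain ⟨χ, hχ⟩ := EX (Ω := L) (N := N) 0
  have hμ0 : (μ : L) ≠ 0 := by
    intro h
    have h' : μ = 0 := Subtype.ext h
    obtain ⟨α, hα, hα'⟩ := LVaux.rel (rho N 0) (rho_pos N 0) k δ _ (hμ 0 χ hχ)
    rw [h', map_zero] at hα'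
    rcases mul_eq_zero.1 hα'.symm with h3 | h3
    · exact pow_ne_zero _ (by exact_mod_cast (rho_pos N 0).ne') h3
    · have h4 : α = -1 := by linear_combination h3
      rw [h4, norm_neg, norm_one] at hα
      linarith
  have ha0 : ∃ i, t i ≠ 0 := by
    by_contra hcon
    push Not at hcon
    obtain ⟨α, hα, hα'⟩ := LVaux.rel (rho N 0) (rho_pos N 0) (2 * K) δ _ (ht 0 χ hχ)
    have h5 : a₀ = 0 := by
      rw [ha₀]
      simp [hcon]
    rw [h5, map_zero] at hα'
    rcases mul_eq_zero.1 hα'.symm with h3 | h3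
    · exact pow_ne_zero _ (by exact_mod_cast (rho_pos N 0).ne') h3
    · have h4 : α = -1 := by linear_combination h3
      rw [h4, norm_neg, norm_one] at hα
      linarith
  have hG0 : G ≠ 0 := by
    rintro rfl
    obtain ⟨c₁, c₂, M, hc, h⟩ := hG
    have h1 := (h 0).1
    rw [map_zero] at h1
    have h2 : 0 < rho N 0 ^ M := pow_pos (rho_pos N 0) M
    nlinarith [mul_pos hc h2]
  set g : L := algebraMap (kk N) L (algebraMap (RP N) (kk N) G) with hg
  have hg0 : g ≠ 0 := by
    rw [hg, Ne, map_eq_zero]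
    intro h
    exact hG0 ((IsFractionRing.injective (RP N) (kk N)) (by rw [h, map_zero]))
  refine ⟨G, hG, ?_⟩
  -- the norm principle
  have hl : ∀ a ∈ List.replicate m (1 : L), a ≠ 0 := by
    intro a ha
    rw [List.eq_of_mem_replicate ha]
    exact one_ne_zero
  by_cases hA : Aniso (wt (List.replicate m (1 : L)))
  · have hev : (P.map (algebraMap (kk N) L)).eval (algebraMap (kk N) L c) = -g := by
      rw [eval_map_apply, hPc, map_neg, hg]
    have h3 : Rep (Pool.Agent.PDF.wt (List.replicate m (1 : L)))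
        ((P.map (algebraMap (kk N) L)).eval (algebraMap (kk N) L c)) := by
      refine NP _ hA ((D_wt _ _).1 (D_one _)) (mulC_wt _) _ (hPm.map _) ?_ _ ?_
      · intro q hq hqP
        obtain ⟨i₀, hi₀⟩ := ha0
        refine iso_one (κ := (Unit ⊕ Fin (N + 1)) ⊕ Fin (2 ^ m - (N + 2))) _
          (fun a ha => List.eq_of_mem_replicate ha) ?_ q
          (Sum.elim (Sum.elim (fun _ => B) (fun i => Polynomial.C ((μ : L) * (t i : L))))
            (fun _ => 0)) ?_ ?_
        · simp only [Fintype.card_sum, Fintype.card_unit, Fintype.card_fin,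
            List.length_replicate]
          omega
        · refine ⟨Sum.inl (Sum.inr i₀), ?_⟩
          intro h
          have h5 : (t i₀ : L) ≠ 0 := fun h6 => hi₀ (Subtype.ext h6)
          exact hq.not_isUnit (isUnit_of_dvd_unit h (isUnit_C.2 (isUnit_iff_ne_zero.2
            (mul_ne_zero hμ0 h5))))
        · rw [Fintype.sum_sum_type, Fintype.sum_sum_type]
          simp only [Sum.elim_inl, Sum.elim_inr, Finset.univ_unique, Finset.sum_singleton]
          have h5 := hqP.trans hPd
          have h6 : (((μ ^ 2 * a₀ : integralClosure (RP N) L)) : L) =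
              -∑ i, ((μ : L) * (t i : L)) ^ 2 := by
            rw [ha₀]
            push_cast
            rw [mul_neg, Finset.mul_sum]
            congr 1
            refine Finset.sum_congr rfl fun i _ => ?_
            ring
          rw [h6] at h5
          convert h5 using 1
          rw [C_neg, map_sum]
          simp only [C_pow]
          simp
      · rw [hev]
        exact neg_ne_zero.2 hg0
    rw [hev, ← D_wt, ← SS_iff_D] at h3
    exact h3
  · exact (SS_iff_D _ _).2 (D_univ h2 _ hl hA _)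

end Pool.Agent.PFL
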