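import Pool.Agent.PFL.Defs

/-!
# Row ROOT: location of the roots of a polynomial of exact order of growth (MP_b906c2_al)
-/

set_option autoImplicit false

namespace Pool.Agent.PFL

open Polynomial Pool.Agent.PDF Pool.Agent.PFI

namespace ROOTaux

/-- a nonnegative real polynomial has nonnegative top coefficient -/
theorem coeff_nonneg (p : ℝ[X]) (m : ℕ) (hm : p.natDegree ≤ m) (h : ∀ t : ℝ, 0 ≤ p.eval t) :
    0 ≤ p.coeff m := by
  rcases lt_or_eq_of_le hm with h1 | h1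
  · rw [coeff_eq_zero_of_natDegree_lt h1]
  subst h1
  by_contra hlt
  push Not at hlt
  rcases Nat.eq_zero_or_pos p.natDegree with h0 | h0
  · obtain ⟨c, hc⟩ := natDegree_eq_zero.1 h0
    have h2 := h 0
    rw [← hc] at h2 hlt
    simp only [natDegree_C, coeff_C_zero, eval_C] at h2 hlt
    linarith
  · have h2 := tendsto_atBot_of_leadingCoeff_nonpos p (natDegree_pos_iff_degree_pos.1 h0) hlt.le
    obtain ⟨t, ht⟩ := (h2.eventually (Filter.eventually_lt_atBot 0)).exists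
    exact absurd (h t) (not_le.2 ht)

/-- a bounded polynomial in several variables is constant -/
theorem bounded_const {n : ℕ} (p : RP n) (B : ℝ)
    (h : ∀ y : Fin n → ℝ, |MvPolynomial.eval y p| ≤ B) :
    p = MvPolynomial.C (MvPolynomial.eval 0 p) := by
  refine MvPolynomial.funext fun y => ?_
  rw [MvPolynomial.eval_C]
  set q : ℝ[X] := MvPolynomial.aeval (fun i => C (y i) * X) p with hq
  have hev : ∀ t : ℝ, q.eval t = MvPolynomial.eval (fun i => t * y i) p := by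
    intro t
    have h1 : (evalRingHom t).comp
        ((MvPolynomial.aeval (fun i => (C (y i) * X : ℝ[X])) : RP n →ₐ[ℝ] ℝ[X]) : RP n →+* ℝ[X]) =
        MvPolynomial.eval (fun i => t * y i) := by
      refine MvPolynomial.ringHom_ext (fun r => ?_) (fun i => ?_)
      · show eval t (MvPolynomial.aeval (fun i => (C (y i) * X : ℝ[X])) (MvPolynomial.C r)) = _
        rw [MvPolynomial.aeval_C, MvPolynomial.eval_C, algebraMap_eq, eval_C]
      · show eval t (MvPolynomial.aeval (fun i => (C (y i) * X : ℝ[X])) (MvPolynomial.X i)) = _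
        rw [MvPolynomial.aeval_X, MvPolynomial.eval_X, eval_mul, eval_C, eval_X, mul_comm]
    exact congrArg (fun f => f p) h1
  have hdeg : q.degree ≤ 0 := by
    by_contra hlt
    push Not at hlt
    have h2 := abs_tendsto_atTop q hlt
    obtain ⟨t, ht⟩ := (h2.eventually (Filter.eventually_gt_atTop B)).exists
    rw [hev] at ht
    exact absurd (h _) (not_le.2 ht)
  rw [eq_C_of_degree_le_zero hdeg] at hev
  have h3 := hev 1
  have h4 := hev 0
  simp only [eval_C, one_mul, zero_mul] at h3 h4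
  rw [← h3, h4]
  rfl

/-- coefficients are controlled by the values at `0, …, m` -/
theorem coeff_bd (m : ℕ) : ∃ A : ℝ, 0 ≤ A ∧ ∀ (q : ℝ[X]) (B : ℝ), q.natDegree ≤ m →
    (∀ j : ℕ, j ≤ m → |q.eval (j : ℝ)| ≤ B) → ∀ i, |q.coeff i| ≤ A * B := by
  classical
  set s : Finset ℕ := Finset.range (m + 1) with hs
  set v : ℕ → ℝ := fun i => (i : ℝ) with hv
  have hvs : Set.InjOn v s := fun i _ j _ h => Nat.cast_injective h
  refine ⟨∑ k ∈ s, ∑ i ∈ s, |(Lagrange.basis s v i).coeff k|,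
    Finset.sum_nonneg fun k _ => Finset.sum_nonneg fun i _ => abs_nonneg _, ?_⟩
  intro q B hq hB i
  have hB0 : 0 ≤ B := (abs_nonneg _).trans (hB 0 (Nat.zero_le _))
  by_cases hi : i ≤ m
  · have hdeg : q.degree < s.card := by
      rw [hs, Finset.card_range]
      refine lt_of_le_of_lt degree_le_natDegree ?_
      exact_mod_cast Nat.lt_succ_of_le hq
    have h1 := Lagrange.eq_interpolate hvs hdeg
    have h2 : q.coeff i = ∑ j ∈ s, q.eval (v j) * (Lagrange.basis s v j).coeff i := by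
      conv_lhs => rw [h1]
      rw [Lagrange.interpolate_apply, finsetSum_coeff]
      exact Finset.sum_congr rfl fun j _ => coeff_C_mul _
    rw [h2]
    calc |∑ j ∈ s, q.eval (v j) * (Lagrange.basis s v j).coeff i|
        ≤ ∑ j ∈ s, |q.eval (v j) * (Lagrange.basis s v j).coeff i| :=
          Finset.abs_sum_le_sum_abs _ _
      _ ≤ ∑ j ∈ s, B * |(Lagrange.basis s v j).coeff i| := by
          refine Finset.sum_le_sum fun j hj => ?_
          rw [abs_mul]
          exact mul_le_mul_of_nonneg_right (hB j (Nat.lt_succ_iff.1 (Finset.mem_range.1 hj)))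
            (abs_nonneg _)
      _ = (∑ j ∈ s, |(Lagrange.basis s v j).coeff i|) * B := by
          rw [← Finset.mul_sum, mul_comm]
      _ ≤ _ := by
          refine mul_le_mul_of_nonneg_right ?_ hB0
          exact Finset.single_le_sum
            (f := fun k => ∑ j ∈ s, |(Lagrange.basis s v j).coeff k|)
            (fun k _ => Finset.sum_nonneg fun i _ => abs_nonneg _)
            (Finset.mem_range.2 (Nat.lt_succ_of_le hi))
  · rw [coeff_eq_zero_of_natDegree_lt (by omega), abs_zero]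
    exact mul_nonneg (Finset.sum_nonneg fun k _ => Finset.sum_nonneg fun i _ => abs_nonneg _) hB0

/-- root bound -/
theorem root_le (q : ℝ[X]) (m : ℕ) (hq : q.natDegree ≤ m) (h1 : q.coeff m = 1) (B : ℝ)
    (hB : ∀ i, |q.coeff i| ≤ B) (z : ℂ) (hz : aeval z q = 0) : ‖z‖ ≤ 1 + m * B := by
  by_contra hlt
  push Not at hlt
  have hB0 : 0 ≤ B := (abs_nonneg _).trans (hB 0)
  have hz1 : 1 ≤ ‖z‖ := by
    have : 0 ≤ (m : ℝ) * B := by positivity
    linarith
  rw [aeval_eq_sum_range' (Nat.lt_succ_of_le hq), Finset.sum_range_succ, h1, one_smul] at hz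
  have h2 : ‖z‖ ^ m = ‖∑ i ∈ Finset.range m, q.coeff i • z ^ i‖ := by
    rw [← norm_pow, ← norm_neg (z ^ m)]
    congr 1
    linear_combination -hz
  have h3 : ‖∑ i ∈ Finset.range m, q.coeff i • z ^ i‖ ≤ ∑ i ∈ Finset.range m, B * ‖z‖ ^ (m - 1) := by
    refine (norm_sum_le _ _).trans (Finset.sum_le_sum fun i hi => ?_)
    rw [norm_smul, norm_pow, Real.norm_eq_abs]
    refine mul_le_mul (hB i) (pow_le_pow_right₀ hz1 ?_) (by positivity) hB0
    have := Finset.mem_range.1 hi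
    omega
  rw [Finset.sum_const, Finset.card_range, nsmul_eq_mul] at h3
  rcases Nat.eq_zero_or_pos m with h0 | h0
  · subst h0
    simp only [pow_zero, Finset.range_zero, Finset.sum_empty, norm_zero] at h2
    exact one_ne_zero h2
  · have h4 : ‖z‖ ^ m = ‖z‖ * ‖z‖ ^ (m - 1) := by
      rw [← pow_succ']
      congr 1
      omega
    have h5 : 0 < ‖z‖ ^ (m - 1) := pow_pos (by linarith) _
    rw [← h2, h4] at h3
    have h6 : ‖z‖ ≤ m * B := by
      by_contra hlt'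
      push Not at hlt'
      nlinarith
    linarith

/-- Lipschitz estimate -/
theorem lip (q : ℝ[X]) (m : ℕ) (hq : q.natDegree ≤ m) (B R : ℝ) (hR : 1 ≤ R)
    (hB : ∀ i, |q.coeff i| ≤ B) (x z : ℂ) (hx : ‖x‖ ≤ R) (hz : ‖z‖ ≤ R) :
    ‖aeval x q - aeval z q‖ ≤ (∑ i ∈ Finset.range (m + 1), B * (i * R ^ i)) * ‖x - z‖ := by
  rw [aeval_eq_sum_range' (Nat.lt_succ_of_le hq), aeval_eq_sum_range' (Nat.lt_succ_of_le hq),
    ← Finset.sum_sub_distrib, Finset.sum_mul]
  refine (norm_sum_le _ _).trans (Finset.sum_le_sum fun i _ => ?_)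
  rw [← smul_sub, norm_smul, Real.norm_eq_abs, mul_assoc]
  refine mul_le_mul (hB i) ?_ (norm_nonneg _) ((abs_nonneg _).trans (hB 0))
  rw [← (Commute.all x z).geom_sum₂_mul i, norm_mul]
  refine mul_le_mul_of_nonneg_right ?_ (norm_nonneg _)
  refine (norm_sum_le _ _).trans ?_
  calc ∑ j ∈ Finset.range i, ‖x ^ j * z ^ (i - 1 - j)‖ ≤ ∑ j ∈ Finset.range i, R ^ i := by
        refine Finset.sum_le_sum fun j hj => ?_
        have hj' := Finset.mem_range.1 hj
        rw [norm_mul, norm_pow, norm_pow]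
        calc ‖x‖ ^ j * ‖z‖ ^ (i - 1 - j) ≤ R ^ j * R ^ (i - 1 - j) :=
              mul_le_mul (pow_le_pow_left₀ (norm_nonneg _) hx _)
                (pow_le_pow_left₀ (norm_nonneg _) hz _) (by positivity) (by positivity)
          _ = R ^ (j + (i - 1 - j)) := (pow_add _ _ _).symm
          _ ≤ R ^ i := pow_le_pow_right₀ hR (by omega)
    _ = i * R ^ i := by rw [Finset.sum_const, Finset.card_range, nsmul_eq_mul]

/-- one real polynomial -/
theorem loc (M : ℕ) (a b : ℝ) (ha : 0 < a) : ∃ R δ : ℝ, 0 < δ ∧ ∀ q : ℝ[X],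
    q.natDegree ≤ 2 * M → q.coeff (2 * M) = 1 →
    (∀ t : ℝ, a * (1 + t ^ 2) ^ M ≤ q.eval t ∧ q.eval t ≤ b * (1 + t ^ 2) ^ M) →
    ∀ z : ℂ, aeval z q = 0 → ‖z‖ ≤ R ∧ δ ≤ |z.im| := by
  obtain ⟨A, hA, hAq⟩ := coeff_bd (2 * M)
  set B : ℝ := A * (|b| * (1 + (2 * M : ℕ) ^ 2) ^ M) with hB
  have hB0 : 0 ≤ B := by positivity
  set R : ℝ := 1 + (2 * M : ℕ) * B with hR
  have hR1 : 1 ≤ R := by
    have : 0 ≤ ((2 * M : ℕ) : ℝ) * B := by positivity
    linarith
  set Λ : ℝ := ∑ i ∈ Finset.range (2 * M + 1), B * (i * R ^ i) with hΛ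
  have hΛ0 : 0 ≤ Λ := Finset.sum_nonneg fun i _ => by positivity
  refine ⟨R, a / (Λ + 1), by positivity, fun q hq h1 h z hz => ?_⟩
  have hco : ∀ i, |q.coeff i| ≤ B := by
    refine hAq q _ hq fun j hj => ?_
    obtain ⟨h2, h3⟩ := h j
    have h4 : 0 ≤ a * (1 + (j : ℝ) ^ 2) ^ M := by positivity
    rw [abs_of_nonneg (h4.trans h2)]
    refine h3.trans ?_
    refine mul_le_mul (le_abs_self _) ?_ (by positivity) (abs_nonneg _)
    refine pow_le_pow_left₀ (by positivity) ?_ _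
    have : (j : ℝ) ≤ ((2 * M : ℕ) : ℝ) := by exact_mod_cast hj
    gcongr
  have hzR := root_le q (2 * M) hq h1 B hco z hz
  refine ⟨hzR, ?_⟩
  have hre : ‖(z.re : ℂ)‖ ≤ R := by
    rw [Complex.norm_real]
    exact (Complex.abs_re_le_norm z).trans hzR
  have h2 := lip q (2 * M) hq B R hR1 hco (z.re : ℂ) z hre hzR
  rw [hz, sub_zero] at h2
  have h3 : aeval (z.re : ℂ) q = ((q.eval z.re : ℝ) : ℂ) := by
    have h4 : aeval ((algebraMap ℝ ℂ) z.re) q = algebraMap ℝ ℂ (q.eval z.re) := by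
      rw [aeval_algebraMap_apply, coe_aeval_eq_eval]
    exact h4
  have h5 : ‖(z.re : ℂ) - z‖ = |z.im| := by
    have : (z.re : ℂ) - z = -(z.im * Complex.I) := by
      apply Complex.ext <;> simp
    rw [this, norm_neg, norm_mul, Complex.norm_I, mul_one, Complex.norm_real, Real.norm_eq_abs]
  rw [h3, Complex.norm_real, h5, Real.norm_eq_abs] at h2
  have h6 : a ≤ |q.eval z.re| := by
    refine le_trans ?_ ((h z.re).1.trans (le_abs_self _))
    have : (1 : ℝ) ≤ (1 + z.re ^ 2) ^ M := one_le_pow₀ (by nlinarith [sq_nonneg z.re])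
    nlinarith
  rw [div_le_iff₀ (by positivity)]
  have h7 := abs_nonneg z.im
  nlinarith

end ROOTaux

open ROOTaux in
theorem ROOT (n : ℕ) (G : RP (n + 1)) (hG : W (n + 1) G) :
    ∃ (κ : ℝ) (F : (RP n)[X]) (R δ : ℝ), 0 < κ ∧ 0 < δ ∧ F.Monic ∧
      MvPolynomial.finSuccEquiv ℝ n G = C (MvPolynomial.C κ) * F ∧
      ∀ (y : Fin n → ℝ) (ζ : ℂ),
        F.eval₂ ((algebraMap ℝ ℂ).comp (MvPolynomial.eval y)) ζ = 0 →
        ‖ζ‖ ≤ R * rho n y ∧ δ * rho n y ≤ |ζ.im| := by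
  obtain ⟨c₁, c₂, M, hc₁, hW⟩ := hG
  set f : (RP n)[X] := MvPolynomial.finSuccEquiv ℝ n G with hf
  -- the values
  have hval : ∀ (y : Fin n → ℝ) (t : ℝ),
      c₁ * (t ^ 2 + rho n y ^ 2) ^ M ≤ (f.map (MvPolynomial.eval y)).eval t ∧
      (f.map (MvPolynomial.eval y)).eval t ≤ c₂ * (t ^ 2 + rho n y ^ 2) ^ M := by
    intro y t
    have h1 := hW (Fin.cons t y)
    rw [MvPolynomial.eval_eq_eval_mv_eval', rho_succ, add_comm] at h1
    simpa using h1
  have hmon : ∀ y : Fin n → ℝ, ((X ^ 2 + C (rho n y ^ 2) : ℝ[X]) ^ M).Monic := fun y =>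
    (monic_X_pow_add_C _ two_ne_zero).pow M
  have hmdeg : ∀ y : Fin n → ℝ, ((X ^ 2 + C (rho n y ^ 2) : ℝ[X]) ^ M).natDegree = 2 * M := by
    intro y
    rw [natDegree_pow, natDegree_X_pow_add_C, mul_comm]
  have hpos1 : ∀ (y : Fin n → ℝ) (t : ℝ),
      0 ≤ (f.map (MvPolynomial.eval y) - C c₁ * (X ^ 2 + C (rho n y ^ 2)) ^ M).eval t := by
    intro y t
    have := (hval y t).1
    simp only [eval_sub, eval_mul, eval_C, eval_pow, eval_add, eval_X]
    linarith
  have hpos2 : ∀ (y : Fin n → ℝ) (t : ℝ),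
      0 ≤ (C c₂ * (X ^ 2 + C (rho n y ^ 2)) ^ M - f.map (MvPolynomial.eval y)).eval t := by
    intro y t
    have := (hval y t).2
    simp only [eval_sub, eval_mul, eval_C, eval_pow, eval_add, eval_X]
    linarith
  have hdegC : ∀ (y : Fin n → ℝ) (c : ℝ) (d : ℕ), 2 * M ≤ d →
      (C c * (X ^ 2 + C (rho n y ^ 2)) ^ M : ℝ[X]).natDegree ≤ d := fun y c d hd =>
    (natDegree_C_mul_le _ _).trans ((hmdeg y).le.trans hd)
  have hgdeg : ∀ y : Fin n → ℝ, (f.map (MvPolynomial.eval y)).natDegree ≤ 2 * M := by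
    intro y
    by_contra hlt
    push Not at hlt
    set d := (f.map (MvPolynomial.eval y)).natDegree with hd
    have h0 : ∀ c : ℝ, (C c * (X ^ 2 + C (rho n y ^ 2)) ^ M : ℝ[X]).coeff d = 0 := fun c =>
      coeff_eq_zero_of_natDegree_lt (lt_of_le_of_lt (hdegC y c _ le_rfl) hlt)
    have h1 := coeff_nonneg _ d ((natDegree_sub_le _ _).trans
      (max_le le_rfl (hdegC y c₁ d hlt.le))) (hpos1 y)
    have h2 := coeff_nonneg _ d ((natDegree_sub_le _ _).trans
      (max_le (hdegC y c₂ d hlt.le) le_rfl)) (hpos2 y)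
    rw [coeff_sub, h0] at h1 h2
    have h3 : (f.map (MvPolynomial.eval y)).coeff d = 0 := by linarith
    have h4 : f.map (MvPolynomial.eval y) = 0 := leadingCoeff_eq_zero.1 h3
    rw [h4, natDegree_zero] at hd
    omega
  have hfdeg : f.natDegree ≤ 2 * M := by
    rw [natDegree_le_iff_coeff_eq_zero]
    intro k hk
    refine MvPolynomial.funext fun y => ?_
    rw [map_zero, ← coeff_map]
    exact coeff_eq_zero_of_natDegree_lt (lt_of_le_of_lt (hgdeg y) hk)
  have htop : ∀ y : Fin n → ℝ, c₁ ≤ MvPolynomial.eval y (f.coeff (2 * M)) ∧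
      MvPolynomial.eval y (f.coeff (2 * M)) ≤ c₂ := by
    intro y
    have h0 : ∀ c : ℝ, (C c * (X ^ 2 + C (rho n y ^ 2)) ^ M : ℝ[X]).coeff (2 * M) = c := by
      intro c
      rw [coeff_C_mul]
      have h5 := (hmon y).coeff_natDegree
      rw [hmdeg y] at h5
      rw [h5, mul_one]
    have h1 := coeff_nonneg _ (2 * M) ((natDegree_sub_le _ _).trans
      (max_le (hgdeg y) (hdegC y c₁ _ le_rfl))) (hpos1 y)
    have h2 := coeff_nonneg _ (2 * M) ((natDegree_sub_le _ _).trans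
      (max_le (hdegC y c₂ _ le_rfl) (hgdeg y))) (hpos2 y)
    rw [coeff_sub, h0, coeff_map] at h1 h2
    constructor <;> linarith
  have hconst := bounded_const (f.coeff (2 * M)) (|c₁| + |c₂|) (fun y => by
    obtain ⟨h1, h2⟩ := htop y
    rw [abs_le]
    have h3 := neg_abs_le c₁
    have h4 := le_abs_self c₂
    have h5 := abs_nonneg c₁
    have h6 := abs_nonneg c₂
    constructor <;> linarith)
  set κ : ℝ := MvPolynomial.eval 0 (f.coeff (2 * M)) with hκ
  have hκ0 : 0 < κ := lt_of_lt_of_le hc₁ (htop 0).1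
  set F : (RP n)[X] := C (MvPolynomial.C κ⁻¹) * f with hF
  have hfF : f = C (MvPolynomial.C κ) * F := by
    rw [hF, ← mul_assoc, ← C_mul, ← MvPolynomial.C_mul, mul_inv_cancel₀ hκ0.ne']
    simp
  have hF1 : F.coeff (2 * M) = 1 := by
    rw [hF, coeff_C_mul, hconst, ← MvPolynomial.C_mul, inv_mul_cancel₀ hκ0.ne', MvPolynomial.C_1]
  have hFm : F.Monic :=
    monic_of_natDegree_le_of_coeff_eq_one (2 * M) ((natDegree_C_mul_le _ _).trans hfdeg) hF1
  obtain ⟨R, δ, hδ, hloc⟩ := loc M (c₁ / κ) (c₂ / κ) (by positivity)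
  refine ⟨κ, F, R, δ, hκ0, hδ, hFm, hfF, fun y ζ hζ => ?_⟩
  set ρ := rho n y with hρ
  have hρ0 : 0 < ρ := rho_pos n y
  set g : ℝ[X] := F.map (MvPolynomial.eval y) with hg
  have hgf : g = C κ⁻¹ * f.map (MvPolynomial.eval y) := by
    rw [hg, hF, Polynomial.map_mul, map_C, MvPolynomial.eval_C]
  have hgdeg' : g.natDegree ≤ 2 * M := by
    rw [hgf]
    exact (natDegree_C_mul_le _ _).trans (hgdeg y)
  have hg1 : g.coeff (2 * M) = 1 := by
    rw [hg, coeff_map, hF1, map_one]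
  set q : ℝ[X] := C ((ρ ^ (2 * M))⁻¹) * g.comp (C ρ * X) with hq
  have hqdeg : q.natDegree ≤ 2 * M := by
    refine (natDegree_C_mul_le _ _).trans (natDegree_comp_le.trans ?_)
    have h1 : (C ρ * X : ℝ[X]).natDegree ≤ 1 := (natDegree_C_mul_le _ _).trans natDegree_X_le
    calc g.natDegree * (C ρ * X : ℝ[X]).natDegree ≤ g.natDegree * 1 := Nat.mul_le_mul_left _ h1
      _ ≤ 2 * M := by rw [mul_one]; exact hgdeg'
  have hq1 : q.coeff (2 * M) = 1 := by
    rw [hq, coeff_C_mul, comp_C_mul_X_coeff, hg1, one_mul]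
    exact inv_mul_cancel₀ (pow_ne_zero _ hρ0.ne')
  have hqv : ∀ t : ℝ, c₁ / κ * (1 + t ^ 2) ^ M ≤ q.eval t ∧
      q.eval t ≤ c₂ / κ * (1 + t ^ 2) ^ M := by
    intro t
    obtain ⟨h1, h2⟩ := hval y (ρ * t)
    have h3 : ((ρ * t) ^ 2 + ρ ^ 2) ^ M = ρ ^ (2 * M) * (1 + t ^ 2) ^ M := by
      rw [pow_mul, ← mul_pow]
      congr 1
      ring
    have h4 : q.eval t = (ρ ^ (2 * M))⁻¹ * (κ⁻¹ * (f.map (MvPolynomial.eval y)).eval (ρ * t)) := by
      rw [hq, hgf]
      simp only [eval_mul, eval_C, eval_comp, eval_X]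
    have hP : 0 < ρ ^ (2 * M) := pow_pos hρ0 _
    rw [h3] at h1 h2
    rw [h4]
    constructor
    · have h5 : c₁ / κ * (1 + t ^ 2) ^ M = (ρ ^ (2 * M))⁻¹ * (κ⁻¹ *
          (c₁ * (ρ ^ (2 * M) * (1 + t ^ 2) ^ M))) := by
        field_simp
      rw [h5]
      gcongr
    · have h5 : c₂ / κ * (1 + t ^ 2) ^ M = (ρ ^ (2 * M))⁻¹ * (κ⁻¹ *
          (c₂ * (ρ ^ (2 * M) * (1 + t ^ 2) ^ M))) := by
        field_simp
      rw [h5]
      gcongr
  have hρC : (ρ : ℂ) ≠ 0 := by exact_mod_cast hρ0.ne'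
  have hz : aeval (ζ / ρ) q = 0 := by
    have h1 : aeval ζ g = 0 := by
      rw [hg, aeval_def, eval₂_map]
      exact hζ
    rw [hq, map_mul, aeval_comp, map_mul, aeval_X, aeval_C, aeval_C]
    have h2 : (algebraMap ℝ ℂ) ρ * (ζ / ρ) = ζ := by
      show (ρ : ℂ) * (ζ / ρ) = ζ
      field_simp
    rw [h2, h1, mul_zero]
  obtain ⟨h1, h2⟩ := hloc q hqdeg hq1 hqv (ζ / ρ) hz
  rw [norm_div, Complex.norm_real, Real.norm_of_nonneg hρ0.le, div_le_iff₀ hρ0] at h1
  refine ⟨h1, ?_⟩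
  have h3 : (ζ / (ρ : ℂ)).im = ζ.im / ρ := Complex.div_ofReal_im ζ ρ
  rw [h3, abs_div, abs_of_pos hρ0, le_div_iff₀ hρ0] at h2
  exact h2

end Pool.Agent.PFL
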