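import Pool.Agent.PDF.AP
import Pool.Agent.PDF.SG3

/-!
# Row RUN: a real polynomial close to `±i` away from the real axis (MP_b906c2_al)
-/

set_option autoImplicit false

namespace Pool.Agent.PFL

open Polynomial Pool.Agent.PDF

namespace RUNaux

/-- the set `‖z‖ ≤ R`, `|Im z| ≥ δ` -/
def QQ (R δ : ℝ) : Set ℂ := {z | ‖z‖ ≤ R ∧ δ ≤ |z.im|}

/-- bounded, and uniformly approximable by real polynomials -/
def BA (Q : Set ℂ) (f : ℂ → ℂ) : Prop :=
  (∃ B : ℝ, ∀ z ∈ Q, ‖f z‖ ≤ B) ∧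
    ∀ ε : ℝ, 0 < ε → ∃ p : ℝ[X], ∀ z ∈ Q, ‖aeval z p - f z‖ ≤ ε

variable {R δ : ℝ} {f g : ℂ → ℂ}

theorem BA.congr {Q : Set ℂ} (hf : BA Q f) (h : ∀ z ∈ Q, f z = g z) : BA Q g := by
  obtain ⟨⟨B, hB⟩, hA⟩ := hf
  refine ⟨⟨B, fun z hz => h z hz ▸ hB z hz⟩, fun ε hε => ?_⟩
  obtain ⟨p, hp⟩ := hA ε hε
  exact ⟨p, fun z hz => h z hz ▸ hp z hz⟩

theorem BA.mul {Q : Set ℂ} (hf : BA Q f) (hg : BA Q g) : BA Q (fun z => f z * g z) := by
  obtain ⟨⟨A, hA⟩, hfa⟩ := hf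
  obtain ⟨⟨B, hB⟩, hga⟩ := hg
  refine ⟨⟨|A| * |B|, fun z hz => ?_⟩, fun ε hε => ?_⟩
  · rw [norm_mul]
    exact mul_le_mul ((hA z hz).trans (le_abs_self _)) ((hB z hz).trans (le_abs_self _))
      (norm_nonneg _) (abs_nonneg _)
  · set d : ℝ := min 1 (ε / (|A| + |B| + 1)) with hd
    have hd0 : 0 < d := lt_min one_pos (by positivity)
    have hd1 : d ≤ 1 := min_le_left _ _
    have hd2 : d * (|A| + |B| + 1) ≤ ε := by
      have : d ≤ ε / (|A| + |B| + 1) := min_le_right _ _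
      rwa [le_div_iff₀ (by positivity)] at this
    obtain ⟨p, hp⟩ := hfa d hd0
    obtain ⟨q, hq⟩ := hga d hd0
    refine ⟨p * q, fun z hz => ?_⟩
    have h1 := hp z hz
    have h2 := hq z hz
    have h3 : aeval z (p * q) - f z * g z = (aeval z p - f z) * (aeval z q - g z) +
        (aeval z p - f z) * g z + f z * (aeval z q - g z) := by
      rw [map_mul]; ring
    rw [h3]
    have hA' : ‖f z‖ ≤ |A| := (hA z hz).trans (le_abs_self _)
    have hB' : ‖g z‖ ≤ |B| := (hB z hz).trans (le_abs_self _)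
    calc ‖(aeval z p - f z) * (aeval z q - g z) + (aeval z p - f z) * g z +
          f z * (aeval z q - g z)‖
        ≤ ‖(aeval z p - f z) * (aeval z q - g z)‖ + ‖(aeval z p - f z) * g z‖ +
          ‖f z * (aeval z q - g z)‖ := norm_add₃_le
      _ = ‖aeval z p - f z‖ * ‖aeval z q - g z‖ + ‖aeval z p - f z‖ * ‖g z‖ +
          ‖f z‖ * ‖aeval z q - g z‖ := by rw [norm_mul, norm_mul, norm_mul]
      _ ≤ d * 1 + d * |B| + |A| * d := by
          gcongr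
          exact h2.trans hd1
      _ ≤ ε := by linarith

theorem BA.poly (p : ℝ[X]) : BA (QQ R δ) (fun z => aeval z p) := by
  refine ⟨?_, fun ε hε => ⟨p, fun z _ => by rw [sub_self, norm_zero]; exact hε.le⟩⟩
  refine ⟨∑ i ∈ Finset.range (p.natDegree + 1), |p.coeff i| * |R| ^ i, fun z hz => ?_⟩
  show ‖aeval z p‖ ≤ _
  rw [aeval_eq_sum_range]
  refine (norm_sum_le _ _).trans (Finset.sum_le_sum fun i _ => ?_)
  rw [norm_smul, norm_pow, Real.norm_eq_abs]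
  exact mul_le_mul_of_nonneg_left (pow_le_pow_left₀ (norm_nonneg _)
    (hz.1.trans (le_abs_self _)) i) (abs_nonneg _)

theorem BA.pow {Q : Set ℂ} (hQ : BA Q fun _ => 1) (hf : BA Q f) (n : ℕ) :
    BA Q (fun z => f z ^ n) := by
  induction n with
  | zero => exact hQ.congr fun z _ => (pow_zero _).symm
  | succ n ih => exact (ih.mul hf).congr fun z _ => (pow_succ _ _).symm

theorem BA.add {Q : Set ℂ} (hf : BA Q f) (hg : BA Q g) : BA Q (fun z => f z + g z) := by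
  obtain ⟨⟨A, hA⟩, hfa⟩ := hf
  obtain ⟨⟨B, hB⟩, hga⟩ := hg
  refine ⟨⟨A + B, fun z hz => (norm_add_le _ _).trans (add_le_add (hA z hz) (hB z hz))⟩,
    fun ε hε => ?_⟩
  obtain ⟨p, hp⟩ := hfa (ε / 2) (by positivity)
  obtain ⟨q, hq⟩ := hga (ε / 2) (by positivity)
  refine ⟨p + q, fun z hz => ?_⟩
  have h3 : aeval z (p + q) - (f z + g z) = (aeval z p - f z) + (aeval z q - g z) := by
    rw [map_add]; ring
  rw [h3]
  have := norm_add_le (aeval z p - f z) (aeval z q - g z)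
  linarith [hp z hz, hq z hz]

theorem BA.sum {Q : Set ℂ} (h0 : BA Q fun _ => 0) {ι : Type} (s : Finset ι) (F : ι → ℂ → ℂ)
    (h : ∀ i ∈ s, BA Q (F i)) : BA Q (fun z => ∑ i ∈ s, F i z) := by
  classical
  induction s using Finset.induction_on with
  | empty => exact h0.congr fun z _ => by simp
  | insert a s ha ih =>
    refine ((h a (Finset.mem_insert_self _ _)).add
      (ih fun i hi => h i (Finset.mem_insert_of_mem hi))).congr fun z _ => ?_
    rw [Finset.sum_insert ha]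

/-- a uniform limit with geometric error -/
theorem BA.lim {Q : Set ℂ} (hB : ∃ B : ℝ, ∀ z ∈ Q, ‖f z‖ ≤ B) (F : ℕ → ℂ → ℂ) (A : ℝ)
    (hF : ∀ n, BA Q (F n)) (h : ∀ n, ∀ z ∈ Q, ‖F n z - f z‖ ≤ (1 / 2) ^ n * A) : BA Q f := by
  refine ⟨hB, fun ε hε => ?_⟩
  obtain ⟨n, hn⟩ := exists_pow_lt_of_lt_one (show (0 : ℝ) < ε / 2 / (|A| + 1) by positivity)
    (show (1 / 2 : ℝ) < 1 by norm_num)
  rw [lt_div_iff₀ (by positivity)] at hn
  obtain ⟨p, hp⟩ := (hF n).2 (ε / 2) (by positivity)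
  refine ⟨p, fun z hz => ?_⟩
  have h1 := hp z hz
  have h2 := h n z hz
  have h3 : (1 / 2 : ℝ) ^ n * A ≤ (1 / 2) ^ n * (|A| + 1) :=
    mul_le_mul_of_nonneg_left (by linarith [le_abs_self A]) (by positivity)
  have h4 : aeval z p - f z = (aeval z p - F n z) + (F n z - f z) := by ring
  rw [h4]
  have := norm_add_le (aeval z p - F n z) (F n z - f z)
  linarith

theorem norm_ge {z : ℂ} (hz : z ∈ QQ R δ) (t : ℝ) : δ ≤ ‖z - t‖ := by
  have h1 := Complex.abs_im_le_norm (z - t)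
  simp only [Complex.sub_im, Complex.ofReal_im, sub_zero] at h1
  exact hz.2.trans h1

theorem ne_zero (hδ : 0 < δ) {z : ℂ} (hz : z ∈ QQ R δ) (t : ℝ) : z - t ≠ 0 := by
  intro h
  have := norm_ge hz t
  rw [h, norm_zero] at this
  linarith

theorem inv_bdd (hδ : 0 < δ) (t : ℝ) : ∀ z ∈ QQ R δ, ‖(z - t)⁻¹‖ ≤ δ⁻¹ := by
  intro z hz
  rw [norm_inv]
  exact inv_anti₀ hδ (norm_ge hz t)

/-- geometric sums -/
theorem geom_id (u a : ℂ) (hu : u ≠ 0) (hua : u - a ≠ 0) (n : ℕ) :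
    ∑ k ∈ Finset.range n, a ^ k * (u⁻¹) ^ (k + 1) - (u - a)⁻¹ = - (a * u⁻¹) ^ n * (u - a)⁻¹ := by
  induction n with
  | zero => simp
  | succ n ih =>
    rw [Finset.sum_range_succ]
    have h1 : ∑ k ∈ Finset.range n, a ^ k * (u⁻¹) ^ (k + 1) =
        (u - a)⁻¹ - (a * u⁻¹) ^ n * (u - a)⁻¹ := by linear_combination ih
    rw [h1]
    have h2 : u⁻¹ = (u - a)⁻¹ * (1 - a * u⁻¹) := by
      field_simp
    have h3 : a ^ n * u⁻¹ ^ (n + 1) = (a * u⁻¹) ^ n * u⁻¹ := by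
      rw [pow_succ, mul_pow]; ring
    rw [h3, pow_succ]
    linear_combination (a * u⁻¹) ^ n * h2

/-- far away -/
theorem far (hδ : 0 < δ) (hR : 0 ≤ R) (t : ℝ) (ht : 2 * R + 1 ≤ t) :
    BA (QQ R δ) (fun z => (z - t)⁻¹) := by
  have ht0 : 0 < t := by linarith
  refine BA.lim ⟨_, inv_bdd hδ t⟩
    (fun n z => - ∑ k ∈ Finset.range n, z ^ k * ((t : ℂ)⁻¹) ^ (k + 1)) δ⁻¹ ?_ ?_
  · intro n
    refine (BA.poly (- ∑ k ∈ Finset.range n, C ((t⁻¹) ^ (k + 1)) * X ^ k)).congr fun z _ => ?_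
    simp only [map_neg, map_sum, map_mul, map_pow, aeval_C, aeval_X]
    congr 1
    refine Finset.sum_congr rfl fun k _ => ?_
    simp only [Complex.coe_algebraMap, Complex.ofReal_inv]
    ring
  · intro n z hz
    have htC : (t : ℂ) ≠ 0 := by exact_mod_cast ht0.ne'
    have hzt : (t : ℂ) - z ≠ 0 := by
      rw [← neg_sub]
      exact neg_ne_zero.2 (ne_zero hδ hz t)
    have h1 := geom_id (t : ℂ) z htC hzt n
    have h2 : -∑ k ∈ Finset.range n, z ^ k * ((t : ℂ)⁻¹) ^ (k + 1) - (z - t)⁻¹ =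
        -(∑ k ∈ Finset.range n, z ^ k * ((t : ℂ)⁻¹) ^ (k + 1) - ((t : ℂ) - z)⁻¹) := by
      rw [← neg_sub (t : ℂ) z, inv_neg]; ring
    rw [h2, h1, norm_neg, neg_mul, norm_neg, norm_mul, norm_pow, ← neg_sub z (t : ℂ), inv_neg,
      norm_neg]
    refine mul_le_mul ?_ (inv_bdd hδ t z hz) (norm_nonneg _) (by positivity)
    refine pow_le_pow_left₀ (norm_nonneg _) ?_ n
    rw [norm_mul, norm_inv, Complex.norm_real, Real.norm_of_nonneg ht0.le, ← div_eq_mul_inv,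
      div_le_iff₀ ht0]
    have := hz.1
    linarith

/-- a step of length `δ / 2` -/
theorem step (hδ : 0 < δ) (t t' : ℝ) (h : |t - t'| ≤ δ / 2)
    (ht' : BA (QQ R δ) (fun z => (z - t')⁻¹)) : BA (QQ R δ) (fun z => (z - t)⁻¹) := by
  have hone : BA (QQ R δ) (fun _ => (1 : ℂ)) := (BA.poly 1).congr fun z _ => map_one _
  have hzero : BA (QQ R δ) (fun _ => (0 : ℂ)) := (BA.poly 0).congr fun z _ => map_zero _
  refine BA.lim ⟨_, inv_bdd hδ t⟩
    (fun n z => ∑ k ∈ Finset.range n, ((t - t' : ℝ) : ℂ) ^ k * ((z - t')⁻¹) ^ (k + 1)) δ⁻¹ ?_ ?_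
  · intro n
    refine BA.sum hzero _ _ fun k _ => BA.mul ?_ (BA.pow hone ht' (k + 1))
    refine (BA.poly (C ((t - t') ^ k))).congr fun z _ => ?_
    simp
  · intro n z hz
    have h1 := geom_id (z - t') ((t - t' : ℝ) : ℂ) (ne_zero hδ hz t') (by
      push_cast
      rw [sub_sub_sub_cancel_right]
      exact ne_zero hδ hz t) n
    have h2 : z - (t' : ℂ) - ((t - t' : ℝ) : ℂ) = z - t := by push_cast; ring
    rw [h2] at h1
    rw [h1, neg_mul, norm_neg, norm_mul, norm_pow]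
    refine mul_le_mul ?_ (inv_bdd hδ t z hz) (norm_nonneg _) (by positivity)
    refine pow_le_pow_left₀ (norm_nonneg _) ?_ n
    rw [norm_mul, Complex.norm_real, Real.norm_eq_abs]
    calc |t - t'| * ‖(z - (t' : ℂ))⁻¹‖ ≤ δ / 2 * δ⁻¹ :=
          mul_le_mul h (inv_bdd hδ t' z hz) (norm_nonneg _) (by positivity)
      _ = 1 / 2 := by field_simp

theorem inv_sub (hδ : 0 < δ) (hR : 0 ≤ R) (t : ℝ) : BA (QQ R δ) (fun z => (z - t)⁻¹) := by
  have h : ∀ n : ℕ, ∀ t : ℝ, 2 * R + 1 ≤ t + n * (δ / 2) →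
      BA (QQ R δ) (fun z => (z - t)⁻¹) := by
    intro n
    induction n with
    | zero => intro t ht; exact far hδ hR t (by simpa using ht)
    | succ n ih =>
      intro t ht
      refine step hδ t (t + δ / 2) ?_ (ih _ ?_)
      · rw [sub_add_cancel_left, abs_neg, abs_of_pos (by positivity)]
      · push_cast at ht
        linarith
  obtain ⟨n, hn⟩ := exists_nat_ge ((2 * R + 1 - t) / (δ / 2))
  refine h n t ?_
  rw [div_le_iff₀ (by positivity)] at hn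
  linarith

/-- inverses of real polynomials with real roots -/
theorem inv_poly (hδ : 0 < δ) (hR : 0 ≤ R) : ∀ (n : ℕ) (D : ℝ[X]), D.natDegree = n → D ≠ 0 →
    (∀ z : ℂ, aeval z D = 0 → z.im = 0) → BA (QQ R δ) (fun z => (aeval z D)⁻¹) := by
  intro n
  induction n with
  | zero =>
    intro D hD hD0 _
    obtain ⟨c, rfl⟩ := natDegree_eq_zero.1 hD
    refine (BA.poly (C c⁻¹)).congr fun z _ => ?_
    simp
  | succ n ih =>
    intro D hD hD0 hroot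
    obtain ⟨z, hz⟩ : ∃ z : ℂ, aeval z D = 0 := by
      have h1 : (D.map (algebraMap ℝ ℂ)).degree ≠ 0 := by
        rw [degree_map, degree_eq_natDegree hD0, hD]
        exact_mod_cast Nat.succ_ne_zero n
      obtain ⟨z, hz⟩ := IsAlgClosed.exists_root _ h1
      refine ⟨z, ?_⟩
      rwa [IsRoot, eval_map_algebraMap] at hz
    obtain ⟨t, rfl⟩ : ∃ t : ℝ, z = t := ⟨z.re, by
      apply Complex.ext
      · simp
      · simp [hroot z hz]⟩
    have ht : D.IsRoot t := by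
      have h1 : aeval ((algebraMap ℝ ℂ) t) D = algebraMap ℝ ℂ (D.eval t) := by
        rw [aeval_algebraMap_apply, coe_aeval_eq_eval]
      have h2 : algebraMap ℝ ℂ (D.eval t) = 0 := by
        rw [← h1]; exact hz
      exact (map_eq_zero (algebraMap ℝ ℂ)).1 h2
    obtain ⟨D', rfl⟩ := dvd_iff_isRoot.2 ht
    have hD'0 : D' ≠ 0 := right_ne_zero_of_mul hD0
    have hdeg : D'.natDegree = n := by
      rw [natDegree_mul (X_sub_C_ne_zero t) hD'0, natDegree_X_sub_C] at hD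
      omega
    have h1 := ih D' hdeg hD'0 fun z hz => hroot z (by rw [map_mul, hz, mul_zero])
    refine ((inv_sub hδ hR t).mul h1).congr fun z _ => ?_
    rw [map_mul, mul_inv, map_sub, aeval_X, aeval_C]
    rfl

end RUNaux

open RUNaux in
theorem RUN (R δ ε : ℝ) (hδ : 0 < δ) (hε : 0 < ε) :
    ∃ a : ℝ[X], ∀ ζ : ℂ, ‖ζ‖ ≤ R → δ ≤ |ζ.im| → ‖(aeval ζ a) ^ 2 + 1‖ ≤ ε := by
  by_cases hne : ∃ z : ℂ, ‖z‖ ≤ R ∧ δ ≤ |z.im|
  swap
  · exact ⟨0, fun ζ h1 h2 => absurd ⟨ζ, h1, h2⟩ hne⟩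
  obtain ⟨z₀, hz₀⟩ := hne
  have hR : 0 ≤ R := (norm_nonneg z₀).trans hz₀.1
  set η : ℝ := min 1 (ε / 8) with hη
  have hη0 : 0 < η := lt_min one_pos (by positivity)
  have hη1 : η ≤ 1 := min_le_left _ _
  have hη2 : 8 * η ≤ ε := by
    have : η ≤ ε / 8 := min_le_right _ _
    linarith
  obtain ⟨J, hJ⟩ := Pool.Agent.PDF.Rows.AP δ R 1 η hδ hη0
  obtain ⟨N, D, hND⟩ : ∃ N D : ℝ[X], ∀ z : ℂ, pq z 1 J = (aeval z N, aeval z D) := by
    refine ⟨(pq (X : ℝ[X]) 1 J).1, (pq (X : ℝ[X]) 1 J).2, fun z => ?_⟩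
    have h := pq_map ((aeval z : ℝ[X] →ₐ[ℝ] ℂ) : ℝ[X] →+* ℂ) X 1 J
    simpa using h
  have hsgn : ∀ z ∈ QQ R δ, ∃ s : ℂ, s ^ 2 = -1 ∧ ‖s‖ = 1 ∧ aeval z D ≠ 0 ∧
      ‖aeval z N * (aeval z D)⁻¹ - s‖ ≤ η := by
    intro z hz
    have h1 := hJ 1 z le_rfl le_rfl hz.1
    rw [Complex.ofReal_one, one_pow, hND z] at h1
    rcases le_abs.1 hz.2 with h2 | h2
    · obtain ⟨h3, h4⟩ := h1.1 h2
      refine ⟨Complex.I, Complex.I_sq, Complex.norm_I, h3, ?_⟩
      rw [← div_eq_mul_inv]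
      simpa using h4
    · obtain ⟨h3, h4⟩ := h1.2 (by linarith)
      refine ⟨-Complex.I, by rw [neg_sq, Complex.I_sq], by rw [norm_neg, Complex.norm_I], h3, ?_⟩
      rw [← div_eq_mul_inv, sub_neg_eq_add]
      simpa using h4
  have hJ0 : J ≠ 0 := by
    rintro rfl
    obtain ⟨-, -, -, h, -⟩ := hsgn z₀ hz₀
    have h1 := hND z₀
    simp only [pq, Prod.mk.injEq] at h1
    exact h h1.2.symm
  have hroot : ∀ z : ℂ, aeval z D = 0 → z.im = 0 := by
    intro z hz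
    have h1 := Pool.Agent.PDF.Rows.APaux.pq_add z 1 Complex.I (by rw [Complex.I_sq]) J
    have h2 := Pool.Agent.PDF.Rows.APaux.pq_sub z 1 Complex.I (by rw [Complex.I_sq]) J
    rw [hND z] at h1 h2
    simp only [hz, mul_zero, add_zero, sub_zero] at h1 h2
    have h3 : ‖z + Complex.I‖ ^ J = ‖z - Complex.I‖ ^ J := by
      rw [← norm_pow, ← norm_pow, ← h1, ← h2]
    have h4 : ‖z + Complex.I‖ = ‖z - Complex.I‖ :=
      (pow_left_inj₀ (norm_nonneg _) (norm_nonneg _) hJ0).1 h3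
    have h5 := Pool.Agent.PDF.Rows.APaux.normsq_diff z 1
    simp only [Complex.ofReal_one, mul_one] at h5
    rw [h4, sub_self] at h5
    linarith
  have hD0 : D ≠ 0 := by
    rintro rfl
    obtain ⟨-, -, -, h, -⟩ := hsgn z₀ hz₀
    exact h (map_zero _)
  have hBA : BA (QQ R δ) (fun z => aeval z N * (aeval z D)⁻¹) :=
    (BA.poly N).mul (inv_poly hδ hR _ D rfl hD0 hroot)
  obtain ⟨a, ha⟩ := hBA.2 η hη0
  refine ⟨a, fun ζ h1 h2 => ?_⟩
  obtain ⟨s, hs, hs1, -, hs2⟩ := hsgn ζ ⟨h1, h2⟩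
  have h3 : ‖aeval ζ a - s‖ ≤ 2 * η := by
    have h4 := ha ζ ⟨h1, h2⟩
    have h5 := norm_add_le (aeval ζ a - aeval ζ N * (aeval ζ D)⁻¹)
      (aeval ζ N * (aeval ζ D)⁻¹ - s)
    rw [sub_add_sub_cancel] at h5
    linarith
  have h6 : (aeval ζ a) ^ 2 + 1 = (aeval ζ a - s) ^ 2 + 2 * s * (aeval ζ a - s) := by
    linear_combination hs
  rw [h6]
  have h7 := norm_nonneg (aeval ζ a - s)
  calc ‖(aeval ζ a - s) ^ 2 + 2 * s * (aeval ζ a - s)‖
      ≤ ‖(aeval ζ a - s) ^ 2‖ + ‖2 * s * (aeval ζ a - s)‖ := norm_add_le _ _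
    _ = ‖aeval ζ a - s‖ ^ 2 + 2 * ‖aeval ζ a - s‖ := by
        rw [norm_pow, norm_mul, norm_mul, hs1]
        simp
    _ ≤ ε := by nlinarith

end Pool.Agent.PFL
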