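import Pool.Agent.PFL.Defs
import Pool.Agent.PFS.ENG3
import Pool.Agent.PFS.RED

/-!
# Good polynomials in `n ≥ 1` variables are sums of `2 n` squares (MP_b906c2_al, project PFL)
-/

set_option autoImplicit false

namespace Pool.Agent.PFL

open Polynomial Pool.Agent.PDF Pool.Agent.PFI Pool.Agent.PFS

namespace UBaux

theorem ne_of_W {n : ℕ} {G : RP n} (hG : W n G) : algebraMap (RP n) (kk n) G ≠ 0 := by
  obtain ⟨c₁, c₂, M, h1, h2⟩ := hG
  intro h
  have h3 : G = 0 := (map_eq_zero_iff _ (IsFractionRing.injective (RP n) (kk n))).1 h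
  have h4 := (h2 0).1
  rw [h3, map_zero] at h4
  have := mul_pos h1 (pow_pos (rho_pos n 0) M)
  linarith

/-- a monic real polynomial with a negative value has a root -/
theorem real_root (P : ℝ[X]) (hP : P.Monic) (c : ℝ) (hc : P.eval c < 0) :
    ∃ t, P.eval t = 0 := by
  have hd : 0 < P.degree := by
    by_contra h
    push Not at h
    have h1 : P = 1 := hP.natDegree_eq_zero.1 (natDegree_eq_zero_iff_degree_le_zero.2 h)
    rw [h1, eval_one] at hc
    linarith
  have h1 := P.tendsto_atTop_of_leadingCoeff_nonneg hd (by rw [hP.leadingCoeff]; norm_num)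
  obtain ⟨b, hb⟩ := ((Filter.tendsto_atTop.1 h1 0).and (Filter.eventually_ge_atTop c)).exists
  obtain ⟨t, -, ht⟩ := intermediate_value_Icc hb.2 (P.continuous.continuousOn)
    ⟨hc.le, hb.1⟩
  exact ⟨t, ht⟩

/-- roots over `kk 0` -/
theorem root0 (P : (kk 0)[X]) (hP : P.Monic) (c : kk 0) (G' : RP 0) (hG' : W 0 G')
    (hc : P.eval c = -algebraMap (RP 0) (kk 0) G') : ∃ t : kk 0, P.eval t = 0 := by
  have hinj : Function.Injective (MvPolynomial.eval (0 : Fin 0 → ℝ) : RP 0 →+* ℝ) := by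
    intro p q h
    rw [MvPolynomial.eq_C_of_isEmpty p, MvPolynomial.eq_C_of_isEmpty q] at h ⊢
    simp only [MvPolynomial.eval_C] at h
    rw [h]
  let e : kk 0 →+* ℝ := IsFractionRing.lift (A := RP 0) hinj
  have he : ∀ p : RP 0, e (algebraMap _ _ p) = MvPolynomial.eval 0 p := fun p =>
    IsFractionRing.lift_algebraMap hinj p
  have h1 : (P.map e).eval (e c) < 0 := by
    rw [eval_map_apply, hc, map_neg, he]
    obtain ⟨c₁, c₂, M, h1, h2⟩ := hG'
    have h4 := (h2 0).1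
    have := mul_pos h1 (pow_pos (rho_pos 0 0) M)
    linarith
  obtain ⟨t, ht⟩ := real_root _ (hP.map e) _ h1
  refine ⟨algebraMap (RP 0) (kk 0) (MvPolynomial.C t), ?_⟩
  apply e.injective
  rw [← eval_map_apply, he, MvPolynomial.eval_C, ht, map_zero]

end UBaux

open UBaux in
theorem units_of
    -- ROOT and EU
    (hstep : ∀ (n : ℕ) (G : RP (n + 1)), W (n + 1) G → ∃ (κ : ℝ) (F : (RP n)[X]), 0 < κ ∧ F.Monic ∧
      MvPolynomial.finSuccEquiv ℝ n G = C (MvPolynomial.C κ) * F ∧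
      ∀ H : (kk n)[X], H.Monic → Squarefree H → 0 < H.natDegree →
        H ∣ F.map (algebraMap (RP n) (kk n)) →
        ∃ (P : (kk n)[X]) (Ξ U V : (kk n)[X][X]) (a : Fin 1 → (kk n)[X]) (c : kk n) (G' : RP n),
          P.Monic ∧ P.eval c = -algebraMap (RP n) (kk n) G' ∧ W n G' ∧
          IsCoprime (∑ i, a i ^ 2) H ∧
          Ξ ^ 2 + (∑ i, a i ^ 2).map C = C P * U + H.map C * V)
    (N : ℕ) (hN : 1 ≤ N) (G : RP N) (hG : W N G) :
    SS (2 * N) (algebraMap (RP N) (kk N) G) := by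
  obtain ⟨n, rfl⟩ : ∃ n, N = n + 1 := ⟨N - 1, by omega⟩
  clear hN
  induction n with
  | zero =>
    obtain ⟨κ, F, hκ, hF, hGF, h⟩ := hstep 0 G hG
    obtain ⟨φ, hφ⟩ := exists_embed 0
    set y : kk (0 + 1) := algebraMap (MvPolynomial (Fin (0 + 1)) ℝ) _ (MvPolynomial.X 0) with hy
    obtain ⟨A, H, hA, hH, hHs, hFH⟩ := REDaux.sqfree _ (F.map (algebraMap (RP 0) (kk 0)))
      (hF.map _) le_rfl
    have hev : algebraMap (RP (0 + 1)) (kk (0 + 1)) G =
        (algebraMap (RP (0 + 1)) (kk (0 + 1)) (MvPolynomial.C (Real.sqrt κ)) * A.eval₂ φ y) ^ 2 *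
          H.eval₂ φ y := by
      rw [← REDaux.eval_toP 0 φ hφ G, REDaux.toP, hGF, Polynomial.map_mul, hFH,
        Polynomial.map_C, Polynomial.eval₂_mul, Polynomial.eval₂_mul, Polynomial.eval₂_pow,
        Polynomial.eval₂_C, hφ, MvPolynomial.rename_C, mul_pow, ← map_pow, ← MvPolynomial.C_pow,
        Real.sq_sqrt hκ.le]
      ring
    rw [hev]
    refine SS_sq_mul ?_ _
    rcases Nat.eq_zero_or_pos H.natDegree with hd | hd
    · have : H = 1 := hH.natDegree_eq_zero.1 hd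
      rw [this, eval₂_one]
      exact ⟨fun i => if i = 0 then 1 else 0, by simp⟩
    · obtain ⟨P, Ξ, U, V, a, c, G', hP, hc, hG', hco, hid⟩ := h H hH hHs hd ⟨A ^ 2, by
        rw [hFH]; ring⟩
      obtain ⟨t, ht⟩ := root0 P hP c G' hG' hc
      have h2 : (2 : kk (0 + 1)) ≠ 0 := (FR_kk (0 + 1)).two
      exact ENGaux.inner 0 1 (by norm_num) H P Ξ U V a hH hco hid h2 φ (φ t) (by
        rw [eval₂_at_apply, ht, map_zero]) y
  | succ n ih =>
    obtain ⟨κ, F, hκ, hF, hGF, h⟩ := hstep (n + 1) G hG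
    obtain ⟨φ, hφ⟩ := exists_embed (n + 1)
    set y : kk (n + 1 + 1) := algebraMap (MvPolynomial (Fin (n + 1 + 1)) ℝ) _ (MvPolynomial.X 0)
      with hy
    obtain ⟨A, H, hA, hH, hHs, hFH⟩ := REDaux.sqfree _
      (F.map (algebraMap (RP (n + 1)) (kk (n + 1)))) (hF.map _) le_rfl
    have hev : algebraMap (RP (n + 1 + 1)) (kk (n + 1 + 1)) G =
        (algebraMap (RP (n + 1 + 1)) (kk (n + 1 + 1)) (MvPolynomial.C (Real.sqrt κ)) *
          A.eval₂ φ y) ^ 2 * H.eval₂ φ y := by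
      rw [← REDaux.eval_toP (n + 1) φ hφ G, REDaux.toP, hGF, Polynomial.map_mul, hFH,
        Polynomial.map_C, Polynomial.eval₂_mul, Polynomial.eval₂_mul, Polynomial.eval₂_pow,
        Polynomial.eval₂_C, hφ, MvPolynomial.rename_C, mul_pow, ← map_pow, ← MvPolynomial.C_pow,
        Real.sq_sqrt hκ.le]
      ring
    rw [hev]
    refine SS_sq_mul ?_ _
    rcases Nat.eq_zero_or_pos H.natDegree with hd | hd
    · have : H = 1 := hH.natDegree_eq_zero.1 hd
      rw [this, eval₂_one]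
      exact ⟨fun i => if i = 0 then 1 else 0, by simp⟩
    · obtain ⟨P, Ξ, U, V, a, c, G', hP, hc, hG', hco, hid⟩ := h H hH hHs hd ⟨A ^ 2, by
        rw [hFH]; ring⟩
      have h3 := ENG3 0 1 (n + 1) (by norm_num) H P Ξ U V a c hH hP
        (by rw [hc]; exact neg_ne_zero.2 (ne_of_W hG')) (by
          rw [hc, neg_neg]
          have := ih G' hG'
          rwa [pow_one, mul_comm]) hco hid (FR_kk (n + 1 + 1)) φ y
      rw [pow_one, mul_comm] at h3
      exact h3

end Pool.Agent.PFL
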