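import Pool.Agent.PFL.EU
import Pool.Agent.PFL.UB
import Pool.Agent.PFL.RUN
import Pool.Agent.PFL.ROOT
import Pool.Agent.PFL.ISR

/-!
# Good polynomials in `N ≥ 1` variables are sums of `2 N` squares
-/

set_option autoImplicit false

namespace Pool.Agent.PFL

open Polynomial Pool.Agent.PDF Pool.Agent.PFI Pool.Agent.PFS

theorem EU (n : ℕ) (F : (RP n)[X]) (hF : F.Monic) (R δ : ℝ) (hδ : 0 < δ)
    (hloc : ∀ (y : Fin n → ℝ) (ζ : ℂ),
        F.eval₂ ((algebraMap ℝ ℂ).comp (MvPolynomial.eval y)) ζ = 0 →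
        ‖ζ‖ ≤ R * rho n y ∧ δ * rho n y ≤ |ζ.im|)
    (H : (kk n)[X]) (hH : H.Monic) (hHs : Squarefree H) (hHd : 0 < H.natDegree)
    (hdvd : H ∣ F.map (algebraMap (RP n) (kk n))) :
    ∃ (P : (kk n)[X]) (Ξ U V : (kk n)[X][X]) (a : Fin 1 → (kk n)[X]) (c : kk n) (G' : RP n),
      P.Monic ∧ P.eval c = -algebraMap (RP n) (kk n) G' ∧ W n G' ∧
      IsCoprime (∑ i, a i ^ 2) H ∧
      Ξ ^ 2 + (∑ i, a i ^ 2).map C = C P * U + H.map C * V := by
  have hz : ∀ z ∈ Zs H, IsIntegral (RP n) z := by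
    intro z hz
    have h1 := (INTaux.mem_Zs' hH.ne_zero).1 hz
    obtain ⟨Q, hQ⟩ := hdvd
    have h2 : aeval z (F.map (algebraMap (RP n) (kk n))) = 0 := by
      rw [hQ, map_mul, h1, zero_mul]
    rw [aeval_def, eval₂_map, ← IsScalarTower.algebraMap_eq] at h2
    exact ⟨F, hF, h2⟩
  have hne : (Zs H).Nonempty := by
    rw [← Finset.card_pos, INTaux.card_Zs' hHs]
    exact hHd
  exact EU_of n (fun R δ ε h1 h2 => RUN R δ ε h1 h2) F hF R δ hδ hloc H hH hHs hHd hdvd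
    (fun ξ hξ η hη => INAr H hz ξ hξ η hη) (SIAr H hne)

theorem units_root
    (hROOT : ∀ (n : ℕ) (G : RP (n + 1)), W (n + 1) G →
      ∃ (κ : ℝ) (F : (RP n)[X]) (R δ : ℝ), 0 < κ ∧ 0 < δ ∧ F.Monic ∧
        MvPolynomial.finSuccEquiv ℝ n G = C (MvPolynomial.C κ) * F ∧
        ∀ (y : Fin n → ℝ) (ζ : ℂ),
          F.eval₂ ((algebraMap ℝ ℂ).comp (MvPolynomial.eval y)) ζ = 0 →
          ‖ζ‖ ≤ R * rho n y ∧ δ * rho n y ≤ |ζ.im|)
    (N : ℕ) (hN : 1 ≤ N) (G : RP N) (hG : W N G) :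
    SS (2 * N) (algebraMap (RP N) (kk N) G) := by
  refine units_of (fun n G hG => ?_) N hN G hG
  obtain ⟨κ, F, R, δ, hκ, hδ, hF, hGF, hloc⟩ := hROOT n G hG
  exact ⟨κ, F, hκ, hF, hGF, fun H hH hHs hHd hdvd => EU n F hF R δ hδ hloc H hH hHs hHd hdvd⟩

/-- A polynomial comparable with a power of `rho N` is a sum of `2 N` squares. -/
theorem units (N : ℕ) (hN : 1 ≤ N) (G : RP N) (hG : W N G) :
    SS (2 * N) (algebraMap (RP N) (kk N) G) :=
  units_root (fun n G hG => ROOT n G hG) N hN G hG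

end Pool.Agent.PFL
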