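import Pool.Agent.PFI.SU
import Pool.Agent.PFL.Defs

/-!
# Weighted Noether normalisation of a quadratic extension inside the ground field (row SUW)
-/

set_option autoImplicit false

namespace Pool.Agent.PFL

open Polynomial Pool.Agent.PDF Pool.Agent.PFI

/-- the weight of `y_j` -/
def wt (N : ℕ) (j : Fin N) : ℕ := 2 ^ (N - 1 - j)

theorem wt_pos (N : ℕ) (j : Fin N) : 0 < wt N j := Nat.pow_pos (by norm_num)

/-- A finite extension `L` of `ℝ(y₁,…,y_N)` with elements `w i`, `∑ w i ^ 2 = 0`, integral in the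
homogeneous sense over `ℝ[v₀,…,v_N]`, where `v₀ = 1` and `v_{j+1} ^ (weight of y_j) = y_j`. -/
structure SetupW (N : ℕ) (L : Type) [Field L] [Algebra (kk N) L] (ι : Type) [Fintype ι]
    (w : ι → L) (v : Fin (N + 1) → L) (C : Fin (N + 1) → ι → ℝ) : Prop where
  fin : FiniteDimensional (kk N) L
  iso : ∑ i, w i ^ 2 = 0
  lin : ∀ a, ∑ i, algebraMap (kk N) L (algebraMap ℝ (kk N) (C a i)) * w i = v a
  v0 : v 0 = 1
  vs : ∀ j : Fin N, v j.succ ^ wt N j =
    algebraMap (kk N) L (algebraMap (RP N) (kk N) (MvPolynomial.X j))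
  int : ∀ i, ∃ (e : ℕ) (c : Fin e → MvPolynomial (Fin (N + 1)) ℝ),
    (∀ k, (c k).IsHomogeneous (e - k)) ∧
    w i ^ e + ∑ k : Fin e, MvPolynomial.eval₂ ((algebraMap (kk N) L).comp
      (algebraMap ℝ (kk N))) v (c k) * w i ^ (k : ℕ) = 0

namespace SUWaux

theorem hi_map {K L α : Type} [Field K] [Algebra ℝ K] [Field L] [Algebra ℝ L] (ψ : K →ₐ[ℝ] L)
    (l : α → K) (x : K) (h : NNaux.HI l x) : NNaux.HI (fun a => ψ (l a)) (ψ x) := by
  obtain ⟨e, c, hc, hx⟩ := h
  refine ⟨e, c, hc, ?_⟩
  rw [← map_zero ψ, ← hx, map_add, map_pow, map_sum]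
  congr 1
  refine Finset.sum_congr rfl fun k _ => ?_
  rw [map_mul, map_pow, MvPolynomial.comp_aeval_apply]

/-- square root of minus a sum of squares of homogeneous integral elements -/
theorem hi_sq {L α ι : Type} [Field L] [Algebra ℝ L] [Fintype ι] (l : α → L) (g : ι → L)
    (hg : ∀ i, NNaux.HI l (g i)) (x : L) (hx : x ^ 2 = - ∑ i, g i ^ 2) : NNaux.HI l x := by
  apply NNaux.hi_of_gi
  let _ := (NNaux.ph l : MvPolynomial α ℝ →+* L[X]).toAlgebra
  have h1 : ∀ i, (C (g i) * X : L[X]) ∈ integralClosure (MvPolynomial α ℝ) L[X] :=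
    fun i => NNaux.gi_of_hi (hg i)
  have h2 : (C x * X : L[X]) ^ 2 ∈ integralClosure (MvPolynomial α ℝ) L[X] := by
    have h3 : (C x * X : L[X]) ^ 2 = - ∑ i, (C (g i) * X) ^ 2 := by
      simp only [mul_pow, ← C_pow]
      rw [← Finset.sum_mul, hx, ← map_sum, map_neg, neg_mul]
    rw [h3]
    exact neg_mem (sum_mem fun i _ => pow_mem (h1 i) 2)
  have h4 : IsIntegral (MvPolynomial α ℝ) ((C x * X : L[X]) ^ 2) := h2
  exact IsIntegral.of_pow two_pos h4

/-- powers of algebraically independent elements -/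
theorem ai_pow {K : Type} [Field K] [Algebra ℝ K] {d : ℕ} {x : Fin d → K}
    (hx : AlgebraicIndependent ℝ x) (n : Fin d → ℕ) (hn : ∀ j, 0 < n j) :
    AlgebraicIndependent ℝ fun j => x j ^ n j := by
  have h := hx.polynomial_aeval_of_transcendental (f := fun j => X ^ n j)
    (fun j => (Polynomial.transcendental_X ℝ).pow (hn j))
  simpa using h

end SUWaux

open SUWaux

theorem SUW (N : ℕ) {L : Type} [Field L] (ψ : kk N →+* L) (e : L) (F : kk N) (hF : F ≠ 0)
    (he : e ^ 2 = - ψ F) (hs : ∀ z : L, ∃ a b : kk N, z = ψ a + e * ψ b) (r : ℕ)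
    (f : Fin r → kk N) (hf : F = ∑ i, f i ^ 2) :
    ∃ (θ : kk N →+* kk N) (ι : Type) (_ : Fintype ι) (w : ι → L) (v : Fin (N + 1) → L)
      (C : Fin (N + 1) → ι → ℝ),
      letI := (ψ.comp θ).toAlgebra
      SetupW N L ι w v C := by
  classical
  let algR : Algebra ℝ L := (ψ.comp (algebraMap ℝ (kk N))).toAlgebra
  have hRdef : ∀ c : ℝ, algebraMap ℝ L c = ψ (algebraMap ℝ (kk N) c) := fun _ => rfl
  let ψa : kk N →ₐ[ℝ] L := { ψ with commutes' := fun _ => rfl }
  have hψa : ∀ x, ψa x = ψ x := fun _ => rfl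
  set p : Option (Fin r) → L := fun i => Option.elim i e (fun i => ψ (f i)) with hp
  set w : Option (Fin r) × Fin (N + 1) → L := fun ij => p ij.1 * ψ (vv N ij.2) with hwdef
  set g : Fin r × Fin (N + 1) → kk N := fun ij => f ij.1 * vv N ij.2 with hg
  have hg0 : ∃ i, g i ≠ 0 := by
    by_contra hcon
    push Not at hcon
    apply hF
    rw [hf]
    refine Finset.sum_eq_zero fun i _ => ?_
    have h1 := hcon (i, 0)
    have hv0 : vv N 0 = 1 := rfl
    have h2 : f i = 0 := by simpa [hg, hv0] using h1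
    rw [h2]; ring
  obtain ⟨d, C, hC1, hC2⟩ := NN g hg0
  set l : Fin (d + 1) → kk N := fun a => ∑ i, algebraMap ℝ (kk N) (C a i) * g i with hldef
  obtain ⟨hl0, hai⟩ := SUaux.ai l hC1
  -- the homomorphism
  set y : Fin d → kk N := fun j => (l j.succ / l 0) ^ wt d j with hy
  have hai2 : AlgebraicIndependent ℝ y := ai_pow hai _ (wt_pos d)
  have hinj : Function.Injective (MvPolynomial.aeval (R := ℝ) y) := hai2
  let θ : kk d →+* kk N := IsFractionRing.lift (A := MvPolynomial (Fin d) ℝ)
    (g := (MvPolynomial.aeval (R := ℝ) y).toRingHom) hinj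
  have hθ : ∀ q : MvPolynomial (Fin d) ℝ, θ (algebraMap _ (kk d) q) =
      MvPolynomial.aeval y q := fun q => IsFractionRing.lift_algebraMap hinj q
  have hθR : ∀ c : ℝ, θ (algebraMap ℝ (kk d) c) = algebraMap ℝ (kk N) c := by
    intro c
    rw [IsScalarTower.algebraMap_apply ℝ (MvPolynomial (Fin d) ℝ) (kk d), hθ]
    exact MvPolynomial.aeval_C _ _
  let algK : Algebra (kk d) L := (ψ.comp θ).toAlgebra
  have hKdef : ∀ c : kk d, algebraMap (kk d) L c = ψ (θ c) := fun _ => rfl
  have hKR : (algebraMap (kk d) L).comp (algebraMap ℝ (kk d)) = algebraMap ℝ L := by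
    ext c
    rw [RingHom.comp_apply, hKdef, hθR, hRdef]
  set lL : Fin (d + 1) → L := fun a => ψ (l a) with hlL
  have hl0' : lL 0 ≠ 0 := (map_ne_zero ψ).2 hl0
  set w' : Option (Fin r) × Fin (N + 1) → L := fun i => w i / lL 0 with hw'def
  set v : Fin (d + 1) → L := fun a => lL a / lL 0 with hv
  let C' : Fin (d + 1) → Option (Fin r) × Fin (N + 1) → ℝ := fun a ij =>
    Option.elim ij.1 0 (fun i => C a (i, ij.2))
  -- homogeneous integrality
  have hHI1 : ∀ i : Fin r, ∀ j : Fin (N + 1), NNaux.HI lL (w (some i, j)) := by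
    intro i j
    have h1 := hi_map ψa l (g (i, j)) (hC2 (i, j))
    have h2 : ψa (g (i, j)) = w (some i, j) := by
      rw [hψa, hg, hwdef]
      simp [hp]
    rw [h2] at h1
    exact h1
  have hHI : ∀ i, NNaux.HI lL (w i) := by
    rintro ⟨_ | i, j⟩
    · refine hi_sq lL (fun i : Fin r => w (some i, j)) (fun i => hHI1 i j) _ ?_
      simp only [hwdef, hp, Option.elim_none, Option.elim_some, mul_pow]
      rw [he, ← Finset.sum_mul, hf, map_sum]
      simp only [map_pow]
      ring
    · exact hHI1 i j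
  have hiso : ∑ i, w' i ^ 2 = 0 := by
    have h1 : ∑ i, w i ^ 2 = 0 := by
      rw [Fintype.sum_prod_type]
      have h2 : ∀ i : Option (Fin r), ∑ j, w (i, j) ^ 2 =
          p i ^ 2 * ∑ j, ψ (vv N j) ^ 2 := by
        intro i
        rw [Finset.mul_sum]
        exact Finset.sum_congr rfl fun j _ => mul_pow _ _ _
      simp_rw [h2]
      rw [← Finset.sum_mul, Fintype.sum_option]
      have h3 : p none ^ 2 + ∑ i : Fin r, p (some i) ^ 2 = 0 := by
        have h4 : p none ^ 2 = - ψ F := he
        have h5 : ∑ i : Fin r, p (some i) ^ 2 = ψ F := by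
          rw [hf, map_sum]
          exact Finset.sum_congr rfl fun j _ => (map_pow ψ _ _).symm
        rw [h4, h5, neg_add_cancel]
      rw [h3, zero_mul]
    have h2 : ∑ i, w' i ^ 2 = (∑ i, w i ^ 2) / lL 0 ^ 2 := by
      rw [Finset.sum_div]
      exact Finset.sum_congr rfl fun i _ => div_pow _ _ _
    rw [h2, h1, zero_div]
  have hlin : ∀ a, ∑ i, algebraMap (kk d) L (algebraMap ℝ (kk d) (C' a i)) * w' i = v a := by
    intro a
    rw [Fintype.sum_prod_type, Fintype.sum_option]
    have h1 : ∑ j, algebraMap (kk d) L (algebraMap ℝ (kk d) (C' a (none, j))) * w' (none, j) =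
        0 := by
      refine Finset.sum_eq_zero fun j _ => ?_
      simp [C']
    rw [h1, zero_add, hv, hlL]
    simp only [hldef]
    rw [map_sum, Fintype.sum_prod_type, Finset.sum_div]
    refine Finset.sum_congr rfl fun i _ => ?_
    rw [Finset.sum_div]
    refine Finset.sum_congr rfl fun j _ => ?_
    rw [hKdef, hθR, hw'def, map_mul]
    simp only [C', hwdef, hp, hg, Option.elim_some, map_mul]
    exact mul_div_assoc _ _ _ |>.symm
  have hint : ∀ i, ∃ (e : ℕ) (c : Fin e → MvPolynomial (Fin (d + 1)) ℝ),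
      (∀ k, (c k).IsHomogeneous (e - k)) ∧
      w' i ^ e + ∑ k : Fin e, MvPolynomial.eval₂ ((algebraMap (kk d) L).comp
        (algebraMap ℝ (kk d))) v (c k) * w' i ^ (k : ℕ) = 0 := by
    intro i
    obtain ⟨n, c, hc, h⟩ := hHI i
    refine ⟨n, c, hc, ?_⟩
    have h1 : ∀ k : Fin n, MvPolynomial.eval₂ ((algebraMap (kk d) L).comp
        (algebraMap ℝ (kk d))) v (c k) * w' i ^ (k : ℕ) =
          MvPolynomial.aeval lL (c k) * w i ^ (k : ℕ) / lL 0 ^ n := by
      intro k
      have h2 : v = fun a => (lL 0)⁻¹ * lL a := by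
        funext a
        exact div_eq_inv_mul _ _
      have h3 : lL 0 ^ n = lL 0 ^ (n - (k : ℕ)) * lL 0 ^ (k : ℕ) := by
        rw [← pow_add, Nat.sub_add_cancel k.2.le]
      have h4 := SUaux.hom_smul (hc k) lL (lL 0)⁻¹
      rw [MvPolynomial.aeval_def, ← hKR, ← h2] at h4
      rw [h4, hw'def, h3]
      simp only [div_pow, inv_pow]
      field_simp
    rw [Finset.sum_congr rfl fun k _ => h1 k, ← Finset.sum_div, hw'def]
    simp only [div_pow]
    rw [← add_div, h, zero_div]
  have hv0 : v 0 = 1 := div_self hl0'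
  have hvs : ∀ j : Fin d, v j.succ ^ wt d j =
      algebraMap (kk d) L (algebraMap (RP d) (kk d) (MvPolynomial.X j)) := by
    intro j
    rw [hKdef, hθ, MvPolynomial.aeval_X, hy, hv, hlL]
    simp only [map_pow, map_div₀]
  -- finiteness
  have hvI : ∀ a, IsIntegral (kk d) (v a) := by
    intro a
    refine Fin.cases ?_ (fun j => ?_) a
    · rw [hv0]; exact isIntegral_one
    · refine IsIntegral.of_pow (wt_pos d j) ?_
      rw [hvs j]
      exact isIntegral_algebraMap
  have hvmem : ∀ c : MvPolynomial (Fin (d + 1)) ℝ, MvPolynomial.eval₂ ((algebraMap (kk d) L).comp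
        (algebraMap ℝ (kk d))) v c ∈ integralClosure (kk d) L := by
    intro c
    rw [MvPolynomial.eval₂_eq]
    refine sum_mem fun m _ => mul_mem ?_ (prod_mem fun a _ => pow_mem (hvI a) _)
    exact Subalgebra.algebraMap_mem _ _
  have hintK : ∀ i, IsIntegral (kk d) (w' i) := by
    intro i
    obtain ⟨n, c, _, h⟩ := hint i
    have h1 : IsIntegral (integralClosure (kk d) L) (w' i) := by
      refine ⟨X ^ n + ∑ k : Fin n, Polynomial.C
        (⟨_, hvmem (c k)⟩ : integralClosure (kk d) L) * X ^ (k : ℕ), ?_, ?_⟩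
      · apply Polynomial.monic_X_pow_add
        exact Polynomial.degree_sum_fin_lt _
      · rw [Polynomial.eval₂_add, Polynomial.eval₂_pow, Polynomial.eval₂_X,
          Polynomial.eval₂_finsetSum]
        simp only [Polynomial.eval₂_mul, Polynomial.eval₂_C, Polynomial.eval₂_pow,
          Polynomial.eval₂_X]
        exact h
    exact isIntegral_trans (R := kk d) (A := integralClosure (kk d) L) _ h1
  have hgen : Algebra.adjoin (kk d) (Set.range w') = ⊤ := by
    have h1 := IntermediateField.adjoin_toSubalgebra_of_isAlgebraic (F := kk d) (S := Set.range w')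
      (by rintro _ ⟨i, rfl⟩; exact (hintK i).isAlgebraic)
    rw [← h1, ← IntermediateField.top_toSubalgebra]
    congr 1
    rw [eq_top_iff]
    intro z _
    refine SUaux.gen_top N ψ e F hF he hs r f hf
      (IntermediateField.adjoin (kk d) (Set.range w')).toSubfield ?_ (lL 0) hl0' ?_ z
    · intro c
      have h2 : ψ (algebraMap ℝ (kk N) c) = algebraMap (kk d) L (algebraMap ℝ (kk d) c) := by
        rw [hKdef, hθR]
      rw [h2]
      exact IntermediateField.algebraMap_mem _ _
    · intro i j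
      exact IntermediateField.subset_adjoin (kk d) (Set.range w') ⟨(i, j), rfl⟩
  have hfin : FiniteDimensional (kk d) L := by
    have h1 := fg_adjoin_of_finite (R := kk d) (Set.finite_range w')
      (by rintro _ ⟨i, rfl⟩; exact hintK i)
    rw [hgen] at h1
    exact ⟨by simpa using h1⟩
  have hTd : IsTranscendenceBasis ℝ (fun i : Fin d => algebraMap (kk d) L
      (algebraMap (MvPolynomial (Fin d) ℝ) (kk d) (MvPolynomial.X i))) := by
    have : IsScalarTower ℝ (kk d) L := IsScalarTower.of_algebraMap_eq fun c => by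
      rw [hKdef, hθR, hRdef]
    exact SUaux.tb d
  have hTN : IsTranscendenceBasis ℝ (fun i : Fin N => ψ
      (algebraMap (MvPolynomial (Fin N) ℝ) (kk N) (MvPolynomial.X i))) := by
    let algN : Algebra (kk N) L := ψ.toAlgebra
    have : IsScalarTower ℝ (kk N) L := IsScalarTower.of_algebraMap_eq fun c => rfl
    have hea : IsAlgebraic (kk N) e := by
      refine ⟨X ^ 2 + Polynomial.C F, (Polynomial.monic_X_pow_add_C F two_ne_zero).ne_zero, ?_⟩
      rw [map_add, map_pow, Polynomial.aeval_X, Polynomial.aeval_C, he]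
      exact neg_add_cancel _
    have : Algebra.IsAlgebraic (kk N) L := by
      constructor
      intro z
      obtain ⟨a, b, rfl⟩ := hs z
      exact (isAlgebraic_algebraMap a).add (hea.mul (isAlgebraic_algebraMap b))
    exact SUaux.tb N (L := L)
  have hd : d = N := by
    have h := hTd.cardinalMk_eq hTN
    simpa using h
  subst hd
  exact ⟨θ, Option (Fin r) × Fin (d + 1), inferInstance, w', v, C',
    ⟨hfin, hiso, hlin, hv0, hvs, hint⟩⟩

end Pool.Agent.PFL
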