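import Pool.Agent.PFI.ZC
import Pool.Agent.PFL.SUW

/-!
# The compact set of the weighted normalised values (row ZW)
-/

set_option autoImplicit false

namespace Pool.Agent.PFL

open Polynomial Pool.Agent.PDF Pool.Agent.PFI

/-- homogeneous version of `rho` -/
noncomputable def rhoh : (N : ℕ) → ℝ → (Fin N → ℝ) → ℝ
  | 0, t, _ => t
  | N + 1, t, y => rhoh N t (fun i => y i.succ) ^ 2 + y 0 ^ 2

theorem rhoh_one (N : ℕ) (y : Fin N → ℝ) : rhoh N 1 y = rho N y := by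
  induction N with
  | zero => rfl
  | succ N ih => rw [rhoh, ih, rho_succ]

theorem wt_zero (N : ℕ) : wt (N + 1) 0 = 2 ^ N := by
  simp [wt]

theorem wt_succ (N : ℕ) (j : Fin N) : wt (N + 1) j.succ = wt N j := by
  unfold wt
  congr 1
  rw [Fin.val_succ]
  omega

theorem wt_mul (N : ℕ) (j : Fin N) : wt N j * 2 ^ ((j : ℕ) + 1) = 2 ^ N := by
  rw [wt, ← pow_add]
  congr 1
  omega

theorem rhoh_smul (N : ℕ) (a t : ℝ) (y : Fin N → ℝ) :
    rhoh N (a * t) (fun j => a ^ wt N j * y j) = a ^ (2 ^ N) * rhoh N t y := by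
  induction N with
  | zero => simp [rhoh]
  | succ N ih =>
    have h := ih (fun i => y i.succ)
    rw [rhoh, rhoh]
    simp only [wt_succ, wt_zero]
    rw [h, pow_succ 2 N, pow_mul]
    ring

theorem rhoh_cont (N : ℕ) : Continuous fun z : ℝ × (Fin N → ℝ) => rhoh N z.1 z.2 := by
  induction N with
  | zero => exact continuous_fst
  | succ N ih =>
    have h : Continuous fun z : ℝ × (Fin (N + 1) → ℝ) => rhoh N z.1 (fun i => z.2 i.succ) :=
      ih.comp (continuous_fst.prodMk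
        (by fun_prop : Continuous fun z : ℝ × (Fin (N + 1) → ℝ) => fun i : Fin N => z.2 i.succ))
    simp only [rhoh]
    fun_prop

theorem rhoh_bd (N : ℕ) (t : ℝ) (y : Fin N → ℝ) (h : |rhoh N t y| ≤ 1) :
    |t| ≤ 1 ∧ ∀ j, |y j| ≤ 1 := by
  induction N with
  | zero => exact ⟨h, fun j => j.elim0⟩
  | succ N ih =>
    rw [rhoh] at h
    have h1 := (abs_le.1 h).2
    have h2 : |rhoh N t (fun i => y i.succ)| ≤ 1 := by
      rw [← sq_le_one_iff_abs_le_one]
      nlinarith [sq_nonneg (y 0)]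
    have h3 : |y 0| ≤ 1 := by
      rw [← sq_le_one_iff_abs_le_one]
      nlinarith [sq_nonneg (rhoh N t (fun i => y i.succ))]
    obtain ⟨h4, h5⟩ := ih _ h2
    exact ⟨h4, fun j => Fin.cases h3 h5 j⟩

theorem rhoh_fin (N : ℕ) (y : Fin N → ℝ) (c : ℝ) : {t : ℝ | rhoh N t y = c}.Finite := by
  induction N generalizing c with
  | zero => exact Set.finite_singleton c
  | succ N ih =>
    refine ((ih (fun i => y i.succ) (Real.sqrt (c - y 0 ^ 2))).union
      (ih (fun i => y i.succ) (- Real.sqrt (c - y 0 ^ 2)))).subset ?_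
    intro t ht
    have ht' : rhoh N t (fun i => y i.succ) ^ 2 + y 0 ^ 2 = c := ht
    have h1 : rhoh N t (fun i => y i.succ) ^ 2 = c - y 0 ^ 2 := by linarith
    have h2 : Real.sqrt (c - y 0 ^ 2) ^ 2 = c - y 0 ^ 2 :=
      Real.sq_sqrt (by rw [← h1]; positivity)
    exact sq_eq_sq_iff_eq_or_eq_neg.1 (h1.trans h2.symm)

theorem rhoh_zero (N : ℕ) : rhoh N 0 (fun _ => 0) = 0 := by
  induction N with
  | zero => rfl
  | succ N ih => rw [rhoh, ih]; norm_num

section compact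

variable {N : ℕ} {ι : Type} [Fintype ι]

/-- the compact set of all possible normalised values `((t, ω), w)` -/
def Z0W (C : Fin (N + 1) → ι → ℝ) (e : ι → ℕ)
    (c : (i : ι) → Fin (e i) → MvPolynomial (Fin (N + 1)) ℝ) :
    Set ((ℝ × (Fin N → ℝ)) × (ι → ℂ)) :=
  {z | rhoh N z.1.1 z.1.2 = 1 ∧ ∑ i, z.2 i ^ 2 = 0 ∧
    (∑ i, (C 0 i : ℂ) * z.2 i = (z.1.1 : ℂ)) ∧
    (∀ j : Fin N, (∑ i, (C j.succ i : ℂ) * z.2 i) ^ wt N j = (z.1.2 j : ℂ)) ∧
    ∀ i, z.2 i ^ (e i) + ∑ k : Fin (e i), MvPolynomial.aeval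
      (fun a => ∑ i, (C a i : ℂ) * z.2 i) (c i k) * z.2 i ^ (k : ℕ) = 0}

/-- its image under `((t, ω), w) ↦ (ω_j ^ 2^(j+1), monomials of degree 2^N in w)` -/
def ZZW (C : Fin (N + 1) → ι → ℝ) (e : ι → ℕ)
    (c : (i : ι) → Fin (e i) → MvPolynomial (Fin (N + 1)) ℝ) :
    Set ((Fin N → ℝ) × ((Fin (2 ^ N) → ι) → ℂ)) :=
  (fun z => (fun j => z.1.2 j ^ (2 ^ ((j : ℕ) + 1)), fun t => ∏ k, z.2 (t k))) '' Z0W C e c

end compact

namespace ZWaux

variable {N : ℕ} {ι : Type} [Fintype ι] (C : Fin (N + 1) → ι → ℝ) (e : ι → ℕ)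
    (c : (i : ι) → Fin (e i) → MvPolynomial (Fin (N + 1)) ℝ)

theorem cont_aeval {σ : Type} (p : MvPolynomial σ ℝ) :
    Continuous fun u : σ → ℂ => MvPolynomial.aeval u p := by
  have h := MvPolynomial.continuous_eval (MvPolynomial.map (algebraMap ℝ ℂ) p)
  simp only [MvPolynomial.eval_map] at h
  exact h

theorem u_bound {z : (ℝ × (Fin N → ℝ)) × (ι → ℂ)} (hz : z ∈ Z0W C e c) :
    (fun a => ∑ i, (C a i : ℂ) * z.2 i) ∈ Metric.closedBall (0 : Fin (N + 1) → ℂ) 1 := by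
  obtain ⟨h1, h2, h3, h4, h5⟩ := hz
  obtain ⟨h6, h7⟩ := rhoh_bd N z.1.1 z.1.2 (by rw [h1]; norm_num)
  rw [Metric.mem_closedBall, dist_zero_right, pi_norm_le_iff_of_nonneg zero_le_one]
  intro a
  refine Fin.cases ?_ (fun j => ?_) a
  · rw [h3, Complex.norm_real]
    exact h6
  · have h8 : ‖∑ i, (C j.succ i : ℂ) * z.2 i‖ ^ wt N j ≤ 1 := by
      rw [← norm_pow, h4, Complex.norm_real]
      exact h7 j
    exact (pow_le_one_iff_of_nonneg (norm_nonneg _) (wt_pos N j).ne').1 h8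

theorem Z0W_compact : IsCompact (Z0W C e c) := by
  have hbd : ∀ i (k : Fin (e i)), ∃ B : ℝ, ∀ u ∈ Metric.closedBall (0 : Fin (N + 1) → ℂ) 1,
      ‖(MvPolynomial.aeval u (c i k) : ℂ)‖ ≤ B := fun i k =>
    (isCompact_closedBall _ _).exists_bound_of_continuousOn (cont_aeval _).continuousOn
  choose B hB using hbd
  refine Metric.isCompact_of_isClosed_isBounded ?_ ?_
  · have e1 : IsClosed {z : (ℝ × (Fin N → ℝ)) × (ι → ℂ) | rhoh N z.1.1 z.1.2 = 1} :=
      isClosed_eq ((rhoh_cont N).comp continuous_fst) continuous_const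
    have e2 : IsClosed {z : (ℝ × (Fin N → ℝ)) × (ι → ℂ) | ∑ i, z.2 i ^ 2 = 0} :=
      isClosed_eq (by fun_prop) (by fun_prop)
    have e3 : IsClosed {z : (ℝ × (Fin N → ℝ)) × (ι → ℂ) |
        ∑ i, (C 0 i : ℂ) * z.2 i = (z.1.1 : ℂ)} :=
      isClosed_eq (by fun_prop) (by fun_prop)
    have e4 : IsClosed {z : (ℝ × (Fin N → ℝ)) × (ι → ℂ) |
        ∀ j : Fin N, (∑ i, (C j.succ i : ℂ) * z.2 i) ^ wt N j = (z.1.2 j : ℂ)} := by
      rw [Set.ofPred_forall]
      exact isClosed_iInter fun a => isClosed_eq (by fun_prop) (by fun_prop)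
    have hev : ∀ i k, Continuous (fun z : (ℝ × (Fin N → ℝ)) × (ι → ℂ) =>
        (MvPolynomial.aeval (fun a => ∑ i, (C a i : ℂ) * z.2 i) (c i k) : ℂ)) := fun i k =>
      (cont_aeval (c i k)).comp (by fun_prop)
    have e5 : IsClosed {z : (ℝ × (Fin N → ℝ)) × (ι → ℂ) |
        ∀ i, z.2 i ^ (e i) + ∑ k : Fin (e i), MvPolynomial.aeval
      (fun a => ∑ i, (C a i : ℂ) * z.2 i) (c i k) * z.2 i ^ (k : ℕ) = 0} := by
      rw [Set.ofPred_forall]
      refine isClosed_iInter fun i => isClosed_eq ?_ (by fun_prop)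
      refine Continuous.add (by fun_prop) ?_
      exact continuous_finsetSum _ fun k _ => Continuous.mul (hev i k) (by fun_prop)
    have h5 := (((e1.inter e2).inter e3).inter e4).inter e5
    have h6 : Z0W C e c = {z : (ℝ × (Fin N → ℝ)) × (ι → ℂ) | rhoh N z.1.1 z.1.2 = 1} ∩
        {z : (ℝ × (Fin N → ℝ)) × (ι → ℂ) | ∑ i, z.2 i ^ 2 = 0} ∩
        {z : (ℝ × (Fin N → ℝ)) × (ι → ℂ) | ∑ i, (C 0 i : ℂ) * z.2 i = (z.1.1 : ℂ)} ∩
        {z : (ℝ × (Fin N → ℝ)) × (ι → ℂ) |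
          ∀ j : Fin N, (∑ i, (C j.succ i : ℂ) * z.2 i) ^ wt N j = (z.1.2 j : ℂ)} ∩
        {z : (ℝ × (Fin N → ℝ)) × (ι → ℂ) |
          ∀ i, z.2 i ^ (e i) + ∑ k : Fin (e i), MvPolynomial.aeval
            (fun a => ∑ i, (C a i : ℂ) * z.2 i) (c i k) * z.2 i ^ (k : ℕ) = 0} := by
      ext z
      exact ⟨fun ⟨a, b, c, d, f⟩ => ⟨⟨⟨⟨a, b⟩, c⟩, d⟩, f⟩,
        fun ⟨⟨⟨⟨a, b⟩, c⟩, d⟩, f⟩ => ⟨a, b, c, d, f⟩⟩
    rw [h6]
    exact h5
  · refine (Metric.isBounded_closedBall (x := (0 : (ℝ × (Fin N → ℝ)) × (ι → ℂ)))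
      (r := 1 + ∑ i, (1 + ∑ k, |B i k|))).subset ?_
    rintro ⟨⟨t, ω⟩, w⟩ hz
    have hu := u_bound C e c hz
    obtain ⟨h1, -, -, -, h4⟩ := hz
    obtain ⟨h6, h7⟩ := rhoh_bd N t ω (by
      have h1' : rhoh N t ω = 1 := h1
      rw [h1']; norm_num)
    have hS : 0 ≤ ∑ i, (1 + ∑ k, |B i k|) :=
      Finset.sum_nonneg fun i _ => add_nonneg zero_le_one
        (Finset.sum_nonneg fun k _ => abs_nonneg _)
    rw [Metric.mem_closedBall, dist_zero_right, Prod.norm_def, max_le_iff, Prod.norm_def,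
      max_le_iff]
    refine ⟨⟨?_, ?_⟩, ?_⟩
    · rw [Real.norm_eq_abs]
      exact h6.trans (by linarith)
    · rw [pi_norm_le_iff_of_nonneg (by positivity)]
      intro a
      rw [Real.norm_eq_abs]
      exact (h7 a).trans (by linarith)
    · rw [pi_norm_le_iff_of_nonneg (by positivity)]
      intro i
      have h5 := ZCaux.root_bound (fun k => (MvPolynomial.aeval
        (fun a => ∑ i, (C a i : ℂ) * w i) (c i k) : ℂ))
        (fun k => |B i k|) (fun k => (hB i k _ hu).trans (le_abs_self _)) (w i) (h4 i)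
      refine h5.trans ?_
      have h6 : (1 + ∑ k, |B i k|) ≤ ∑ i, (1 + ∑ k, |B i k|) :=
        Finset.single_le_sum (f := fun i => (1 + ∑ k, |B i k|))
          (fun i _ => add_nonneg zero_le_one (Finset.sum_nonneg fun k _ => abs_nonneg _))
          (Finset.mem_univ i)
      linarith

theorem star_aeval {σ : Type} (u : σ → ℂ) (p : MvPolynomial σ ℝ) :
    star (MvPolynomial.aeval u p : ℂ) = MvPolynomial.aeval (fun i => star (u i)) p := by
  have h := MvPolynomial.comp_aeval_apply (R := ℝ) (f := u) (Complex.conjAe : ℂ →ₐ[ℝ] ℂ) p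
  exact h

theorem pow_fin {K : Type} [CommRing K] [IsDomain K] (n : ℕ) (hn : 0 < n) (a : K) :
    {x : K | x ^ n = a}.Finite := by
  classical
  refine (Set.toFinite ((Polynomial.nthRoots n a).toFinset : Set K)).subset ?_
  intro x hx
  rw [Finset.mem_coe, Multiset.mem_toFinset, Polynomial.mem_nthRoots hn]
  exact hx

theorem fib_finite (Ω : Set (Fin N → ℝ)) (hΩ : Ω.Finite) :
    {z | z ∈ Z0W C e c ∧ z.1.2 ∈ Ω}.Finite := by
  have hU : ∀ (t : ℝ) (ω : Fin N → ℝ), {u : Fin (N + 1) → ℂ | u 0 = (t : ℂ) ∧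
      ∀ j : Fin N, u j.succ ^ wt N j = (ω j : ℂ)}.Finite := by
    intro t ω
    refine (Set.Finite.pi' (t := fun a : Fin (N + 1) => (Fin.cases
      (motive := fun _ => Set ℂ) {(t : ℂ)} (fun j => {x : ℂ | x ^ wt N j = (ω j : ℂ)}) a :
        Set ℂ)) ?_).subset ?_
    · intro a
      refine Fin.cases ?_ (fun j => ?_) a
      · exact Set.finite_singleton _
      · exact pow_fin _ (wt_pos N j) _
    · rintro u ⟨h1, h2⟩ a
      refine Fin.cases ?_ (fun j => ?_) a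
      · exact h1
      · exact h2 j
  have hW : ∀ u : Fin (N + 1) → ℂ, {w : ι → ℂ | ∀ i, w i ^ (e i) + ∑ k : Fin (e i),
      (MvPolynomial.aeval u (c i k) : ℂ) * w i ^ (k : ℕ) = 0}.Finite :=
    fun u => Set.Finite.pi' fun i => ZCaux.root_finite _
  have h1 : ∀ ω : Fin N → ℝ, {z | z ∈ Z0W C e c ∧ z.1.2 = ω}.Finite := by
    intro ω
    have h2 : ∀ t : ℝ, {z | z ∈ Z0W C e c ∧ z.1 = (t, ω)}.Finite := by
      intro t
      have h3 : ∀ u : Fin (N + 1) → ℂ, {z | z ∈ Z0W C e c ∧ z.1 = (t, ω) ∧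
          (fun a => ∑ i, (C a i : ℂ) * z.2 i) = u}.Finite := by
        intro u
        refine ((hW u).image (fun w => ((t, ω), w))).subset ?_
        rintro z ⟨⟨-, -, -, -, h5⟩, h6, h7⟩
        refine ⟨z.2, ?_, ?_⟩
        · rw [← h7]
          exact h5
        · rw [← h6]
      refine ((hU t ω).biUnion fun u _ => h3 u).subset ?_
      rintro z ⟨hz, h4⟩
      refine Set.mem_biUnion (x := fun a => ∑ i, (C a i : ℂ) * z.2 i) ?_ ⟨hz, h4, rfl⟩
      obtain ⟨-, -, h5, h6, -⟩ := hz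
      rw [h4] at h5 h6
      exact ⟨h5, h6⟩
    refine ((rhoh_fin N ω 1).biUnion fun t _ => h2 t).subset ?_
    rintro z ⟨hz, h4⟩
    refine Set.mem_biUnion (x := z.1.1) ?_ ⟨hz, ?_⟩
    · have h5 := hz.1
      rw [h4] at h5
      exact h5
    · rw [← h4]
  refine (hΩ.biUnion fun ω _ => h1 ω).subset ?_
  rintro z ⟨hz, h4⟩
  exact Set.mem_biUnion (x := z.1.2) h4 ⟨hz, rfl⟩

theorem prod_cons {n m : ℕ} (hn : n = m + 1) {ι : Type} (w : ι → ℂ) (a b : ι) :
    ∏ k : Fin n, w ((Fin.cons a (fun _ => b) : Fin (m + 1) → ι) (Fin.cast hn k)) =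
      w a * w b ^ m := by
  subst hn
  rw [Fin.prod_univ_succ]
  simp

end ZWaux

open ZWaux in
theorem ZCW {N : ℕ} {ι : Type} [Fintype ι] (C : Fin (N + 1) → ι → ℝ) (e : ι → ℕ)
    (c : (i : ι) → Fin (e i) → MvPolynomial (Fin (N + 1)) ℝ) :
    IsCompact (ZZW C e c) ∧ (∀ z ∈ ZZW C e c, (z.1, fun i => star (z.2 i)) ∈ ZZW C e c) ∧
      (∀ b, {s | (b, s) ∈ ZZW C e c}.Finite) ∧ (∀ z ∈ ZZW C e c, ∃ i, (z.2 i).im ≠ 0) := by
  refine ⟨?_, ?_, ?_, ?_⟩
  · exact (Z0W_compact C e c).image (by fun_prop)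
  · rintro _ ⟨⟨⟨t, ω⟩, w⟩, ⟨h1, h2, h3, h4, h5⟩, rfl⟩
    have hC : ∀ a, ∑ i, (C a i : ℂ) * star (w i) = star (∑ i, (C a i : ℂ) * w i) := by
      intro a
      rw [star_sum]
      refine Finset.sum_congr rfl fun i _ => ?_
      rw [star_mul', Complex.star_def, Complex.conj_ofReal]
    refine ⟨((t, ω), fun i => star (w i)), ⟨h1, ?_, ?_, ?_, ?_⟩, ?_⟩
    · have h5 := congrArg star h2
      simpa [star_sum, star_pow] using h5
    · show ∑ i, (C 0 i : ℂ) * star (w i) = (t : ℂ)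
      rw [hC]
      have h3' : ∑ i, (C 0 i : ℂ) * w i = (t : ℂ) := h3
      rw [h3', Complex.star_def, Complex.conj_ofReal]
    · intro j
      show (∑ i, (C j.succ i : ℂ) * star (w i)) ^ wt N j = (ω j : ℂ)
      have h4' : (∑ i, (C j.succ i : ℂ) * w i) ^ wt N j = (ω j : ℂ) := h4 j
      rw [hC, ← star_pow, h4', Complex.star_def, Complex.conj_ofReal]
    · intro i
      show star (w i) ^ (e i) + ∑ k : Fin (e i), MvPolynomial.aeval
        (fun a => ∑ i, (C a i : ℂ) * star (w i)) (c i k) * star (w i) ^ (k : ℕ) = 0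
      have h6 : (fun a => ∑ i, (C a i : ℂ) * star (w i)) =
          fun a => star (∑ i, (C a i : ℂ) * w i) := funext hC
      have h5' : w i ^ (e i) + ∑ k : Fin (e i), MvPolynomial.aeval
        (fun a => ∑ i, (C a i : ℂ) * w i) (c i k) * w i ^ (k : ℕ) = 0 := h5 i
      have h7 := congrArg star h5'
      rw [star_add, star_pow, star_sum, star_zero] at h7
      rw [← h7, h6]
      congr 1
      refine Finset.sum_congr rfl fun k _ => ?_
      rw [star_mul', star_pow, star_aeval]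
    · ext1
      · rfl
      · funext s
        show ∏ k, star (w (s k)) = star (∏ k, w (s k))
        exact (map_prod (starRingEnd ℂ) _ _).symm
  · intro b
    have hΩ : {ω : Fin N → ℝ | ∀ j, ω j ^ (2 ^ ((j : ℕ) + 1)) = b j}.Finite :=
      Set.Finite.pi' fun j => pow_fin _ (by positivity) _
    have hf := fib_finite C e c _ hΩ
    refine (hf.image (fun z => fun s : Fin (2 ^ N) → ι => ∏ k, z.2 (s k))).subset ?_
    rintro s ⟨z, hz, h6⟩
    have h7 : (fun j : Fin N => z.1.2 j ^ (2 ^ ((j : ℕ) + 1))) = b := congrArg Prod.fst h6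
    have h8 : (fun s : Fin (2 ^ N) → ι => ∏ k, z.2 (s k)) = s := congrArg Prod.snd h6
    exact ⟨z, ⟨hz, fun j => by rw [← h7]⟩, h8⟩
  · rintro _ ⟨⟨⟨t, ω⟩, w⟩, ⟨h1, h2, h3, h4, h5⟩, rfl⟩
    by_contra hcon
    push Not at hcon
    have h1' : rhoh N t ω = 1 := h1
    have h2' : ∑ i, w i ^ 2 = 0 := h2
    have h3' : ∑ i, (C 0 i : ℂ) * w i = (t : ℂ) := h3
    have h4' : ∀ j : Fin N, (∑ i, (C j.succ i : ℂ) * w i) ^ wt N j = (ω j : ℂ) := h4
    have hne : ∃ b, w b ≠ 0 := by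
      by_contra hall
      push Not at hall
      have ht : t = 0 := by
        have h6 : (t : ℂ) = 0 := by
          rw [← h3']
          exact Finset.sum_eq_zero fun i _ => by rw [hall i, mul_zero]
        exact_mod_cast h6
      have hω : ω = fun _ => 0 := by
        funext j
        have h6 : (ω j : ℂ) = 0 := by
          rw [← h4' j, Finset.sum_eq_zero fun i _ => by rw [hall i, mul_zero]]
          exact zero_pow (wt_pos N j).ne'
        exact_mod_cast h6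
      rw [ht, hω, rhoh_zero] at h1'
      exact zero_ne_one h1'
    obtain ⟨b, hb⟩ := hne
    obtain ⟨n, hn⟩ : ∃ n, 2 ^ N = n + 1 := ⟨2 ^ N - 1, (Nat.sub_add_cancel (Nat.one_le_two_pow)).symm⟩
    have hx : ∀ a, (w a * w b ^ n).im = 0 := by
      intro a
      have h6 := hcon (fun k => (Fin.cons a (fun _ => b) : Fin (n + 1) → ι) (Fin.cast hn k))
      have h7 : (∏ k : Fin (2 ^ N), w ((Fin.cons a (fun _ => b) : Fin (n + 1) → ι)
        (Fin.cast hn k))).im = 0 := h6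
      rw [prod_cons hn w a b] at h7
      exact h7
    have hx2 : ∀ a, w a * w b ^ n = ((w a * w b ^ n).re : ℂ) := fun a =>
      Complex.ext (by simp) (by rw [hx a]; simp)
    have hsum : ∑ a, (w a * w b ^ n).re ^ 2 = 0 := by
      have h5 : ((∑ a, (w a * w b ^ n).re ^ 2 : ℝ) : ℂ) = 0 := by
        have h6 : ∑ a, (w a * w b ^ n) ^ 2 = 0 := by
          simp only [mul_pow]
          rw [← Finset.sum_mul, h2', zero_mul]
        rw [← h6]
        push_cast
        exact Finset.sum_congr rfl fun a _ => by rw [← hx2 a]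
      exact_mod_cast h5
    have hre : (w b * w b ^ n).re = 0 := by
      have h5 := (Finset.sum_eq_zero_iff_of_nonneg
        (fun a _ => sq_nonneg ((w a * w b ^ n).re))).1 hsum b (Finset.mem_univ b)
      exact pow_eq_zero_iff two_ne_zero |>.1 h5
    have h6 : w b * w b ^ n = 0 := by
      rw [hx2 b, hre]; simp
    exact (mul_ne_zero hb (pow_ne_zero _ hb)) h6

end Pool.Agent.PFL
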