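import Pool.Agent.PFI.CLof
import Pool.Agent.PFI.CL1
import Pool.Agent.PFI.ZV
import Pool.Agent.PFL.ZW

/-!
# Values of specialisations lie in the compact set `ZZW`; the elements `t i` (rows ZVW, ABW)
-/

set_option autoImplicit false

namespace Pool.Agent.PFL

open Pool.Agent.PDF Pool.Agent.PFI

/-- homogenisation of `g` evaluated in an algebra over `ℝ[y]` -/
noncomputable def hzT (N : ℕ) {O J : Type} [CommRing O] [Algebra (RP N) O] (U : J → O) (ρ : O)
    (g : MvPolynomial J ℝ) (k : ℕ) : O :=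
  ∑ m ∈ g.support, algebraMap (RP N) O (MvPolynomial.C (g.coeff m)) *
    (ρ ^ (k - m.sum fun _ n => n) * ∏ j ∈ m.support, U j ^ m j)

namespace ZVWaux

variable {N : ℕ} {L ι : Type} [Field L] [Algebra (kk N) L] [Algebra (RP N) L]
    [IsScalarTower (RP N) (kk N) L] [Fintype ι] {w : ι → L} {v : Fin (N + 1) → L}
    {C : Fin (N + 1) → ι → ℝ}

theorem int_v (hS : SetupW N L ι w v C) (a : Fin (N + 1)) : IsIntegral (RP N) (v a) := by
  refine Fin.cases ?_ (fun j => ?_) a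
  · rw [hS.v0]; exact isIntegral_one
  · refine IsIntegral.of_pow (wt_pos N j) ?_
    rw [hS.vs j, ← IsScalarTower.algebraMap_apply (RP N) (kk N) L]
    exact isIntegral_algebraMap

theorem hR (a : ℝ) : (algebraMap (kk N) L).comp (algebraMap ℝ (kk N)) a =
    algebraMap (RP N) L (MvPolynomial.C a) := by
  rw [RingHom.comp_apply, IsScalarTower.algebraMap_apply ℝ (RP N) (kk N),
    MvPolynomial.algebraMap_eq, ← IsScalarTower.algebraMap_apply (RP N) (kk N) L]

/-- the ring homomorphism `ℝ → O` -/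
noncomputable def fO (N : ℕ) (L : Type) [Field L] [Algebra (RP N) L] :
    ℝ →+* integralClosure (RP N) L :=
  (algebraMap (RP N) (integralClosure (RP N) L)).comp MvPolynomial.C

theorem coe_eval (hS : SetupW N L ι w v C) (c : MvPolynomial (Fin (N + 1)) ℝ) :
    ((MvPolynomial.eval₂ (fO N L) (fun a => (⟨v a, int_v hS a⟩ : integralClosure (RP N) L)) c :
      integralClosure (RP N) L) : L) =
    MvPolynomial.eval₂ ((algebraMap (kk N) L).comp (algebraMap ℝ (kk N))) v c := by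
  have h := MvPolynomial.eval₂_comp_left (integralClosure (RP N) L).val.toRingHom (fO N L)
    (fun a => (⟨v a, int_v hS a⟩ : integralClosure (RP N) L)) c
  refine h.trans ?_
  have h1 : (integralClosure (RP N) L).val.toRingHom.comp (fO N L) =
      (algebraMap (kk N) L).comp (algebraMap ℝ (kk N)) := by
    ext a
    rw [hR]
    rfl
  rw [h1]
  rfl

theorem int_w (hS : SetupW N L ι w v C) (i : ι) : IsIntegral (RP N) (w i) := by
  obtain ⟨e, c, -, h⟩ := hS.int i
  have h1 : IsIntegral (integralClosure (RP N) L) (w i) := by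
    refine ⟨Polynomial.X ^ e + ∑ k : Fin e, Polynomial.C
      (MvPolynomial.eval₂ (fO N L) (fun a => (⟨v a, int_v hS a⟩ : integralClosure (RP N) L))
        (c k)) * Polynomial.X ^ (k : ℕ), ?_, ?_⟩
    · apply Polynomial.monic_X_pow_add
      exact Polynomial.degree_sum_fin_lt _
    · rw [Polynomial.eval₂_add, Polynomial.eval₂_pow, Polynomial.eval₂_X,
        Polynomial.eval₂_finsetSum, ← h]
      congr 1
      refine Finset.sum_congr rfl fun k _ => ?_
      rw [Polynomial.eval₂_mul, Polynomial.eval₂_C, Polynomial.eval₂_pow, Polynomial.eval₂_X,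
        ← coe_eval hS]
      rfl
  exact isIntegral_trans (R := RP N) (A := integralClosure (RP N) L) _ h1

/-- the elements `ρ u`, `ρ s` of the integral closure -/
noncomputable def U (hS : SetupW N L ι w v C) :
    Fin N ⊕ (Fin (2 ^ N) → ι) → integralClosure (RP N) L :=
  Sum.elim (fun j => algebraMap (RP N) _ (MvPolynomial.X j ^ (2 ^ ((j : ℕ) + 1))))
    (fun t => ∏ k, (⟨w (t k), int_w hS (t k)⟩ : integralClosure (RP N) L))

end ZVWaux

open ZVWaux

theorem ZVW {N : ℕ} {L ι : Type} [Field L] [Algebra (kk N) L] [Algebra (RP N) L]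
    [IsScalarTower (RP N) (kk N) L] [Fintype ι] {w : ι → L} {v : Fin (N + 1) → L}
    {C : Fin (N + 1) → ι → ℝ} (hS : SetupW N L ι w v C) (e : ι → ℕ)
    (c : (i : ι) → Fin (e i) → MvPolynomial (Fin (N + 1)) ℝ)
    (hc : ∀ i k, (c i k).IsHomogeneous (e i - k))
    (hw : ∀ i, w i ^ (e i) + ∑ k : Fin (e i), MvPolynomial.eval₂ ((algebraMap (kk N) L).comp
      (algebraMap ℝ (kk N))) v (c i k) * w i ^ (k : ℕ) = 0)
    (y : Fin N → ℝ) (χ : integralClosure (RP N) L →+* ℂ) (hχ : Spec y χ) :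
    ∃ z ∈ ZZW C e c, ∀ (g : MvPolynomial (Fin N ⊕ (Fin (2 ^ N) → ι)) ℝ) (k : ℕ),
      g.totalDegree ≤ k →
      χ (hzT N (U hS) (algebraMap (RP N) _ (rhoP N)) g k) = (rho N y : ℂ) ^ k *
        MvPolynomial.aeval (Sum.elim (fun p => (z.1 p : ℂ)) z.2) g := by
  have hn := rho_pos N y
  let W : ι → integralClosure (RP N) L := fun i => ⟨w i, int_w hS i⟩
  let V : Fin (N + 1) → integralClosure (RP N) L := fun a => ⟨v a, int_v hS a⟩
  obtain ⟨s, hs0, hss⟩ : ∃ s : ℝ, 0 < s ∧ s ^ (2 ^ N) = rho N y :=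
    ⟨(rho N y) ^ ((2 ^ N : ℕ) : ℝ)⁻¹, Real.rpow_pos_of_pos hn _,
      Real.rpow_inv_natCast_pow hn.le (by positivity)⟩
  have hsc : (s : ℂ) ≠ 0 := by exact_mod_cast hs0.ne'
  set t : ι → ℂ := fun i => (s : ℂ)⁻¹ * χ (W i) with ht
  have hχv : ∀ p : RP N, χ (algebraMap (RP N) (integralClosure (RP N) L) p) =
      ((MvPolynomial.eval y p : ℝ) : ℂ) := hχ
  have h1 : ∑ i, χ (W i) ^ 2 = 0 := by
    have h : ∑ i, W i ^ 2 = 0 := by
      apply Subtype.ext
      rw [AddSubmonoidClass.coe_finsetSum]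
      simpa [W] using hS.iso
    rw [← map_zero χ, ← h, map_sum]
    exact Finset.sum_congr rfl fun i _ => (map_pow χ _ _).symm
  have h2 : ∀ a, ∑ i, (C a i : ℂ) * χ (W i) = χ (V a) := by
    intro a
    have h : ∑ i, algebraMap (RP N) (integralClosure (RP N) L) (MvPolynomial.C (C a i)) * W i =
        V a := by
      apply Subtype.ext
      rw [AddSubmonoidClass.coe_finsetSum]
      show _ = v a
      rw [← hS.lin a]
      refine Finset.sum_congr rfl fun i _ => ?_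
      exact congrArg (· * w i) (hR (C a i)).symm
    have h' := congrArg χ h
    rw [map_sum] at h'
    rw [← h']
    refine Finset.sum_congr rfl fun i _ => ?_
    rw [map_mul, hχv, MvPolynomial.eval_C]
  have hV0 : χ (V 0) = 1 := by
    have h : V 0 = 1 := Subtype.ext hS.v0
    rw [h, map_one]
  have hVs : ∀ j : Fin N, χ (V j.succ) ^ wt N j = (y j : ℂ) := by
    intro j
    have h : V j.succ ^ wt N j = algebraMap (RP N) (integralClosure (RP N) L)
        (MvPolynomial.X j) := by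
      apply Subtype.ext
      rw [Subalgebra.coe_pow]
      show v j.succ ^ wt N j = _
      rw [hS.vs j, ← IsScalarTower.algebraMap_apply (RP N) (kk N) L]
      rfl
    rw [← map_pow, h, hχv, MvPolynomial.eval_X]
  have h3 : ∀ i, χ (W i) ^ (e i) + ∑ k : Fin (e i),
      MvPolynomial.aeval (fun a => χ (V a)) (c i k) * χ (W i) ^ (k : ℕ) = 0 := by
    intro i
    have h : W i ^ (e i) + ∑ k : Fin (e i), MvPolynomial.eval₂ (fO N L) V (c i k) *
        W i ^ (k : ℕ) = 0 := by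
      apply Subtype.ext
      rw [Subalgebra.coe_add, AddSubmonoidClass.coe_finsetSum, Subalgebra.coe_pow]
      refine Eq.trans ?_ (hw i)
      refine congrArg (w i ^ (e i) + ·) (Finset.sum_congr rfl fun k _ => ?_)
      rw [Subalgebra.coe_mul, Subalgebra.coe_pow, coe_eval hS]
    have h' := congrArg χ h
    rw [map_add, map_sum, map_zero, map_pow] at h'
    rw [← h']
    refine congrArg (χ (W i) ^ (e i) + ·) (Finset.sum_congr rfl fun k _ => ?_)
    rw [map_mul, map_pow, MvPolynomial.eval₂_comp_left χ (fO N L) V (c i k)]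
    congr 1
    rw [MvPolynomial.aeval_def]
    congr 1
    ext a
    · show ((a : ℝ) : ℂ) = χ (algebraMap (RP N) (integralClosure (RP N) L) (MvPolynomial.C a))
      rw [hχv, MvPolynomial.eval_C]
  -- the point
  set ω : Fin N → ℝ := fun j => s⁻¹ ^ wt N j * y j with hω
  have hCt : ∀ a, ∑ i, (C a i : ℂ) * t i = (s : ℂ)⁻¹ * χ (V a) := by
    intro a
    rw [← h2 a, Finset.mul_sum]
    exact Finset.sum_congr rfl fun i _ => by rw [ht]; ring
  have hZ0 : ((s⁻¹, ω), t) ∈ Z0W C e c := by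
    refine ⟨?_, ?_, ?_, ?_, ?_⟩
    · show rhoh N s⁻¹ (fun j => s⁻¹ ^ wt N j * y j) = 1
      have h := rhoh_smul N s⁻¹ 1 y
      rw [mul_one, rhoh_one, ← hss] at h
      rw [h, ← mul_pow, inv_mul_cancel₀ hs0.ne', one_pow]
    · show ∑ i, ((s : ℂ)⁻¹ * χ (W i)) ^ 2 = 0
      simp_rw [mul_pow]
      rw [← Finset.mul_sum, h1, mul_zero]
    · show ∑ i, (C 0 i : ℂ) * t i = ((s⁻¹ : ℝ) : ℂ)
      rw [hCt, hV0, mul_one, Complex.ofReal_inv]
    · intro j
      show (∑ i, (C j.succ i : ℂ) * t i) ^ wt N j = ((s⁻¹ ^ wt N j * y j : ℝ) : ℂ)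
      rw [hCt, mul_pow, hVs]
      push_cast
      ring
    · intro i
      show t i ^ (e i) + ∑ k : Fin (e i),
        MvPolynomial.aeval (fun a => ∑ i, (C a i : ℂ) * t i) (c i k) * t i ^ (k : ℕ) = 0
      have h5 : ((s : ℂ)⁻¹) ^ (e i) * (χ (W i) ^ (e i) + ∑ k : Fin (e i),
          MvPolynomial.aeval (fun a => χ (V a)) (c i k) * χ (W i) ^ (k : ℕ)) = 0 := by
        rw [h3, mul_zero]
      have h5' : (fun a => ∑ i, (C a i : ℂ) * t i) = fun a => (s : ℂ)⁻¹ * χ (V a) :=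
        funext hCt
      rw [← h5, mul_add, Finset.mul_sum, ht, mul_pow, h5']
      refine congrArg (((s : ℂ)⁻¹) ^ (e i) * χ (W i) ^ (e i) + ·)
        (Finset.sum_congr rfl fun k _ => ?_)
      rw [SUaux.hom_smul (hc i k), mul_pow]
      have h6 : ((s : ℂ)⁻¹) ^ (e i) = ((s : ℂ)⁻¹) ^ (e i - (k : ℕ)) * ((s : ℂ)⁻¹) ^ (k : ℕ) := by
        rw [← pow_add, Nat.sub_add_cancel k.2.le]
      rw [h6]
      ring
  refine ⟨_, ⟨((s⁻¹, ω), t), hZ0, rfl⟩, ?_⟩
  intro g k hk
  have hU2 : ∀ j, χ (U hS j) = (rho N y : ℂ) * Sum.elim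
      (fun j : Fin N => ((ω j ^ (2 ^ ((j : ℕ) + 1)) : ℝ) : ℂ))
      (fun r : Fin (2 ^ N) → ι => ∏ k, t (r k)) j := by
    rintro (j | r)
    · show χ (algebraMap (RP N) (integralClosure (RP N) L)
        (MvPolynomial.X j ^ (2 ^ ((j : ℕ) + 1)))) =
        (rho N y : ℂ) * (((s⁻¹ ^ wt N j * y j) ^ (2 ^ ((j : ℕ) + 1)) : ℝ) : ℂ)
      rw [hχv, map_pow, MvPolynomial.eval_X, ← hss, ← Complex.ofReal_mul]
      congr 1
      rw [mul_pow, ← pow_mul, wt_mul, ← mul_assoc, ← mul_pow, mul_inv_cancel₀ hs0.ne', one_pow,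
        one_mul]
    · show χ (∏ k, W (r k)) = (rho N y : ℂ) * ∏ k, ((s : ℂ)⁻¹ * χ (W (r k)))
      rw [map_prod, Finset.prod_mul_distrib, Finset.prod_const, Finset.card_univ,
        Fintype.card_fin, ← mul_assoc, ← hss, Complex.ofReal_pow, ← mul_pow,
        mul_inv_cancel₀ hsc, one_pow, one_mul]
  have h9 := ZVaux.hz (Complex.ofRealHom : ℝ →+* ℂ) (rho N y : ℂ)
    (Sum.elim (fun j : Fin N => ((ω j ^ (2 ^ ((j : ℕ) + 1)) : ℝ) : ℂ))
      (fun r : Fin (2 ^ N) → ι => ∏ k, t (r k))) (fun j => χ (U hS j)) hU2 g k hk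
  rw [MvPolynomial.aeval_def]
  refine Eq.trans ?_ h9.symm
  rw [hzT, map_sum]
  refine Finset.sum_congr rfl fun m _ => ?_
  rw [map_mul, map_mul, map_pow, map_prod, hχv, hχv, eval_rhoP, MvPolynomial.eval_C]
  congr 2
  exact Finset.prod_congr rfl fun j _ => by rw [map_pow]

/-- the elements `t i`: `N + 1` of them suffice -/
theorem ABW {N : ℕ} {L ι : Type} [Field L] [Algebra (kk N) L] [Algebra (RP N) L]
    [IsScalarTower (RP N) (kk N) L] [Fintype ι] {w : ι → L} {v : Fin (N + 1) → L}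
    {C : Fin (N + 1) → ι → ℝ} (hS : SetupW N L ι w v C) (ε : ℝ) (hε : 0 < ε) :
    ∃ (t : Fin (N + 1) → integralClosure (RP N) L) (K : ℕ),
      ∀ (y : Fin N → ℝ) (χ : integralClosure (RP N) L →+* ℂ), Spec y χ →
        ‖χ (-∑ i, t i ^ 2) - (rho N y : ℂ) ^ (2 * K)‖ ≤ ε * rho N y ^ (2 * K) := by
  classical
  choose e c hc hw using hS.int
  obtain ⟨hZ1, hZ2, hZ3, hZ4⟩ := ZCW C e c
  obtain ⟨g, hg⟩ := CL_of CL1 (ZZW C e c) hZ1 hZ2 hZ3 hZ4 ε hε
  have hcard : Fintype.card (Fin N) + 1 = N + 1 := by rw [Fintype.card_fin]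
  obtain ⟨g', hg'⟩ : ∃ g' : Fin (N + 1) →
      MvPolynomial (Fin N ⊕ (Fin (2 ^ N) → ι)) ℝ,
      ∀ z ∈ ZZW C e c,
      ‖∑ i, (MvPolynomial.aeval (Sum.elim (fun j => (z.1 j : ℂ)) z.2) (g' i)) ^ 2 + 1‖ ≤ ε := by
    refine ⟨fun i => g (Fin.cast hcard.symm i), fun z hz => ?_⟩
    have h1 := hg z hz
    have h2 : ∑ i, (MvPolynomial.aeval (Sum.elim (fun j => (z.1 j : ℂ)) z.2)
        (g (Fin.cast hcard.symm i))) ^ 2 =
        ∑ i, (MvPolynomial.aeval (Sum.elim (fun j => (z.1 j : ℂ)) z.2) (g i)) ^ 2 :=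
      Fintype.sum_equiv (finCongr hcard.symm) _ _ fun i => rfl
    rw [h2]
    exact h1
  obtain ⟨K, hK⟩ : ∃ K : ℕ, ∀ i, (g' i).totalDegree ≤ K :=
    ⟨Finset.univ.sup fun i => (g' i).totalDegree, fun i =>
      Finset.le_sup (f := fun i => (g' i).totalDegree) (Finset.mem_univ i)⟩
  refine ⟨fun i => hzT N (U hS) (algebraMap (RP N) _ (rhoP N)) (g' i) K, K, fun y χ hχ => ?_⟩
  obtain ⟨z, hz, hval⟩ := ZVW hS e c hc hw y χ hχ
  have hnr : 0 ≤ rho N y := (rho_pos N y).le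
  have h1 : χ (-∑ i, (hzT N (U hS) (algebraMap (RP N) _ (rhoP N)) (g' i) K) ^ 2) -
      (rho N y : ℂ) ^ (2 * K) = - ((rho N y : ℂ) ^ (2 * K) *
      (∑ i, (MvPolynomial.aeval (Sum.elim (fun j => (z.1 j : ℂ)) z.2) (g' i)) ^ 2 + 1)) := by
    rw [map_neg, map_sum, mul_add, mul_one, Finset.mul_sum, neg_add, ← sub_eq_add_neg,
      ← Finset.sum_neg_distrib, ← Finset.sum_neg_distrib]
    congr 1
    refine Finset.sum_congr rfl fun i _ => ?_
    rw [map_pow, hval (g' i) K (hK i), mul_pow, ← pow_mul, mul_comm K 2]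
  rw [h1, norm_neg, norm_mul, norm_pow, Complex.norm_real, Real.norm_eq_abs, abs_of_nonneg hnr,
    mul_comm ε]
  exact mul_le_mul_of_nonneg_left (hg' z hz) (pow_nonneg hnr _)

end Pool.Agent.PFL
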