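import Pool.Agent.PFL.SUW
import Pool.Agent.PFL.ZVW
import Pool.Agent.PFL.LVW
import Pool.Agent.PFL.UNI
import Pool.Agent.PFL.FINof

/-!
# The linear bound for Pfister's problem (MP_b906c2_al): the base and the main theorem
-/

set_option autoImplicit false

namespace Pool.Agent.PFL

open Pool.Agent.PDF Pool.Agent.PFI

/-- For `F` a nonzero sum of squares in `ℝ(X₁,…,X_N)` and `L = K(√-F)`, some weighted positive
polynomial `G`, substituted by a homomorphism `θ : K → K`, is minus a sum of `2 ^ m` squares in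
`L`, `N + 2 ≤ 2 ^ m`. -/
theorem base (N m : ℕ) (hm : N + 2 ≤ 2 ^ m) (F : kk N) (hF : IsSumSq F) (hF0 : F ≠ 0)
    (L : Type) [Field L] (ψ : kk N →+* L) (e : L) (he : e ^ 2 = - ψ F)
    (hs : ∀ z : L, ∃ a b : kk N, z = ψ a + e * ψ b) :
    ∃ (θ : kk N →+* kk N) (G : RP N), W N G ∧
      SS (2 ^ m) (-(ψ (θ (algebraMap (RP N) (kk N) G)))) := by
  obtain ⟨r, f, hf⟩ := ASaux.sum_of_isSumSq hF
  obtain ⟨θ, ι, _, w, v, C, hS⟩ := SUW N ψ e F hF0 he hs r f hf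
  letI : Algebra (kk N) L := (ψ.comp θ).toAlgebra
  letI : Algebra (RP N) L := ((algebraMap (kk N) L).comp (algebraMap (RP N) (kk N))).toAlgebra
  haveI : IsScalarTower (RP N) (kk N) L := IsScalarTower.of_algebraMap_eq fun _ => rfl
  haveI := hS.fin
  obtain ⟨G, hG, hL⟩ := LVW N m hm (L := L) (fun ε hε => ABW hS ε hε)
  exact ⟨θ, G, hG, hL⟩

/-- **Linear bound.** If `N + 2 ≤ 2 ^ m` and `2 N ≤ b 2 ^ m`, every sum of squares in
`ℝ(X₁,…,X_N)` is a sum of `(b + 1) 2 ^ m - 1` squares. -/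
theorem main (N : ℕ) (hN : 1 ≤ N) (m : ℕ) (hm : N + 2 ≤ 2 ^ m) (b : ℕ) (hb : 2 * N ≤ b * 2 ^ m)
    (x : kk N) (hx : IsSumSq x) : SS ((b + 1) * 2 ^ m - 1) x :=
  final_of N (2 * N) (fun G hG => units N hN G hG) m
    (fun F hF hF0 L _ ψ e he hs => base N m hm F hF hF0 L ψ e he hs) b hb x hx

end Pool.Agent.PFL
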