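import Pool.Agent.PFI.SI

/-!
# Row SIc: sign and size of `P(c)` at the real points, general weight polynomial (MP_b906c2_al)
-/

set_option autoImplicit false

namespace Pool.Agent.PFL

open Polynomial Pool.Agent.PDF Pool.Agent.PFI

open PFI.SIaux in
/-- the common core: `P` is the polynomial of the sums `∑ s, β b s` of families closed under sign
changes whose squares are near `g ^ (2 K)` at the real points -/
theorem SIcore (N : ℕ) (G : Type) [Fintype G] [Nonempty G] :
    ∃ ε : ℝ, 0 < ε ∧ ∀ (g : RP N), (∀ y : Fin N → ℝ, 1 ≤ MvPolynomial.eval y g) → ∀ (K : ℕ)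
      (T : Type) (S : Finset T) (β : T → G → AlgebraicClosure (kk N)) (P : (kk N)[X]),
      S.Nonempty →
      (hint : ∀ b ∈ S, ∀ σ, IsIntegral (RP N) (β b σ)) →
      P.map (algebraMap (kk N) (AlgebraicClosure (kk N))) = ∏ b ∈ S, (X - C (∑ σ, β b σ)) →
      (∀ b ∈ S, ∀ b' ∈ S, b ≠ b' → ∃ σ, β b σ = - β b' σ) →
      (∀ b ∈ S, ∀ s : G → ℤ, (∀ σ, s σ = 1 ∨ s σ = -1) →
        ∃ b' ∈ S, ∀ σ, β b' σ = (s σ : AlgebraicClosure (kk N)) * β b σ) →
      (∀ (y : Fin N → ℝ) (χ : integralClosure (RP N) (AlgebraicClosure (kk N)) →+* ℂ), Spec y χ →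
        ∀ (b : T) (hb : b ∈ S) (σ : G),
        ‖χ ⟨β b σ, hint b hb σ⟩ ^ 2 - ((MvPolynomial.eval y g : ℝ) : ℂ) ^ (2 * K)‖ ≤
          ε * (MvPolynomial.eval y g) ^ (2 * K)) →
      ∃ (c : kk N) (H : RP N) (c₁ c₂ : ℝ) (M : ℕ),
        P.eval c = - algebraMap (RP N) (kk N) H ∧ 0 < c₁ ∧
        ∀ y : Fin N → ℝ, c₁ * (MvPolynomial.eval y g) ^ M ≤ MvPolynomial.eval y H ∧
          MvPolynomial.eval y H ≤ c₂ * (MvPolynomial.eval y g) ^ M := by
  classical
  set D := Fintype.card G with hDdef
  have hD : (1 : ℝ) ≤ D := by exact_mod_cast Fintype.card_pos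
  obtain ⟨η, hη0, hη1, hη⟩ := exists_eta (2 * (D : ℝ)) (2 ^ D)
  refine ⟨η / D, by positivity, ?_⟩
  intro g hg1 K T S β P hSne hint hPmap hU hE happ
  let bO : T → G → integralClosure (RP N) (AlgebraicClosure (kk N)) := fun b σ =>
    if h : b ∈ S then ⟨β b σ, hint b h σ⟩ else 0
  have hbO' : ∀ (b : T) (hb : b ∈ S) (σ : G), bO b σ = ⟨β b σ, hint b hb σ⟩ := by
    intro b hb σ
    simp only [bO, dif_pos hb]
  have hbO : ∀ b ∈ S, ∀ σ, ((bO b σ : integralClosure (RP N) (AlgebraicClosure (kk N))) :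
      AlgebraicClosure (kk N)) = β b σ := by
    intro b hb σ
    rw [hbO' b hb σ]
  let cp : RP N := MvPolynomial.C ((D : ℝ) - 1) * g ^ K
  let c : kk N := algebraMap (RP N) (kk N) cp
  let h : integralClosure (RP N) (AlgebraicClosure (kk N)) :=
    -∏ b ∈ S, (algebraMap (RP N) (integralClosure (RP N) (AlgebraicClosure (kk N))) cp -
      ∑ σ, bO b σ)
  have hh : (h : AlgebraicClosure (kk N)) =
      algebraMap (kk N) (AlgebraicClosure (kk N)) (-P.eval c) := by
    have h1 : algebraMap (kk N) (AlgebraicClosure (kk N)) (P.eval c) =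
        ∏ b ∈ S, (algebraMap (kk N) (AlgebraicClosure (kk N)) c - ∑ σ, β b σ) := by
      rw [← eval₂_at_apply, ← eval_map, hPmap, eval_prod]
      refine Finset.prod_congr rfl fun b _ => ?_
      rw [eval_sub, eval_X, eval_C]
    rw [map_neg, h1]
    have h2 : (h : AlgebraicClosure (kk N)) = -∏ b ∈ S,
        ((algebraMap (RP N) (integralClosure (RP N) (AlgebraicClosure (kk N))) cp :
          AlgebraicClosure (kk N)) -
        ∑ σ, ((bO b σ : integralClosure (RP N) (AlgebraicClosure (kk N))) :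
          AlgebraicClosure (kk N))) := by
      simp only [h]
      push_cast
      rfl
    rw [h2]
    congr 1
    refine Finset.prod_congr rfl fun b hb => ?_
    rw [Finset.sum_congr rfl fun σ _ => hbO b hb σ]
    rfl
  have hGint : IsIntegral (RP N) (-P.eval c) := by
    rw [← isIntegral_algebraMap_iff (algebraMap (kk N) (AlgebraicClosure (kk N))).injective, ← hh]
    exact h.2
  obtain ⟨H, hH⟩ := IsIntegrallyClosed.isIntegral_iff.1 hGint
  have hHh : algebraMap (RP N) (integralClosure (RP N) (AlgebraicClosure (kk N))) H = h := by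
    apply Subtype.ext
    rw [hh, ← hH]
    rfl
  refine ⟨c, H, 1 / 2, (2 * (D : ℝ)) ^ (2 ^ D) + 1 / 2, K * S.card, ?_, by norm_num, ?_⟩
  · rw [hH, neg_neg]
  intro y
  obtain ⟨χ, hχ⟩ := EX (Ω := AlgebraicClosure (kk N)) y
  have hg0 : 0 < MvPolynomial.eval y g := lt_of_lt_of_le one_pos (hg1 y)
  have hν : 0 < (MvPolynomial.eval y g) ^ K := pow_pos hg0 K
  have key := fin_est inferInstance S (fun b σ => χ (bO b σ)) (g := MvPolynomial.eval y H) hν hη0
    hη1 hη hSne
    (by
      intro b hb σ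
      rw [hbO' b hb σ]
      have h1 := happ y χ hχ b hb σ
      have h2 : (((MvPolynomial.eval y g) ^ K : ℝ) : ℂ) ^ 2 =
          ((MvPolynomial.eval y g : ℝ) : ℂ) ^ (2 * K) := by
        push_cast
        rw [← pow_mul, mul_comm]
      have h3 : ((MvPolynomial.eval y g) ^ K) ^ 2 = (MvPolynomial.eval y g) ^ (2 * K) := by
        rw [← pow_mul, mul_comm]
      rw [h2, h3]
      exact h1)
    (by
      intro b hb b' hb' hne
      by_contra hbb
      obtain ⟨σ, hσ⟩ := hU b hb b' hb' hbb
      apply hne σ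
      rw [← map_add]
      have h3 : bO b σ + bO b' σ = 0 := by
        apply Subtype.ext
        push_cast
        rw [hbO b hb, hbO b' hb', hσ]
        ring
      rw [h3, map_zero])
    (by
      intro b hb s hs
      obtain ⟨b', hb', hbb⟩ := hE b hb s hs
      refine ⟨b', hb', fun σ => ?_⟩
      have h3 : bO b' σ = (s σ : integralClosure (RP N) (AlgebraicClosure (kk N))) * bO b σ := by
        apply Subtype.ext
        push_cast
        rw [hbO _ hb', hbO b hb, hbb σ]
      rw [h3, map_mul, map_intCast])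
    (by
      have h1 : ((MvPolynomial.eval y H : ℝ) : ℂ) = χ h := by rw [← hχ H, hHh]
      rw [h1]
      simp only [h]
      rw [map_neg, map_prod]
      congr 1
      refine Finset.prod_congr rfl fun b _ => ?_
      rw [map_sub, map_sum, hχ]
      congr 1
      simp only [cp]
      rw [map_mul, map_pow, MvPolynomial.eval_C]
      push_cast
      rfl)
  rw [← pow_mul] at key
  exact key

end Pool.Agent.PFL
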